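import Pool.Agent.Lib.MP_6cd19d_an.HP.Defs

/-!
# Calculus of the comparison function

`JJ' = J1` and `J1' = J2` on `b < 1` (direct).  `ch b = b J1 b`.  Tangent inequality for `ch` (it is
`(1/2)(1 + 1/(1-b) - 4/(2-b))`):
`ch β - ch b - ch1 b (β - b) = (1/2)(β-b)^2 [1/((1-β)(1-b)^2) - 4/((2-β)(2-b)^2)]`, and
`(2-β)(2-b)^2 ≥ 4 (1-β)(1-b)^2` for `0 ≤ b, β < 1`.
-/

set_option autoImplicit false

open MeasureTheory ProbabilityTheory Set Filter Topology
open scoped ENNReal NNReal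

namespace Pool.Agent.Lib.MP_6cd19d_an.HP

open Pool.Agent.Lib.MP_6cd19d_an.ND

theorem hasDerivAt_JJ {b : ℝ} (hb : b < 1) : HasDerivAt JJ (J1 b) b := by
  have h1 : HasDerivAt (fun x : ℝ => 1 - x / 2) (-(1 / 2)) b := by
    have := ((hasDerivAt_id b).div_const 2).const_sub 1
    simpa using this
  have h2 : HasDerivAt (fun x : ℝ => 1 - x) (-1) b := by
    simpa using (hasDerivAt_id b).const_sub 1
  have hb1 : (1 - b) ≠ 0 := by linarith
  have hb2 : (1 - b / 2) ≠ 0 := by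
    have : 0 < 1 - b / 2 := by linarith
    exact this.ne'
  have hb3 : (2 - b) ≠ 0 := by linarith
  have h3 := (h1.log hb2).sub ((h2.log hb1).div_const 2)
  have e : J1 b = -(1 / 2) / (1 - b / 2) - -1 / (1 - b) / 2 := by
    unfold J1
    field_simp
    ring
  rw [e]
  exact h3

theorem hasDerivAt_J1 {b : ℝ} (hb : b < 1) : HasDerivAt J1 (J2 b) b := by
  have hb1 : (1 - b) ≠ 0 := by linarith
  have hb3 : (2 - b) ≠ 0 := by linarith
  have h2 : HasDerivAt (fun x : ℝ => 1 - x) (-1) b := by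
    simpa using (hasDerivAt_id b).const_sub 1
  have h3 : HasDerivAt (fun x : ℝ => 2 - x) (-1) b := by
    simpa using (hasDerivAt_id b).const_sub 2
  have h4 : HasDerivAt (fun x : ℝ => 2 * (1 - x) * (2 - x))
      (2 * -1 * (2 - b) + 2 * (1 - b) * -1) b := (h2.const_mul 2).mul h3
  have h5 := (hasDerivAt_id b).div h4 (by
    simp only [ne_eq, mul_eq_zero, not_or]
    exact ⟨⟨two_ne_zero, hb1⟩, hb3⟩)
  have e : J2 b = (1 * (2 * (1 - b) * (2 - b)) - id b * (2 * -1 * (2 - b) + 2 * (1 - b) * -1)) /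
      (2 * (1 - b) * (2 - b)) ^ 2 := by
    unfold J2
    simp only [id]
    field_simp
    ring
  rw [e]
  exact h5

theorem ch_eq (b : ℝ) : ch b = b * J1 b := by
  unfold ch J1
  ring

theorem tangent_ch {b c : ℝ} (hb0 : 0 ≤ b) (hb1 : b < 1) (hc0 : 0 ≤ c) (hc1 : c < 1) :
    ch b + ch1 b * (c - b) ≤ ch c := by
  have hb1' : (1 - b) ≠ 0 := by linarith
  have hb2' : (2 - b) ≠ 0 := by linarith
  have hc1' : (1 - c) ≠ 0 := by linarith
  have hc2' : (2 - c) ≠ 0 := by linarith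
  have e : ch c - (ch b + ch1 b * (c - b)) =
      1 / 2 * (c - b) ^ 2 * (1 / ((1 - c) * (1 - b) ^ 2) - 4 / ((2 - c) * (2 - b) ^ 2)) := by
    unfold ch ch1 J1 J2
    field_simp
    ring
  have p1 : 0 < 1 - b := by linarith
  have p2 : 0 < 1 - c := by linarith
  have p3 : 0 < 2 - b := by linarith
  have p4 : 0 < 2 - c := by linarith
  have h1 : 4 / ((2 - c) * (2 - b) ^ 2) ≤ 1 / ((1 - c) * (1 - b) ^ 2) := by
    rw [div_le_div_iff₀ (by positivity) (by positivity)]
    have h2 : 4 * (1 - b) ^ 2 ≤ (2 - b) ^ 2 := by nlinarith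
    have h3 : 1 - c ≤ 2 - c := by linarith
    calc 4 * ((1 - c) * (1 - b) ^ 2) = (1 - c) * (4 * (1 - b) ^ 2) := by ring
      _ ≤ (2 - c) * (2 - b) ^ 2 := mul_le_mul h3 h2 (by positivity) p4.le
      _ = 1 * ((2 - c) * (2 - b) ^ 2) := by ring
  have h4 : 0 ≤ ch c - (ch b + ch1 b * (c - b)) := by
    rw [e]
    exact mul_nonneg (by positivity) (sub_nonneg.2 h1)
  linarith

theorem J1_nonneg {b : ℝ} (hb0 : 0 ≤ b) (hb1 : b < 1) : 0 ≤ J1 b := by
  unfold J1
  have p1 : 0 < 1 - b := by linarith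
  have p3 : 0 < 2 - b := by linarith
  positivity

theorem JJ_zero : JJ 0 = 0 := by
  unfold JJ
  simp

theorem J1_zero : J1 0 = 0 := by
  unfold J1
  simp

/-- `JJ b - b J1 b` and `J1 b` are large for `b` near `1`: used to show that `β < 1`.  `J1 b (1 - b) = b/(2(2-b))` stays
bounded and `JJ b → ∞`. -/
theorem JJ_large (c : ℝ) (hc : 1 ≤ c) (M : ℝ) : ∃ b : ℝ, 0 ≤ b ∧ b < 1 ∧ M < JJ b - b * J1 b + J1 b * c := by
  set t : ℝ := |M| + Real.log 2 + 1 with ht
  have hl2 : 0 < Real.log 2 := Real.log_pos (by norm_num)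
  have ht0 : 0 < t := by positivity
  have he : Real.exp (-(2 * t)) ≤ 1 := Real.exp_le_one_iff.2 (by linarith)
  have he0 : 0 < Real.exp (-(2 * t)) := Real.exp_pos _
  refine ⟨1 - Real.exp (-(2 * t)), by linarith, by linarith, ?_⟩
  set b : ℝ := 1 - Real.exp (-(2 * t)) with hb
  have hb0 : 0 ≤ b := by linarith
  have hb1 : b < 1 := by linarith
  have h1 : 0 ≤ J1 b * (c - b) := by
    refine mul_nonneg ?_ (by linarith)
    unfold J1
    have p1 : 0 < 1 - b := by linarith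
    have p3 : 0 < 2 - b := by linarith
    positivity
  have h2 : -Real.log 2 + t ≤ JJ b := by
    unfold JJ
    have e1 : 1 - b = Real.exp (-(2 * t)) := by rw [hb]; ring
    rw [e1, Real.log_exp]
    have e2 : -Real.log 2 ≤ Real.log (1 - b / 2) := by
      rw [← Real.log_inv]
      exact Real.log_le_log (by norm_num) (by linarith)
    linarith
  have h3 : M ≤ |M| := le_abs_self M
  have h4 : JJ b - b * J1 b + J1 b * c = JJ b + J1 b * (c - b) := by ring
  rw [h4]
  linarith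

end Pool.Agent.Lib.MP_6cd19d_an.HP
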