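import Pool.Agent.Lib.MP_6cd19d_an.HP.Defs
import Pool.Agent.Lib.MP_6cd19d_an.A.G2
import Pool.Agent.Lib.MP_6cd19d_an.HP.A1

section

/-!
# The sphere

`σ` is a rotation invariant probability measure on the unit sphere of `E (n+1)`, `Z κ = ∫ exp(κ y_0) dσ`,
`Z1 κ = ∫ y_0 exp(κ y_0) dσ`, `Z2 κ = ∫ y_0^2 exp(κ y_0) dσ`.  Differentiation under the integral is clear (`|y_0| ≤ 1`).
ODE: for `j ≠ 0` and the rotation `R_θ` in the plane `(0,j)`, `∫ f(R_θ y) dσ` is constant for `f(y) = y_j exp(κ y_0)`;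
its derivative at `θ = 0` is `∫ (κ y_j^2 - y_0) exp(κ y_0) dσ = 0` up to sign (or: use the symmetry differently, any proof of
`κ ∫ y_j^2 exp(κ y_0) = ∫ y_0 exp(κ y_0)` is fine); sum over the `n` indices `j ≠ 0`: `∑_{j≠0} y_j^2 = 1 - y_0^2`.
`Z1 0 = 0` by the symmetry `y ↦ -y`, `Z2 0 = 1/(n+1)` by the symmetry of the coordinates and `∑ y_j^2 = 1`.
`Z1 κ > 0` for `κ > 0`: `Z1 0 = 0` and `Z2 > 0`.  `Z1 < Z`: `y_0 < 1` almost surely (or `y_0 ≤ 1` and not almost surely `1`).
`gz_sphere`: for a unit vector `x` rotate it to the first basis vector: `∫ exp(-l‖x-y‖^2) dσ(y) = exp(-2l) Z(2l)`.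
-/

set_option autoImplicit false

open MeasureTheory ProbabilityTheory Set Filter Topology
open scoped ENNReal NNReal

namespace Pool.Agent.Lib.MP_6cd19d_an.HP

open Pool.Agent.Lib.MP_6cd19d_an.ND

variable {n : ℕ}

/-- Rotation invariant probability measures on the unit sphere. -/
def SphM (σ : Measure (E (n + 1))) : Prop :=
  σ univ = 1 ∧ σ (Metric.sphere (0 : E (n + 1)) 1)ᶜ = 0 ∧ ∀ T : E (n + 1) ≃ₗᵢ[ℝ] E (n + 1), σ.map T = σ

section aux

variable {σ : Measure (E (n + 1))}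

private theorem B1_ae (hσ : SphM σ) : ∀ᵐ y ∂σ, ‖y‖ = 1 := by
  rw [ae_iff]
  have h := hσ.2.1
  convert! h using 2
  ext y
  simp

private theorem B1_coord {y : E (n + 1)} (hy : ‖y‖ = 1) (j : Fin (n + 1)) : |y j| ≤ 1 := by
  have h := PiLp.norm_apply_le y j
  rw [hy, Real.norm_eq_abs] at h
  exact h

private theorem B1_inv (hσ : SphM σ) (T : E (n + 1) ≃ₗᵢ[ℝ] E (n + 1)) (f : E (n + 1) → ℝ) :
    ∫ y, f (T y) ∂σ = ∫ y, f y ∂σ := by
  conv_rhs => rw [← hσ.2.2 T]
  exact (T.toHomeomorph.measurableEmbedding.integral_map f).symm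

private theorem B1_int [IsFiniteMeasure σ] (hσ : SphM σ) {f : E (n + 1) → ℝ} (hf : Continuous f)
    (C : ℝ) (hC : ∀ y : E (n + 1), ‖y‖ = 1 → |f y| ≤ C) : Integrable f σ := by
  refine Integrable.of_bound hf.aestronglyMeasurable C ?_
  filter_upwards [B1_ae hσ] with y hy
  rw [Real.norm_eq_abs]
  exact hC y hy

private theorem B1_c (j : Fin (n + 1)) : Continuous fun y : E (n + 1) => y j :=
  (PiLp.continuous_apply 2 (fun _ => ℝ) j)

private theorem B1_expb {t κ : ℝ} (ht : |t| ≤ 1) : Real.exp (κ * t) ≤ Real.exp |κ| := by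
  apply Real.exp_le_exp.2
  calc κ * t ≤ |κ * t| := le_abs_self _
    _ = |κ| * |t| := abs_mul _ _
    _ ≤ |κ| * 1 := mul_le_mul_of_nonneg_left ht (abs_nonneg _)
    _ = |κ| := mul_one _

private theorem B1_expb' {t κ : ℝ} (ht : |t| ≤ 1) : Real.exp (-|κ|) ≤ Real.exp (κ * t) := by
  apply Real.exp_le_exp.2
  have h1 : -(κ * t) ≤ |κ| := by
    calc -(κ * t) ≤ |κ * t| := neg_le_abs _
      _ = |κ| * |t| := abs_mul _ _
      _ ≤ |κ| * 1 := mul_le_mul_of_nonneg_left ht (abs_nonneg _)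
      _ = |κ| := mul_one _
  linarith

private theorem B1_der [IsFiniteMeasure σ] (hσ : SphM σ) (k : ℕ) (κ : ℝ) :
    HasDerivAt (fun t => ∫ y, (y 0) ^ k * Real.exp (t * y 0) ∂σ)
      (∫ y, (y 0) ^ (k + 1) * Real.exp (κ * y 0) ∂σ) κ := by
  have huniv : integrableExpSet (fun y : E (n + 1) => y 0) σ = univ := by
    ext t
    simp only [integrableExpSet, mem_ofPred_eq, mem_univ, iff_true]
    refine B1_int hσ (Real.continuous_exp.comp (continuous_const.mul (B1_c 0))) (Real.exp |t|) ?_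
    intro y hy
    rw [abs_of_pos (Real.exp_pos _)]
    exact B1_expb (B1_coord hy 0)
  exact hasDerivAt_integral_pow_mul_exp_real (X := fun y : E (n + 1) => y 0) (μ := σ) (t := κ)
    (by rw [huniv, interior_univ]; exact mem_univ _) k

/-- The reflection in the line of a unit vector of the plane of the coordinates `0`, `j`. -/
private theorem B1_refl (j : Fin (n + 1)) (hj : j ≠ 0) (φ : ℝ) :
    ∃ T : E (n + 1) ≃ₗᵢ[ℝ] E (n + 1), ∀ y : E (n + 1),
      (T y) 0 = Real.cos φ * y 0 + Real.sin φ * y j ∧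
      (T y) j = Real.sin φ * y 0 - Real.cos φ * y j := by
  set u : E (n + 1) := EuclideanSpace.single 0 (Real.cos (φ / 2)) +
    EuclideanSpace.single j (Real.sin (φ / 2)) with hu
  have hu0 : u 0 = Real.cos (φ / 2) := by
    simp [hu, hj.symm]
  have huj : u j = Real.sin (φ / 2) := by
    simp [hu, hj]
  have hui : ∀ y : E (n + 1), inner ℝ u y = Real.cos (φ / 2) * y 0 + Real.sin (φ / 2) * y j := by
    intro y
    rw [hu, inner_add_left, EuclideanSpace.inner_single_left, EuclideanSpace.inner_single_left]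
    simp
  have hun : ‖u‖ ^ 2 = 1 := by
    rw [← real_inner_self_eq_norm_sq, hui, hu0, huj]
    have := Real.cos_sq_add_sin_sq (φ / 2)
    nlinarith
  refine ⟨(Submodule.span ℝ {u}).reflection, fun y => ?_⟩
  have hT : (Submodule.span ℝ {u}).reflection y = (2 * inner ℝ u y) • u - y := by
    rw [Submodule.reflection_singleton_apply]
    simp only [RCLike.ofReal_real_eq_id, id_eq, hun, div_one]
    rw [two_smul, ← add_smul, ← two_mul]
  have hc : Real.cos φ = 2 * Real.cos (φ / 2) ^ 2 - 1 := by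
    rw [← Real.cos_two_mul]
    congr 1
    ring
  have hs : Real.sin φ = 2 * Real.sin (φ / 2) * Real.cos (φ / 2) := by
    rw [← Real.sin_two_mul]
    congr 1
    ring
  have hcs := Real.cos_sq_add_sin_sq (φ / 2)
  rw [hT, hui]
  constructor
  · simp only [PiLp.sub_apply, PiLp.smul_apply, smul_eq_mul, hu0]
    rw [hc, hs]
    ring
  · simp only [PiLp.sub_apply, PiLp.smul_apply, smul_eq_mul, huj]
    rw [hc, hs]
    have h1 : Real.sin (φ / 2) ^ 2 = 1 - Real.cos (φ / 2) ^ 2 := by linarith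
    have h2 : 2 * (Real.cos (φ / 2) * y 0 + Real.sin (φ / 2) * y j) * Real.sin (φ / 2) - y j =
      2 * Real.sin (φ / 2) * Real.cos (φ / 2) * y 0 + (2 * Real.sin (φ / 2) ^ 2 - 1) * y j := by
      ring
    rw [h2, h1]
    ring

private theorem B1_ibp [IsFiniteMeasure σ] (hσ : SphM σ) (j : Fin (n + 1)) (hj : j ≠ 0) (κ : ℝ) :
    ∫ y, (y 0 - κ * (y j) ^ 2) * Real.exp (κ * y 0) ∂σ = 0 := by
  set F : ℝ → E (n + 1) → ℝ := fun φ y => (Real.sin φ * y 0 - Real.cos φ * y j) *
    Real.exp (κ * (Real.cos φ * y 0 + Real.sin φ * y j)) with hF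
  set F' : ℝ → E (n + 1) → ℝ := fun φ y => (Real.cos φ * y 0 + Real.sin φ * y j) *
      Real.exp (κ * (Real.cos φ * y 0 + Real.sin φ * y j)) +
    (Real.sin φ * y 0 - Real.cos φ * y j) *
      (Real.exp (κ * (Real.cos φ * y 0 + Real.sin φ * y j)) *
        (κ * (-Real.sin φ * y 0 + Real.cos φ * y j))) with hF'
  have hconst : ∀ φ, ∫ y, F φ y ∂σ = ∫ y, (y j) * Real.exp (κ * y 0) ∂σ := by
    intro φ
    obtain ⟨T, hT⟩ := B1_refl j hj φ
    rw [← B1_inv hσ T (fun y => (y j) * Real.exp (κ * y 0))]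
    refine integral_congr_ae (Eventually.of_forall fun y => ?_)
    simp only [hF, (hT y).1, (hT y).2]
  have hb : ∀ (y : E (n + 1)), ‖y‖ = 1 → ∀ φ : ℝ,
      |Real.cos φ * y 0 + Real.sin φ * y j| ≤ 2 ∧ |Real.sin φ * y 0 - Real.cos φ * y j| ≤ 2 ∧
      |-Real.sin φ * y 0 + Real.cos φ * y j| ≤ 2 := by
    intro y hy φ
    have a0 := B1_coord hy 0
    have aj := B1_coord hy j
    have c1 := Real.abs_cos_le_one φ
    have s1 := Real.abs_sin_le_one φ
    have p1 : |Real.cos φ * y 0| ≤ 1 := by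
      rw [abs_mul]; exact mul_le_one₀ c1 (abs_nonneg _) a0
    have p2 : |Real.sin φ * y 0| ≤ 1 := by
      rw [abs_mul]; exact mul_le_one₀ s1 (abs_nonneg _) a0
    have p3 : |Real.cos φ * y j| ≤ 1 := by
      rw [abs_mul]; exact mul_le_one₀ c1 (abs_nonneg _) aj
    have p4 : |Real.sin φ * y j| ≤ 1 := by
      rw [abs_mul]; exact mul_le_one₀ s1 (abs_nonneg _) aj
    rw [abs_le] at p1 p2 p3 p4
    refine ⟨?_, ?_, ?_⟩ <;> rw [abs_le] <;> constructor <;> linarith [p1.1, p1.2, p2.1, p2.2, p3.1, p3.2, p4.1, p4.2]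
  have hexpb : ∀ (y : E (n + 1)), ‖y‖ = 1 → ∀ φ : ℝ,
      Real.exp (κ * (Real.cos φ * y 0 + Real.sin φ * y j)) ≤ Real.exp (2 * |κ|) := by
    intro y hy φ
    apply Real.exp_le_exp.2
    calc κ * (Real.cos φ * y 0 + Real.sin φ * y j)
        ≤ |κ * (Real.cos φ * y 0 + Real.sin φ * y j)| := le_abs_self _
      _ = |κ| * |Real.cos φ * y 0 + Real.sin φ * y j| := abs_mul _ _
      _ ≤ |κ| * 2 := mul_le_mul_of_nonneg_left (hb y hy φ).1 (abs_nonneg _)
      _ = 2 * |κ| := mul_comm _ _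
  have hFc : ∀ φ, Continuous (F φ) := by
    intro φ
    simp only [hF]
    have c0 := B1_c (n := n) 0
    have cj := B1_c (n := n) j
    fun_prop
  have hF'c : ∀ φ, Continuous (F' φ) := by
    intro φ
    simp only [hF']
    have c0 := B1_c (n := n) 0
    have cj := B1_c (n := n) j
    fun_prop
  have hder := (hasDerivAt_integral_of_dominated_loc_of_deriv_le (μ := σ) (F := F) (F' := F')
    (x₀ := (0 : ℝ)) (s := univ) (bound := fun _ => 2 * Real.exp (2 * |κ|) +
      2 * (Real.exp (2 * |κ|) * (|κ| * 2))) univ_mem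
    (Eventually.of_forall fun φ => (hFc φ).aestronglyMeasurable)
    (B1_int hσ (hFc 0) (2 * Real.exp (2 * |κ|)) (fun y hy => by
      simp only [hF]
      rw [abs_mul, abs_of_pos (Real.exp_pos _)]
      exact mul_le_mul (hb y hy 0).2.1 (hexpb y hy 0) (Real.exp_pos _).le (by norm_num)))
    (hF'c 0).aestronglyMeasurable ?_ (integrable_const _) ?_).2
  · have h1 : (fun φ => ∫ y, F φ y ∂σ) = fun _ => ∫ y, (y j) * Real.exp (κ * y 0) ∂σ :=
      funext hconst
    rw [h1] at hder
    have h2 := hder.unique (hasDerivAt_const (0 : ℝ) _)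
    rw [← h2]
    refine integral_congr_ae (Eventually.of_forall fun y => ?_)
    simp only [hF', Real.cos_zero, Real.sin_zero]
    ring_nf
  · filter_upwards [B1_ae hσ] with y hy φ _
    simp only [hF']
    rw [Real.norm_eq_abs]
    refine (abs_add_le _ _).trans (add_le_add ?_ ?_)
    · rw [abs_mul, abs_of_pos (Real.exp_pos _)]
      exact mul_le_mul (hb y hy φ).1 (hexpb y hy φ) (Real.exp_pos _).le (by norm_num)
    · rw [abs_mul, abs_mul, abs_of_pos (Real.exp_pos _), abs_mul]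
      refine mul_le_mul (hb y hy φ).2.1 ?_ (by positivity) (by norm_num)
      refine mul_le_mul (hexpb y hy φ) ?_ (by positivity) (by positivity)
      exact mul_le_mul_of_nonneg_left (hb y hy φ).2.2 (abs_nonneg _)
  · refine Eventually.of_forall fun y φ _ => ?_
    have e1 : HasDerivAt (fun φ => Real.sin φ * y 0 - Real.cos φ * y j)
        (Real.cos φ * y 0 + Real.sin φ * y j) φ := by
      have := ((Real.hasDerivAt_sin φ).mul_const (y 0)).sub
        ((Real.hasDerivAt_cos φ).mul_const (y j))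
      convert! this using 1
      ring
    have e2 : HasDerivAt (fun φ => κ * (Real.cos φ * y 0 + Real.sin φ * y j))
        (κ * (-Real.sin φ * y 0 + Real.cos φ * y j)) φ :=
      (((Real.hasDerivAt_cos φ).mul_const (y 0)).add
        ((Real.hasDerivAt_sin φ).mul_const (y j))).const_mul κ
    exact e1.mul e2.exp

private theorem B1_sq {y : E (n + 1)} (hy : ‖y‖ = 1) :
    ∑ j : Fin n, (y j.succ) ^ 2 = 1 - (y 0) ^ 2 := by
  have h := EuclideanSpace.norm_sq_eq y
  rw [hy, Fin.sum_univ_succ] at h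
  simp only [Real.norm_eq_abs, sq_abs] at h
  linarith

end aux

theorem exists_sphM : ∃ σ : Measure (E (n + 1)), SphM σ := by
  obtain ⟨σ, h1, h2, h3⟩ := A.exists_sphere_measure (n := n + 1) (by omega)
  exact ⟨σ, h1, h2, h3⟩

theorem bes_sphere (hn : 1 ≤ n) {σ : Measure (E (n + 1))} (hσ : SphM σ) :
    Bes n (fun κ => ∫ y, Real.exp (κ * y 0) ∂σ) (fun κ => ∫ y, y 0 * Real.exp (κ * y 0) ∂σ)
      (fun κ => ∫ y, (y 0) ^ 2 * Real.exp (κ * y 0) ∂σ) := by
  have : IsProbabilityMeasure σ := ⟨hσ.1⟩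
  have hn0 : (0 : ℝ) < n := by exact_mod_cast hn
  have c0 := B1_c (n := n) 0
  have d0 : ∀ κ : ℝ, HasDerivAt (fun κ => ∫ y, Real.exp (κ * y 0) ∂σ)
      (∫ y, y 0 * Real.exp (κ * y 0) ∂σ) κ := by
    intro κ
    have h := B1_der hσ 0 κ
    simpa using h
  have d1 : ∀ κ : ℝ, HasDerivAt (fun κ => ∫ y, y 0 * Real.exp (κ * y 0) ∂σ)
      (∫ y, (y 0) ^ 2 * Real.exp (κ * y 0) ∂σ) κ := by
    intro κ
    have h := B1_der hσ 1 κ
    simpa using h
  have d2 : ∀ κ : ℝ, HasDerivAt (fun κ => ∫ y, (y 0) ^ 2 * Real.exp (κ * y 0) ∂σ)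
      (∫ y, (y 0) ^ 3 * Real.exp (κ * y 0) ∂σ) κ := by
    intro κ
    exact B1_der hσ 2 κ
  have i0 : ∀ κ : ℝ, Integrable (fun y => Real.exp (κ * y 0)) σ := by
    intro κ
    refine B1_int hσ (by fun_prop) (Real.exp |κ|) (fun y hy => ?_)
    rw [abs_of_pos (Real.exp_pos _)]
    exact B1_expb (B1_coord hy 0)
  have i1 : ∀ κ : ℝ, Integrable (fun y => y 0 * Real.exp (κ * y 0)) σ := by
    intro κ
    refine B1_int hσ (by fun_prop) (1 * Real.exp |κ|) (fun y hy => ?_)
    rw [abs_mul, abs_of_pos (Real.exp_pos _)]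
    exact mul_le_mul (B1_coord hy 0) (B1_expb (B1_coord hy 0)) (Real.exp_pos _).le zero_le_one
  have ij : ∀ (κ : ℝ) (j : Fin (n + 1)), Integrable (fun y => (y j) ^ 2 * Real.exp (κ * y 0)) σ := by
    intro κ j
    have cj := B1_c (n := n) j
    refine B1_int hσ (by fun_prop) (1 * Real.exp |κ|) (fun y hy => ?_)
    rw [abs_mul, abs_of_pos (Real.exp_pos _)]
    refine mul_le_mul ?_ (B1_expb (B1_coord hy 0)) (Real.exp_pos _).le zero_le_one
    rw [abs_pow]
    exact pow_le_one₀ (abs_nonneg _) (B1_coord hy j)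
  have hode : ∀ κ : ℝ, κ * (∫ y, Real.exp (κ * y 0) ∂σ - ∫ y, (y 0) ^ 2 * Real.exp (κ * y 0) ∂σ) =
      n * ∫ y, y 0 * Real.exp (κ * y 0) ∂σ := by
    intro κ
    have hj : ∀ j : Fin n, κ * ∫ y, (y j.succ) ^ 2 * Real.exp (κ * y 0) ∂σ =
        ∫ y, y 0 * Real.exp (κ * y 0) ∂σ := by
      intro j
      have h := B1_ibp hσ j.succ (Fin.succ_ne_zero j) κ
      have h2 : ∫ y, (y 0 - κ * (y j.succ) ^ 2) * Real.exp (κ * y 0) ∂σ =
          ∫ y, y 0 * Real.exp (κ * y 0) ∂σ - κ * ∫ y, (y j.succ) ^ 2 * Real.exp (κ * y 0) ∂σ := by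
        rw [← integral_const_mul, ← integral_sub (i1 κ) ((ij κ j.succ).const_mul κ)]
        refine integral_congr_ae (Eventually.of_forall fun y => ?_)
        simp only
        ring
      linarith
    have hs : ∑ j : Fin n, κ * ∫ y, (y j.succ) ^ 2 * Real.exp (κ * y 0) ∂σ =
        n * ∫ y, y 0 * Real.exp (κ * y 0) ∂σ := by
      rw [Finset.sum_congr rfl fun j _ => hj j, Finset.sum_const, Finset.card_univ,
        Fintype.card_fin, nsmul_eq_mul]
    rw [← hs, ← Finset.mul_sum, ← integral_finsetSum _ (fun j _ => ij κ j.succ),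
      ← integral_sub (i0 κ) (ij κ 0)]
    congr 1
    refine integral_congr_ae ?_
    filter_upwards [B1_ae hσ] with y hy
    rw [← Finset.sum_mul, B1_sq hy]
    ring
  have hone : ∫ y, Real.exp ((0 : ℝ) * y 0) ∂σ = 1 := by
    simp
  have hzero : ∫ y, y 0 * Real.exp ((0 : ℝ) * y 0) ∂σ = 0 := by
    have h := B1_inv hσ (LinearIsometryEquiv.neg ℝ) (fun y => y 0)
    have h2 : ∫ y, ((LinearIsometryEquiv.neg ℝ (E := E (n + 1))) y) 0 ∂σ =
        - ∫ y, y 0 ∂σ := by
      rw [← integral_neg]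
      rfl
    simp only [zero_mul, Real.exp_zero, mul_one]
    rw [h2] at h
    linarith
  have htwo : ∫ y, (y 0) ^ 2 * Real.exp ((0 : ℝ) * y 0) ∂σ = 1 / ((n : ℝ) + 1) := by
    have e1 : HasDerivAt (fun κ : ℝ => κ * (∫ y, Real.exp (κ * y 0) ∂σ -
        ∫ y, (y 0) ^ 2 * Real.exp (κ * y 0) ∂σ)) _ 0 :=
      (hasDerivAt_id (0 : ℝ)).mul ((d0 0).sub (d2 0))
    have e2 := (d1 0).const_mul (n : ℝ)
    rw [funext hode] at e1
    have e3 := e1.unique e2
    simp only [id_eq, zero_mul, add_zero, one_mul] at e3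
    simp only [zero_mul, Real.exp_zero, mul_one, integral_const, probReal_univ, one_smul] at e3 ⊢
    rw [eq_div_iff (by positivity)]
    linarith
  have hgt : ∀ (κ : ℝ) (g : E (n + 1) → ℝ), Integrable g σ → Integrable (fun y => g y * Real.exp (κ * y 0)) σ →
      (∀ y : E (n + 1), ‖y‖ = 1 → 0 ≤ g y) →
      Real.exp (-|κ|) * ∫ y, g y ∂σ ≤ ∫ y, g y * Real.exp (κ * y 0) ∂σ := by
    intro κ g hg hgi hg0
    rw [← integral_const_mul]
    refine integral_mono_ae (hg.const_mul _) hgi ?_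
    filter_upwards [B1_ae hσ] with y hy
    rw [mul_comm]
    exact mul_le_mul_of_nonneg_left (B1_expb' (B1_coord hy 0)) (hg0 y hy)
  have hint0 : Integrable (fun y : E (n + 1) => y 0) σ := by
    have := i1 0
    simpa using this
  have hint2 : Integrable (fun y : E (n + 1) => (y 0) ^ 2) σ := by
    have := ij 0 0
    simpa using this
  refine ⟨d0, d1, (d2 0).continuousAt, hode, ?_, hone, hzero, htwo, ?_, ?_⟩
  · intro κ
    have h := hgt κ (fun _ => 1) (integrable_const _) (by simpa using i0 κ) (fun _ _ => zero_le_one)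
    simp only [integral_const, probReal_univ, smul_eq_mul, mul_one, one_mul] at h
    exact lt_of_lt_of_le (Real.exp_pos _) h
  · intro κ hκ
    have h := hgt κ (fun y => 1 - (y 0) ^ 2) ((integrable_const _).sub hint2)
      (by
        have := (i0 κ).sub (ij κ 0)
        refine this.congr (Eventually.of_forall fun y => ?_)
        simp only [Pi.sub_apply]
        ring)
      (fun y hy => by
        have := abs_le.1 (B1_coord hy 0)
        nlinarith)
    have h2 : ∫ y, (1 - (y 0) ^ 2) * Real.exp (κ * y 0) ∂σ =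
        ∫ y, Real.exp (κ * y 0) ∂σ - ∫ y, (y 0) ^ 2 * Real.exp (κ * y 0) ∂σ := by
      rw [← integral_sub (i0 κ) (ij κ 0)]
      refine integral_congr_ae (Eventually.of_forall fun y => ?_)
      simp only
      ring
    have h3 : ∫ y, (1 - (y 0) ^ 2) ∂σ = 1 - 1 / ((n : ℝ) + 1) := by
      rw [integral_sub (integrable_const _) hint2, ← htwo]
      simp
    have h4 : 0 < Real.exp (-|κ|) * (1 - 1 / ((n : ℝ) + 1)) := by
      refine mul_pos (Real.exp_pos _) ?_
      rw [sub_pos, div_lt_one (by positivity)]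
      linarith
    rw [h2, h3] at h
    have h5 := hode κ
    have h6 : 0 < n * ∫ y, y 0 * Real.exp (κ * y 0) ∂σ := by
      rw [← h5]
      exact mul_pos hκ (by linarith)
    exact (mul_pos_iff_of_pos_left hn0).1 h6
  · intro κ
    have h := hgt κ (fun y => 1 - y 0) ((integrable_const _).sub hint0)
      (by
        have := (i0 κ).sub (i1 κ)
        refine this.congr (Eventually.of_forall fun y => ?_)
        simp only [Pi.sub_apply]
        ring)
      (fun y hy => by
        have := abs_le.1 (B1_coord hy 0)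
        linarith)
    have h2 : ∫ y, (1 - y 0) * Real.exp (κ * y 0) ∂σ =
        ∫ y, Real.exp (κ * y 0) ∂σ - ∫ y, y 0 * Real.exp (κ * y 0) ∂σ := by
      rw [← integral_sub (i0 κ) (i1 κ)]
      refine integral_congr_ae (Eventually.of_forall fun y => ?_)
      simp only
      ring
    have h3 : ∫ y, (1 - y 0) ∂σ = 1 := by
      rw [integral_sub (integrable_const _) hint0]
      have := hzero
      simp only [zero_mul, Real.exp_zero, mul_one] at this
      rw [this]
      simp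
    rw [h2, h3, mul_one] at h
    have := Real.exp_pos (-|κ|)
    show ∫ y, y 0 * Real.exp (κ * y 0) ∂σ < ∫ y, Real.exp (κ * y 0) ∂σ
    linarith

theorem gz_sphere {σ : Measure (E (n + 1))} (hσ : SphM σ) (l : ℝ) :
    gz σ l = Real.exp (-2 * l) * ∫ y, Real.exp (2 * l * y 0) ∂σ := by
  have : IsProbabilityMeasure σ := ⟨hσ.1⟩
  set e0 : E (n + 1) := EuclideanSpace.single 0 1 with he0
  have hne : ‖e0‖ = 1 := by
    rw [he0, EuclideanSpace.norm_single]
    simp
  have hin : ∀ y : E (n + 1), inner ℝ e0 y = y 0 := by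
    intro y
    rw [he0, EuclideanSpace.inner_single_left]
    simp
  have key : ∀ x : E (n + 1), ‖x‖ = 1 → ∫ y, Real.exp (-l * ‖x - y‖ ^ 2) ∂σ =
      Real.exp (-2 * l) * ∫ y, Real.exp (2 * l * y 0) ∂σ := by
    intro x hx
    obtain ⟨T, hT⟩ := A.exists_isometry (x := e0) (y := x) (by rw [hne, hx])
    rw [← B1_inv hσ T, ← integral_const_mul]
    refine integral_congr_ae ?_
    filter_upwards [B1_ae hσ] with y hy
    have h1 : x - T y = T (e0 - y) := by rw [map_sub, hT]
    rw [h1, T.norm_map, norm_sub_sq_real, hne, hy, hin, ← Real.exp_add]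
    congr 1
    ring
  unfold gz
  rw [integral_congr_ae (g := fun _ => Real.exp (-2 * l) * ∫ y, Real.exp (2 * l * y 0) ∂σ)]
  · simp
  · filter_upwards [B1_ae hσ] with x hx
    exact key x hx

end Pool.Agent.Lib.MP_6cd19d_an.HP
end

section

section

/-!
# The derivative of the mean entropy under Gaussian tilts

`U = ∑ p_i tl (s_i) r g`.  For the standard Gaussian `g`: `E tl(s) = 1`, `E (g tl(s)) = r s`
(both from `E exp(c g) = exp(c^2/2)`).  As `log (p_i tl) = log p_i + r s_i g - r^2 s_i^2/2`,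
`E LL(p tl) = ∑ p_i log p_i + (r^2/2) ∑ p_i s_i^2 - E[U log U]`.
`d/dr E[U log U] = E[(1 + log U) ∂_r U]` (differentiation under the integral: for `|r| ≤ R` everything is bounded by
`C exp(C |g|)`), `∂_r U = ∑ p_i (s_i g - r s_i^2) tl`, and by Gaussian integration by parts `E[g f(g)] = E[f'(g)]` with
`f = (1 + log U) s_i tl(s_i)` one gets `E[(1+log U) ∂_r U] = E[(∑ p_i s_i tl) ∂_g U / U] = r E[(∑ p_i s_i tl)^2 / U]`.
So the derivative of `E LL` is `r ∑ p_i s_i^2 - r E[(∑ p_i s_i tl)^2/U] = r E[VV]`.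
-/

set_option autoImplicit false

open MeasureTheory ProbabilityTheory Set Filter Topology
open scoped ENNReal NNReal

namespace Pool.Agent.Lib.MP_6cd19d_an.HP

open Pool.Agent.Lib.MP_6cd19d_an.ND

/-- exponential growth in the second variable, locally uniform in the first one -/
private def EG (F : ℝ → ℝ → ℝ) : Prop :=
  ∀ R : ℝ, ∃ C : ℝ, 0 ≤ C ∧ ∀ r g, |r| ≤ R → |F r g| ≤ C * Real.exp (C * |g|)

private lemma eg_exp_ge (C g : ℝ) (hC : 0 ≤ C) : 1 ≤ Real.exp (C * |g|) :=
  Real.one_le_exp (mul_nonneg hC (abs_nonneg g))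

private lemma eg_exp_mono {C D : ℝ} (g : ℝ) (h : C ≤ D) : Real.exp (C * |g|) ≤ Real.exp (D * |g|) :=
  Real.exp_le_exp.2 (mul_le_mul_of_nonneg_right h (abs_nonneg g))

private lemma EG.mono {F G : ℝ → ℝ → ℝ} (hG : EG G) (h : ∀ r g, |F r g| ≤ |G r g|) : EG F := by
  intro R
  obtain ⟨C, hC, hb⟩ := hG R
  exact ⟨C, hC, fun r g hr => (h r g).trans (hb r g hr)⟩

private lemma EG.const (c : ℝ) : EG (fun _ _ => c) := by
  intro R
  refine ⟨|c|, abs_nonneg c, fun r g _ => ?_⟩
  have := eg_exp_ge |c| g (abs_nonneg c)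
  nlinarith [abs_nonneg c]

private lemma EG.snd : EG (fun _ g => g) := by
  intro R
  refine ⟨1, zero_le_one, fun r g _ => ?_⟩
  have := Real.add_one_le_exp |g|
  rw [one_mul, one_mul]
  linarith

private lemma EG.fst : EG (fun r _ => r) := by
  intro R
  refine ⟨|R|, abs_nonneg R, fun r g hr => ?_⟩
  have := eg_exp_ge |R| g (abs_nonneg R)
  have h2 : |r| ≤ |R| := hr.trans (le_abs_self R)
  nlinarith [abs_nonneg R]

private lemma EG.add {F G : ℝ → ℝ → ℝ} (hF : EG F) (hG : EG G) : EG (fun r g => F r g + G r g) := by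
  intro R
  obtain ⟨C, hC, hb⟩ := hF R
  obtain ⟨D, hD, hd⟩ := hG R
  refine ⟨C + D, add_nonneg hC hD, fun r g hr => ?_⟩
  calc |F r g + G r g| ≤ |F r g| + |G r g| := abs_add_le _ _
    _ ≤ C * Real.exp (C * |g|) + D * Real.exp (D * |g|) := add_le_add (hb r g hr) (hd r g hr)
    _ ≤ C * Real.exp ((C + D) * |g|) + D * Real.exp ((C + D) * |g|) := by
        apply add_le_add
        · exact mul_le_mul_of_nonneg_left (eg_exp_mono g (by linarith)) hC
        · exact mul_le_mul_of_nonneg_left (eg_exp_mono g (by linarith)) hD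
    _ = (C + D) * Real.exp ((C + D) * |g|) := by ring

private lemma EG.mul {F G : ℝ → ℝ → ℝ} (hF : EG F) (hG : EG G) : EG (fun r g => F r g * G r g) := by
  intro R
  obtain ⟨C, hC, hb⟩ := hF R
  obtain ⟨D, hD, hd⟩ := hG R
  have hCD : 0 ≤ C * D := mul_nonneg hC hD
  refine ⟨C * D + C + D, by linarith, fun r g hr => ?_⟩
  calc |F r g * G r g| = |F r g| * |G r g| := abs_mul _ _
    _ ≤ (C * Real.exp (C * |g|)) * (D * Real.exp (D * |g|)) :=
        mul_le_mul (hb r g hr) (hd r g hr) (abs_nonneg _) (by positivity)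
    _ = (C * D) * Real.exp ((C + D) * |g|) := by
        rw [add_mul, Real.exp_add]
        ring
    _ ≤ (C * D + C + D) * Real.exp ((C * D + C + D) * |g|) :=
        mul_le_mul (by linarith) (eg_exp_mono g (by linarith)) (Real.exp_pos _).le (by linarith)

private lemma EG.neg {F : ℝ → ℝ → ℝ} (hF : EG F) : EG (fun r g => -F r g) :=
  hF.mono (fun r g => by rw [abs_neg])

private lemma EG.sub {F G : ℝ → ℝ → ℝ} (hF : EG F) (hG : EG G) : EG (fun r g => F r g - G r g) := by
  have := hF.add hG.neg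
  exact this.mono (fun r g => by rw [sub_eq_add_neg])

private lemma EG.sum {κ : Type*} (s : Finset κ) {F : κ → ℝ → ℝ → ℝ} (hF : ∀ i, EG (F i)) :
    EG (fun r g => ∑ i ∈ s, F i r g) := by
  classical
  induction s using Finset.induction_on with
  | empty => simpa using EG.const 0
  | insert a s ha ih =>
    have h := (hF a).add ih
    refine h.mono (fun r g => ?_)
    rw [Finset.sum_insert ha]

private lemma EG.tlE (s : ℝ) : EG (fun r g => tl s r g) := by
  intro R
  refine ⟨1 + |R| * |s|, by positivity, fun r g hr => ?_⟩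
  have h2 : |r| ≤ |R| := hr.trans (le_abs_self R)
  unfold HP.tl
  rw [abs_of_pos (Real.exp_pos _)]
  have h3 : r * s * g ≤ |R| * |s| * |g| := by
    calc r * s * g ≤ |r * s * g| := le_abs_self _
      _ = |r| * |s| * |g| := by rw [abs_mul, abs_mul]
      _ ≤ |R| * |s| * |g| := by gcongr
  have h4 : 0 ≤ r ^ 2 * s ^ 2 / 2 := by positivity
  calc Real.exp (r * s * g - r ^ 2 * s ^ 2 / 2) ≤ Real.exp ((1 + |R| * |s|) * |g|) := by
        apply Real.exp_le_exp.2
        nlinarith [abs_nonneg g]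
    _ ≤ (1 + |R| * |s|) * Real.exp ((1 + |R| * |s|) * |g|) := by
        have h5 : 0 ≤ |R| * |s| := by positivity
        nlinarith [Real.exp_pos ((1 + |R| * |s|) * |g|)]

private lemma EG.tlI (s : ℝ) : EG (fun r g => (tl s r g)⁻¹) := by
  intro R
  set E : ℝ := Real.exp (|R| ^ 2 * s ^ 2) with hE
  refine ⟨E + |R| * |s|, by positivity, fun r g hr => ?_⟩
  have h2 : |r| ≤ |R| := hr.trans (le_abs_self R)
  unfold HP.tl
  show |(Real.exp (r * s * g - r ^ 2 * s ^ 2 / 2))⁻¹| ≤ _
  rw [← Real.exp_neg, abs_of_pos (Real.exp_pos _)]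
  have h3 : -(r * s * g) ≤ |R| * |s| * |g| := by
    calc -(r * s * g) ≤ |r * s * g| := neg_le_abs _
      _ = |r| * |s| * |g| := by rw [abs_mul, abs_mul]
      _ ≤ |R| * |s| * |g| := by gcongr
  have h4 : r ^ 2 * s ^ 2 / 2 ≤ |R| ^ 2 * s ^ 2 := by
    have h6 : r ^ 2 ≤ |R| ^ 2 := by
      rw [← sq_abs r]
      exact pow_le_pow_left₀ (abs_nonneg r) h2 2
    have h7 : r ^ 2 * s ^ 2 ≤ |R| ^ 2 * s ^ 2 := mul_le_mul_of_nonneg_right h6 (sq_nonneg s)
    have h8 : 0 ≤ r ^ 2 * s ^ 2 := by positivity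
    linarith
  have hE1 : 1 ≤ E := Real.one_le_exp (by positivity)
  calc Real.exp (-(r * s * g - r ^ 2 * s ^ 2 / 2))
      ≤ Real.exp (|R| ^ 2 * s ^ 2 + (|R| * |s|) * |g|) := by
        apply Real.exp_le_exp.2
        linarith
    _ = E * Real.exp ((|R| * |s|) * |g|) := by rw [Real.exp_add]
    _ ≤ (E + |R| * |s|) * Real.exp ((E + |R| * |s|) * |g|) := by
        apply mul_le_mul
        · have : 0 ≤ |R| * |s| := by positivity
          linarith
        · exact eg_exp_mono g (by linarith)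
        · exact (Real.exp_pos _).le
        · positivity

private lemma EG.log {U : ℝ → ℝ → ℝ} (hU : EG U) (hI : EG (fun r g => (U r g)⁻¹))
    (hp : ∀ r g, 0 < U r g) : EG (fun r g => Real.log (U r g)) := by
  refine (hU.add hI).mono (fun r g => ?_)
  have h0 := hp r g
  have h1 : 0 < (U r g)⁻¹ := inv_pos.2 h0
  rw [abs_of_pos (add_pos h0 h1), abs_le]
  constructor
  · have h2 := Real.log_le_sub_one_of_pos h1
    rw [Real.log_inv] at h2
    linarith
  · have h2 := Real.log_le_sub_one_of_pos h0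
    linarith

private lemma integrable_exp_abs (C : ℝ) : Integrable (fun g => Real.exp (C * |g|)) ga :=
  integrable_exp_mul_abs (X := fun g => g) (integrable_exp_mul_gaussianReal C)
    (integrable_exp_mul_gaussianReal (-C))

private lemma EG.integrable {F : ℝ → ℝ → ℝ} (hF : EG F) (r : ℝ) (hm : Measurable (F r)) :
    Integrable (F r) ga := by
  obtain ⟨C, hC, hb⟩ := hF |r|
  refine ((integrable_exp_abs C).const_mul C).mono' hm.aestronglyMeasurable ?_
  exact ae_of_all _ (fun g => hb r g le_rfl)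

private lemma integrable_smul_pdf {f : ℝ → ℝ} (hf : Integrable f ga) :
    Integrable (fun g => gaussianPDFReal 0 1 g * f g) volume := by
  have h : ga = volume.withDensity (gaussianPDF 0 1) := gaussianReal_of_var_ne_zero 0 one_ne_zero
  rw [h, integrable_withDensity_iff_integrable_smul' (measurable_gaussianPDF 0 1)
    (ae_of_all _ fun _ => gaussianPDF_lt_top)] at hf
  simpa [toReal_gaussianPDF, smul_eq_mul] using hf

private lemma integral_pdf (f : ℝ → ℝ) : ∫ g, f g ∂ga = ∫ g, gaussianPDFReal 0 1 g * f g := by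
  rw [integral_gaussianReal_eq_integral_smul one_ne_zero]
  rfl

private lemma hasDerivAt_pdf (g : ℝ) :
    HasDerivAt (gaussianPDFReal 0 1) (-(g * gaussianPDFReal 0 1 g)) g := by
  have h1 : HasDerivAt (fun x : ℝ => -(x - 0) ^ 2 / (2 * ((1 : ℝ≥0) : ℝ))) (-g) g := by
    have h2 : HasDerivAt (fun x : ℝ => -(x - 0) ^ 2 / (2 * ((1 : ℝ≥0) : ℝ)))
        (-(((2 : ℕ) : ℝ) * (g - 0) ^ (2 - 1) * 1) / (2 * ((1 : ℝ≥0) : ℝ))) g :=
      ((((hasDerivAt_id g).sub_const 0).pow 2).neg).div_const _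
    convert h2 using 1
    simp only [NNReal.coe_one, Nat.cast_ofNat]
    ring
  have h3 := (h1.exp).const_mul (√(2 * Real.pi * ((1 : ℝ≥0) : ℝ)))⁻¹
  have h4 : (fun x : ℝ => (√(2 * Real.pi * ((1 : ℝ≥0) : ℝ)))⁻¹ *
      Real.exp (-(x - 0) ^ 2 / (2 * ((1 : ℝ≥0) : ℝ)))) = gaussianPDFReal 0 1 := by
    rw [gaussianPDFReal_def]
  rw [← h4]
  refine h3.congr_deriv ?_
  ring

/-- Gaussian integration by parts (density `exp(-g^2/2)/sqrt(2 pi)`). -/
theorem gauss_ibp {f f' : ℝ → ℝ} (hf : ∀ g, HasDerivAt f (f' g) g) {C : ℝ}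
    (h0 : ∀ g, |f g| ≤ C * Real.exp (C * |g|)) (h1 : ∀ g, |f' g| ≤ C * Real.exp (C * |g|))
    (hm : Measurable f') :
    ∫ g, g * f g ∂ga = ∫ g, f' g ∂ga := by
  have hcont : Continuous f := continuous_iff_continuousAt.2 fun g => (hf g).continuousAt
  have hC : 0 ≤ C := by
    have h := (abs_nonneg _).trans (h0 0)
    have : Real.exp (C * |0|) = 1 := by simp
    rw [this] at h
    linarith
  have e0 : EG (fun _ g => f g) := fun _ => ⟨C, hC, fun _ g _ => h0 g⟩
  have e1 : EG (fun _ g => f' g) := fun _ => ⟨C, hC, fun _ g _ => h1 g⟩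
  have i0 : Integrable (fun g => gaussianPDFReal 0 1 g * f g) :=
    integrable_smul_pdf (e0.integrable 0 hcont.measurable)
  have i1 : Integrable (fun g => gaussianPDFReal 0 1 g * f' g) :=
    integrable_smul_pdf (e1.integrable 0 hm)
  have i2 : Integrable (fun g => gaussianPDFReal 0 1 g * (g * f g)) :=
    integrable_smul_pdf ((EG.snd.mul e0).integrable 0 (measurable_id.mul hcont.measurable))
  have key := integral_mul_deriv_eq_deriv_mul_of_integrable (u := f) (u' := f')
    (v := gaussianPDFReal 0 1) (v' := fun g => -(g * gaussianPDFReal 0 1 g))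
    (fun x _ => hf x) (fun x _ => hasDerivAt_pdf x)
    (by
      refine (i2.neg).congr (ae_of_all _ fun g => ?_)
      simp only [Pi.neg_apply, Pi.mul_apply]
      ring)
    (by
      refine i1.congr (ae_of_all _ fun g => ?_)
      simp only [Pi.mul_apply]
      ring)
    (by
      refine i0.congr (ae_of_all _ fun g => ?_)
      simp only [Pi.mul_apply]
      ring)
  rw [integral_pdf, integral_pdf]
  have k1 : ∫ g, gaussianPDFReal 0 1 g * (g * f g) = -∫ g, f g * -(g * gaussianPDFReal 0 1 g) := by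
    rw [← integral_neg]
    congr 1
    funext g
    ring
  rw [k1, key, neg_neg]
  congr 1
  funext g
  ring

theorem integral_tl (s r : ℝ) : ∫ g, tl s r g ∂ga = 1 := by
  have h1 : mgf (fun x => x) ga (r * s) = Real.exp (0 * (r * s) + ((1 : ℝ≥0) : ℝ) * (r * s) ^ 2 / 2) := by
    rw [mgf_fun_id_gaussianReal]
  unfold mgf at h1
  have h2 : ∀ g, tl s r g = Real.exp (-(r ^ 2 * s ^ 2 / 2)) * Real.exp (r * s * g) := by
    intro g
    unfold tl
    rw [← Real.exp_add]
    congr 1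
    ring
  simp_rw [h2]
  rw [integral_const_mul, h1, ← Real.exp_add, ← Real.exp_zero]
  congr 1
  push_cast
  ring

private lemma continuous_tl (s r : ℝ) : Continuous (fun g => tl s r g) := by
  unfold tl
  fun_prop

theorem integrable_tl (s r : ℝ) : Integrable (tl s r) ga :=
  (EG.tlE s).integrable r (continuous_tl s r).measurable

variable {ι : Type*} [Fintype ι] [Nonempty ι]

private lemma tl_pos (s r g : ℝ) : 0 < tl s r g := Real.exp_pos _

omit [Nonempty ι] in
private lemma eg_U (p s : ι → ℝ) : EG (fun r g => ∑ i, p i * tl (s i) r g) :=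
  EG.sum Finset.univ (fun i => (EG.const (p i)).mul (EG.tlE (s i)))

private lemma U_pos {p : ι → ℝ} (hp : ∀ i, 0 < p i) (s : ι → ℝ) (r g : ℝ) :
    0 < ∑ i, p i * tl (s i) r g :=
  Finset.sum_pos (fun i _ => mul_pos (hp i) (tl_pos _ _ _)) Finset.univ_nonempty

omit [Fintype ι] [Nonempty ι] in
private lemma eg_inv {p : ι → ℝ} (s : ι → ℝ) (i : ι) :
    EG (fun r g => (p i * tl (s i) r g)⁻¹) :=
  ((EG.const (p i)⁻¹).mul (EG.tlI (s i))).mono (fun r g => by rw [mul_inv])

private lemma eg_Uinv {p : ι → ℝ} (hp : ∀ i, 0 < p i) (s : ι → ℝ) :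
    EG (fun r g => (∑ i, p i * tl (s i) r g)⁻¹) := by
  obtain ⟨i0⟩ := ‹Nonempty ι›
  have : Nonempty ι := ⟨i0⟩
  refine (eg_inv s i0 (p := p)).mono (fun r g => ?_)
  have h1 := U_pos hp s r g
  have h2 : 0 < p i0 * tl (s i0) r g := mul_pos (hp i0) (tl_pos _ _ _)
  rw [abs_of_pos (inv_pos.2 h1), abs_of_pos (inv_pos.2 h2)]
  apply inv_anti₀ h2
  exact Finset.single_le_sum (f := fun i => p i * tl (s i) r g)
    (fun i _ => (mul_pos (hp i) (tl_pos _ _ _)).le) (Finset.mem_univ i0)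

private lemma eg_logU {p : ι → ℝ} (hp : ∀ i, 0 < p i) (s : ι → ℝ) :
    EG (fun r g => Real.log (∑ i, p i * tl (s i) r g)) :=
  (eg_U p s).log (eg_Uinv hp s) (U_pos hp s)

omit [Fintype ι] [Nonempty ι] in
private lemma eg_logi {p : ι → ℝ} (hp : ∀ i, 0 < p i) (s : ι → ℝ) (i : ι) :
    EG (fun r g => Real.log (p i * tl (s i) r g)) :=
  ((EG.const (p i)).mul (EG.tlE (s i))).log (eg_inv s i) (fun _ _ => mul_pos (hp i) (tl_pos _ _ _))

private lemma eg_LL {p : ι → ℝ} (hp : ∀ i, 0 < p i) (s : ι → ℝ) :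
    EG (fun r g => LL (fun i => p i * tl (s i) r g)) :=
  (EG.sum Finset.univ (fun i => ((EG.const (p i)).mul (EG.tlE (s i))).mul (eg_logi hp s i))).sub
    ((eg_U p s).mul (eg_logU hp s))

omit [Fintype ι] [Nonempty ι] in
private lemma cont_a (p s : ι → ℝ) (r : ℝ) (i : ι) : Continuous (fun g => p i * tl (s i) r g) :=
  continuous_const.mul (continuous_tl (s i) r)

omit [Nonempty ι] in
private lemma cont_U (p s : ι → ℝ) (r : ℝ) : Continuous (fun g => ∑ i, p i * tl (s i) r g) :=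
  continuous_finsetSum _ (fun i _ => cont_a p s r i)

private lemma cont_LL {p : ι → ℝ} (hp : ∀ i, 0 < p i) (s : ι → ℝ) (r : ℝ) :
    Continuous (fun g => LL (fun i => p i * tl (s i) r g)) := by
  unfold LL
  refine (continuous_finsetSum _ (fun i _ => (cont_a p s r i).mul
    ((cont_a p s r i).log (fun g => (mul_pos (hp i) (tl_pos _ _ _)).ne')))).sub
    ((cont_U p s r).mul ((cont_U p s r).log (fun g => (U_pos hp s r g).ne')))

theorem integrable_LL {p : ι → ℝ} (hp : ∀ i, 0 < p i) (s : ι → ℝ) (r : ℝ) :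
    Integrable (fun g => LL (fun i => p i * tl (s i) r g)) ga :=
  (eg_LL hp s).integrable r (cont_LL hp s r).measurable

omit [Nonempty ι] in
private lemma eg_V1 (p s : ι → ℝ) : EG (fun r g => ∑ i, p i * tl (s i) r g * s i) :=
  EG.sum Finset.univ (fun i => ((EG.const (p i)).mul (EG.tlE (s i))).mul (EG.const (s i)))

omit [Nonempty ι] in
private lemma cont_V1 (p s : ι → ℝ) (r : ℝ) : Continuous (fun g => ∑ i, p i * tl (s i) r g * s i) :=
  continuous_finsetSum _ (fun i _ => (cont_a p s r i).mul continuous_const)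

private lemma eg_VV {p : ι → ℝ} (hp : ∀ i, 0 < p i) (s : ι → ℝ) :
    EG (fun r g => VV (fun i => p i * tl (s i) r g) s) := by
  refine (((EG.sum Finset.univ (fun i => ((EG.const (p i)).mul (EG.tlE (s i))).mul
    (EG.const (s i ^ 2)))).sub (((eg_V1 p s).mul (eg_V1 p s)).mul (eg_Uinv hp s)))).mono
    (fun r g => ?_)
  apply le_of_eq
  congr 1
  unfold VV
  rw [div_eq_mul_inv, pow_two (∑ i, p i * tl (s i) r g * s i)]

private lemma cont_VV {p : ι → ℝ} (hp : ∀ i, 0 < p i) (s : ι → ℝ) (r : ℝ) :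
    Continuous (fun g => VV (fun i => p i * tl (s i) r g) s) := by
  unfold VV
  exact (continuous_finsetSum _ (fun i _ => (cont_a p s r i).mul continuous_const)).sub
    (((cont_V1 p s r).pow 2).div (cont_U p s r) (fun g => (U_pos hp s r g).ne'))

theorem integrable_VV {p : ι → ℝ} (hp : ∀ i, 0 < p i) (s : ι → ℝ) (r : ℝ) :
    Integrable (fun g => VV (fun i => p i * tl (s i) r g) s) ga :=
  (eg_VV hp s).integrable r (cont_VV hp s r).measurable

/-- derivative of `tl` in `r` -/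
private lemma hasDerivAt_tl_r (s r g : ℝ) :
    HasDerivAt (fun r => tl s r g) (s * (g - r * s) * tl s r g) r := by
  unfold tl
  have h1 : HasDerivAt (fun r : ℝ => r * s * g - r ^ 2 * s ^ 2 / 2) (s * (g - r * s)) r := by
    have h2 : HasDerivAt (fun r : ℝ => r * s * g - r ^ 2 * s ^ 2 / 2)
        (1 * s * g - ((2 : ℕ) : ℝ) * r ^ (2 - 1) * s ^ 2 / 2) r :=
      (((hasDerivAt_id r).mul_const s).mul_const g).sub
        (((hasDerivAt_pow 2 r).mul_const (s ^ 2)).div_const 2)
    refine h2.congr_deriv ?_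
    simp only [Nat.cast_ofNat]
    ring
  refine h1.exp.congr_deriv ?_
  ring

/-- derivative of `tl` in `g` -/
private lemma hasDerivAt_tl_g (s r g : ℝ) :
    HasDerivAt (fun g => tl s r g) (r * s * tl s r g) g := by
  unfold tl
  have h1 : HasDerivAt (fun g : ℝ => r * s * g - r ^ 2 * s ^ 2 / 2) (r * s) g := by
    have h2 : HasDerivAt (fun g : ℝ => r * s * g - r ^ 2 * s ^ 2 / 2) (r * s * 1) g :=
      ((hasDerivAt_id g).const_mul (r * s)).sub_const _
    exact h2.congr_deriv (mul_one _)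
  refine h1.exp.congr_deriv ?_
  ring

/-- the function to which integration by parts is applied -/
private noncomputable def fi (p s : ι → ℝ) (i : ι) (r g : ℝ) : ℝ :=
  tl (s i) r g * (Real.log (p i * tl (s i) r g) - Real.log (∑ j, p j * tl (s j) r g))

private noncomputable def fi' (p s : ι → ℝ) (i : ι) (r g : ℝ) : ℝ :=
  r * s i * fi p s i r g +
    r * (tl (s i) r g * (s i - (∑ j, p j * tl (s j) r g * s j) / ∑ j, p j * tl (s j) r g))

private lemma hasDerivAt_LLg {p : ι → ℝ} (hp : ∀ i, 0 < p i) (s : ι → ℝ) (r g : ℝ) :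
    HasDerivAt (fun r => LL (fun i => p i * tl (s i) r g))
      (∑ i, p i * s i * ((g - r * s i) * fi p s i r g)) r := by
  unfold LL
  have ha : ∀ i, HasDerivAt (fun r => p i * tl (s i) r g) (p i * (s i * (g - r * s i) * tl (s i) r g)) r :=
    fun i => (hasDerivAt_tl_r (s i) r g).const_mul (p i)
  have hU : HasDerivAt (fun r => ∑ i, p i * tl (s i) r g)
      (∑ i, p i * (s i * (g - r * s i) * tl (s i) r g)) r := HasDerivAt.fun_sum (fun i _ => ha i)
  have h1 : HasDerivAt (fun r => ∑ i, p i * tl (s i) r g * Real.log (p i * tl (s i) r g))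
      (∑ i, (Real.log (p i * tl (s i) r g) + 1) * (p i * (s i * (g - r * s i) * tl (s i) r g))) r := by
    refine HasDerivAt.fun_sum (fun i _ => ?_)
    exact (Real.hasDerivAt_mul_log (mul_pos (hp i) (tl_pos (s i) r g)).ne').comp r (ha i)
  have h2 : HasDerivAt (fun r => (∑ i, p i * tl (s i) r g) * Real.log (∑ i, p i * tl (s i) r g))
      ((Real.log (∑ i, p i * tl (s i) r g) + 1) * ∑ i, p i * (s i * (g - r * s i) * tl (s i) r g)) r :=
    (Real.hasDerivAt_mul_log (U_pos hp s r g).ne').comp (h₂ := fun x : ℝ => x * Real.log x) r hU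
  refine (h1.sub h2).congr_deriv ?_
  rw [Finset.mul_sum, ← Finset.sum_sub_distrib]
  refine Finset.sum_congr rfl (fun i _ => ?_)
  unfold fi
  ring

private lemma hasDerivAt_fi {p : ι → ℝ} (hp : ∀ i, 0 < p i) (s : ι → ℝ) (i : ι) (r g : ℝ) :
    HasDerivAt (fun g => fi p s i r g) (fi' p s i r g) g := by
  have ha : ∀ i, HasDerivAt (fun g => p i * tl (s i) r g) (p i * (r * s i * tl (s i) r g)) g :=
    fun i => (hasDerivAt_tl_g (s i) r g).const_mul (p i)
  have hU : HasDerivAt (fun g => ∑ i, p i * tl (s i) r g) (∑ i, p i * (r * s i * tl (s i) r g)) g :=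
    HasDerivAt.fun_sum (fun i _ => ha i)
  have hp1 : 0 < p i * tl (s i) r g := mul_pos (hp i) (tl_pos _ _ _)
  have hp2 := U_pos hp s r g
  have h1 := (ha i).log hp1.ne'
  have h2 := hU.log hp2.ne'
  have h3 := (hasDerivAt_tl_g (s i) r g).mul (h1.sub h2)
  unfold fi
  refine h3.congr_deriv ?_
  unfold fi' fi
  have h4 : p i * (r * s i * tl (s i) r g) / (p i * tl (s i) r g) = r * s i := by
    rw [div_eq_iff hp1.ne']
    ring
  have h5 : (∑ i, p i * (r * s i * tl (s i) r g)) = r * ∑ j, p j * tl (s j) r g * s j := by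
    rw [Finset.mul_sum]
    refine Finset.sum_congr rfl (fun j _ => ?_)
    ring
  rw [h4, h5]
  simp only [Pi.sub_apply]
  ring

private lemma eg_fi {p : ι → ℝ} (hp : ∀ i, 0 < p i) (s : ι → ℝ) (i : ι) : EG (fun r g => fi p s i r g) :=
  (EG.tlE (s i)).mul ((eg_logi hp s i).sub (eg_logU hp s))

private lemma eg_fi' {p : ι → ℝ} (hp : ∀ i, 0 < p i) (s : ι → ℝ) (i : ι) :
    EG (fun r g => fi' p s i r g) := by
  refine (((EG.fst.mul (EG.const (s i))).mul (eg_fi hp s i)).add (EG.fst.mul ((EG.tlE (s i)).mul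
    ((EG.const (s i)).sub ((eg_V1 p s).mul (eg_Uinv hp s)))))).mono (fun r g => ?_)
  apply le_of_eq
  congr 1

private lemma cont_fi {p : ι → ℝ} (hp : ∀ i, 0 < p i) (s : ι → ℝ) (i : ι) (r : ℝ) :
    Continuous (fun g => fi p s i r g) := by
  unfold fi
  exact (continuous_tl (s i) r).mul
    (((cont_a p s r i).log (fun g => (mul_pos (hp i) (tl_pos _ _ _)).ne')).sub
      ((cont_U p s r).log (fun g => (U_pos hp s r g).ne')))

private lemma cont_rest {p : ι → ℝ} (hp : ∀ i, 0 < p i) (s : ι → ℝ) (i : ι) (r : ℝ) :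
    Continuous (fun g => tl (s i) r g * (s i - (∑ j, p j * tl (s j) r g * s j) /
      ∑ j, p j * tl (s j) r g)) :=
  (continuous_tl (s i) r).mul (continuous_const.sub
    ((cont_V1 p s r).div (cont_U p s r) (fun g => (U_pos hp s r g).ne')))

private lemma cont_fi' {p : ι → ℝ} (hp : ∀ i, 0 < p i) (s : ι → ℝ) (i : ι) (r : ℝ) :
    Continuous (fun g => fi' p s i r g) := by
  unfold fi'
  exact (continuous_const.mul (cont_fi hp s i r)).add (continuous_const.mul (cont_rest hp s i r))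

private lemma int_fi {p : ι → ℝ} (hp : ∀ i, 0 < p i) (s : ι → ℝ) (i : ι) (r : ℝ) :
    ∫ g, (g - r * s i) * fi p s i r g ∂ga =
      ∫ g, r * (tl (s i) r g * (s i - (∑ j, p j * tl (s j) r g * s j) / ∑ j, p j * tl (s j) r g)) ∂ga := by
  obtain ⟨C, hC, hb⟩ := eg_fi hp s i |r|
  obtain ⟨D, hD, hd⟩ := eg_fi' hp s i |r|
  have key := gauss_ibp (f := fun g => fi p s i r g) (f' := fun g => fi' p s i r g)
    (fun g => hasDerivAt_fi hp s i r g) (C := C + D)
    (fun g => (hb r g le_rfl).trans (mul_le_mul (by linarith) (eg_exp_mono g (by linarith))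
      (Real.exp_pos _).le (by linarith)))
    (fun g => (hd r g le_rfl).trans (mul_le_mul (by linarith) (eg_exp_mono g (by linarith))
      (Real.exp_pos _).le (by linarith)))
    (cont_fi' hp s i r).measurable
  have i1 : Integrable (fun g => g * fi p s i r g) ga :=
    (EG.snd.mul (eg_fi hp s i)).integrable r (measurable_id.mul (cont_fi hp s i r).measurable)
  have i2 : Integrable (fun g => r * s i * fi p s i r g) ga :=
    ((eg_fi hp s i).integrable r (cont_fi hp s i r).measurable).const_mul _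
  have i3 : Integrable (fun g => fi' p s i r g) ga :=
    (eg_fi' hp s i).integrable r (cont_fi' hp s i r).measurable
  have e1 : ∀ g, (g - r * s i) * fi p s i r g = g * fi p s i r g - r * s i * fi p s i r g := by
    intro g; ring
  have e2 : ∀ g, r * (tl (s i) r g * (s i - (∑ j, p j * tl (s j) r g * s j) /
      ∑ j, p j * tl (s j) r g)) = fi' p s i r g - r * s i * fi p s i r g := by
    intro g
    unfold fi'
    ring
  simp_rw [e1, e2]
  rw [integral_sub i1 i2, integral_sub i3 i2, key]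

theorem hasDerivAt_LL {p : ι → ℝ} (hp : ∀ i, 0 < p i) (s : ι → ℝ) (r : ℝ) :
    HasDerivAt (fun r => ∫ g, LL (fun i => p i * tl (s i) r g) ∂ga)
      (r * ∫ g, VV (fun i => p i * tl (s i) r g) s ∂ga) r := by
  have eD : EG (fun r g => ∑ i, p i * s i * ((g - r * s i) * fi p s i r g)) :=
    EG.sum Finset.univ (fun i => (EG.const (p i * s i)).mul
      ((EG.snd.sub (EG.fst.mul (EG.const (s i)))).mul (eg_fi hp s i)))
  have cD : Continuous (fun g => ∑ i, p i * s i * ((g - r * s i) * fi p s i r g)) :=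
    continuous_finsetSum _ (fun i _ => continuous_const.mul
      ((continuous_id.sub continuous_const).mul (cont_fi hp s i r)))
  obtain ⟨C, hC, hb⟩ := eD (|r| + 1)
  have main := hasDerivAt_integral_of_dominated_loc_of_deriv_le (μ := ga) (𝕜 := ℝ) (x₀ := r)
    (s := Metric.ball r 1) (F := fun r g => LL (fun i => p i * tl (s i) r g))
    (F' := fun r g => ∑ i, p i * s i * ((g - r * s i) * fi p s i r g))
    (bound := fun g => C * Real.exp (C * |g|)) (Metric.ball_mem_nhds r one_pos)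
    (Filter.Eventually.of_forall fun x => (cont_LL hp s x).aestronglyMeasurable)
    (integrable_LL hp s r) cD.aestronglyMeasurable
    (ae_of_all _ fun g x hx => by
      have h1 : |x| ≤ |r| + 1 := by
        have h2 : |x - r| < 1 := by
          have := Metric.mem_ball.1 hx
          rwa [Real.dist_eq] at this
        have h3 := abs_sub_abs_le_abs_sub x r
        linarith
      exact hb x g h1)
    ((integrable_exp_abs C).const_mul C)
    (ae_of_all _ fun g x _ => hasDerivAt_LLg hp s x g)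
  refine main.2.congr_deriv ?_
  have hI : ∀ i, Integrable (fun g => (g - r * s i) * fi p s i r g) ga := fun i =>
    ((EG.snd.sub (EG.fst.mul (EG.const (s i)))).mul (eg_fi hp s i)).integrable r
      ((measurable_id.sub measurable_const).mul (cont_fi hp s i r).measurable)
  have eR : ∀ i, EG (fun r g => tl (s i) r g * (s i - (∑ j, p j * tl (s j) r g * s j) /
      ∑ j, p j * tl (s j) r g)) := fun i =>
    ((EG.tlE (s i)).mul ((EG.const (s i)).sub ((eg_V1 p s).mul (eg_Uinv hp s)))).mono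
      (fun r g => by apply le_of_eq; congr 1)
  have hR : ∀ i, Integrable (fun g => tl (s i) r g * (s i - (∑ j, p j * tl (s j) r g * s j) /
      ∑ j, p j * tl (s j) r g)) ga := fun i => (eR i).integrable r (cont_rest hp s i r).measurable
  rw [integral_finsetSum _ (fun i _ => (hI i).const_mul _)]
  simp_rw [integral_const_mul]
  simp_rw [int_fi hp s _ r, integral_const_mul]
  have e3 : ∀ g, VV (fun i => p i * tl (s i) r g) s = ∑ i, p i * s i *
      (tl (s i) r g * (s i - (∑ j, p j * tl (s j) r g * s j) / ∑ j, p j * tl (s j) r g)) := by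
    intro g
    unfold VV
    have h6 : ∀ i, p i * s i * (tl (s i) r g * (s i - (∑ j, p j * tl (s j) r g * s j) /
        ∑ j, p j * tl (s j) r g)) = p i * tl (s i) r g * s i ^ 2 -
        (p i * tl (s i) r g * s i) * ((∑ j, p j * tl (s j) r g * s j) / ∑ j, p j * tl (s j) r g) := by
      intro i; ring
    simp_rw [h6]
    rw [Finset.sum_sub_distrib, ← Finset.sum_mul]
    ring
  simp_rw [e3]
  rw [integral_finsetSum _ (fun i _ => (hR i).const_mul _), Finset.mul_sum]
  refine Finset.sum_congr rfl (fun i _ => ?_)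
  rw [integral_const_mul]
  ring

end Pool.Agent.Lib.MP_6cd19d_an.HP
end

section

/-!
# The local inequality

`A` is a symmetric matrix with positive entries and nonnegative quadratic form, `p_ij = F_i F_j A_ij exp(-σ(u_i-u_j)^2)`.

`psd_lemma`: `exp(-σ(a-b)^2) ((a-θ(a+b)/2)(b-θ(a+b)/2) + θ^2/(8σ)) = sqrt(4σ/π) ∫ f_z(a) f_z(b) dz` with
`f_z(a) = exp(-2σ(a-z)^2)(a - θ z)`, because `(a-z)^2+(b-z)^2 = 2(z-m)^2 + (a-b)^2/2`, `m = (a+b)/2`, and for `z` Gaussian
with mean `m` and variance `1/(8σ)` the mean of `(a-θz)(b-θz)` is `ab - 2θm^2 + θ^2(m^2+1/(8σ))`.  Insert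
and use the quadratic form of `A` at the vector `F_i f_z(u_i)`, for each `z`.

`local_ineq`: both sides do not change if all `u_i` are shifted by a constant (the expressions in `S_ij = u_i + u_j` are
variances), so we may assume `∑ p_ij u_i = 0`.  `N = ∑ p`, `P_i = ∑_j p_ij`, `V = ∑ P_i u_i^2 / N`, `C = ∑ p_ij u_i u_j/N`,
`w_i = ∑_j p_ij u_j / P_i`, `W = ∑ P_i w_i^2/N`.  The left side is
`2 (∑ P_i u_i^2 - ∑ P_i w_i^2) - (2 N V + 2 N C) = -2 N (C + W)` (for fixed `i`, `S_ij = u_i + u_j`, only `u_j` varies).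
`psd_lemma` for all `θ`: `0 ≤ C - 2θM + θ^2 (M + s)`, `M = (V+C)/2`, `s = 1/(8σ)`; hence `C ≥ 0` and
`M^2 ≤ C (M+s)`, that is `(V+C)(V-C) ≤ 4 s C`.  Cauchy-Schwarz: `C^2 ≤ V W` (`C = ∑ P_i u_i w_i/N`).
`β = 2σ ∑ p_ij (u_i-u_j)^2/N = 4σ(V-C) = (V-C)/(2s) ≥ 0`.  If `V = 0` all is `0`.  Otherwise `C > 0`
(if `C = 0` then `V^2 ≤ 0`).  With `D = V - C = 2sβ`: `D(2C + D) ≤ 4sC` gives `β(2C+2sβ) ≤ 2C`, i.e. `sβ^2 ≤ C(1-β)`, so
`β < 1` (if `β = 0` clear, otherwise `sβ^2 > 0`) and `C ≥ sβ^2/(1-β)`; the function `C + C^2/(C+2sβ)` increases with `C`, so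
`C + W ≥ C + C^2/V ≥ 2sβ^2/((1-β)(2-β)) = 4 s ch β`: indeed at `C = sβ^2/(1-β)`, `V = C+2sβ = sβ(2-β)/(1-β)`,
`C/V = β/(2-β)`, `C(1+C/V) = sβ^2/(1-β) * 2/(2-β)`.  So the left side is `≤ -2N 4 s ch β = - N ch β/σ`.
-/

set_option autoImplicit false

open MeasureTheory ProbabilityTheory Set Filter Topology
open scoped ENNReal NNReal

namespace Pool.Agent.Lib.MP_6cd19d_an.HP

open Pool.Agent.Lib.MP_6cd19d_an.ND

variable {ι : Type*} [Fintype ι]

private lemma m1 {b : ℝ} (hb : 0 < b) : ∫ x : ℝ, x * Real.exp (-b * x ^ 2) = 0 := by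
  have hd : ∀ x : ℝ, HasDerivAt (fun x : ℝ => Real.exp (-b * x ^ 2))
      (-(2 * b) * (x * Real.exp (-b * x ^ 2))) x := by
    intro x
    have h := ((hasDerivAt_pow 2 x).const_mul (-b)).exp
    convert h using 1
    simp
    ring
  have hi : Integrable (fun x : ℝ => -(2 * b) * (x * Real.exp (-b * x ^ 2))) :=
    (integrable_mul_exp_neg_mul_sq hb).const_mul _
  have h0 := integral_eq_zero_of_hasDerivAt_of_integrable hd hi (integrable_exp_neg_mul_sq hb)
  rw [integral_const_mul] at h0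
  rcases mul_eq_zero.mp h0 with h | h
  · exfalso; linarith
  · exact h

private lemma i2 {b : ℝ} (hb : 0 < b) : Integrable (fun x : ℝ => x ^ 2 * Real.exp (-b * x ^ 2)) := by
  have h := integrable_rpow_mul_exp_neg_mul_sq hb (s := 2) (by norm_num)
  simpa using h

private lemma m2 {b : ℝ} (hb : 0 < b) :
    ∫ x : ℝ, x ^ 2 * Real.exp (-b * x ^ 2) = √(Real.pi / b) / (2 * b) := by
  have hd : ∀ x : ℝ, HasDerivAt (fun x : ℝ => x * Real.exp (-b * x ^ 2))
      (Real.exp (-b * x ^ 2) - (2 * b) * (x ^ 2 * Real.exp (-b * x ^ 2))) x := by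
    intro x
    have h : HasDerivAt (fun y : ℝ => y * Real.exp (-b * y ^ 2)) _ x :=
      (hasDerivAt_id' x).mul (((hasDerivAt_pow 2 x).const_mul (-b)).exp)
    refine h.congr_deriv ?_
    norm_num
    ring
  have hi : Integrable (fun x : ℝ => Real.exp (-b * x ^ 2) -
      (2 * b) * (x ^ 2 * Real.exp (-b * x ^ 2))) :=
    (integrable_exp_neg_mul_sq hb).sub ((i2 hb).const_mul _)
  have h0 := integral_eq_zero_of_hasDerivAt_of_integrable hd hi (integrable_mul_exp_neg_mul_sq hb)
  rw [integral_sub (integrable_exp_neg_mul_sq hb) ((i2 hb).const_mul _), integral_const_mul,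
    integral_gaussian] at h0
  rw [eq_div_iff (by positivity)]
  linarith

private lemma gint {b : ℝ} (hb : 0 < b) (c0 c1 c2 m : ℝ) :
    Integrable (fun z : ℝ => Real.exp (-b * (z - m) ^ 2) * (c0 + c1 * (z - m) + c2 * (z - m) ^ 2)) := by
  have h : Integrable (fun z : ℝ => Real.exp (-b * z ^ 2) * (c0 + c1 * z + c2 * z ^ 2)) := by
    have := (((integrable_exp_neg_mul_sq hb).const_mul c0).add
      ((integrable_mul_exp_neg_mul_sq hb).const_mul c1)).add ((i2 hb).const_mul c2)
    refine this.congr (Filter.Eventually.of_forall fun z => ?_)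
    simp only [Pi.add_apply]
    ring
  exact h.comp_sub_right m

private lemma gval {b : ℝ} (hb : 0 < b) (c0 c1 c2 m : ℝ) :
    ∫ z : ℝ, Real.exp (-b * (z - m) ^ 2) * (c0 + c1 * (z - m) + c2 * (z - m) ^ 2) =
      √(Real.pi / b) * (c0 + c2 / (2 * b)) := by
  rw [integral_sub_right_eq_self
    (fun z : ℝ => Real.exp (-b * z ^ 2) * (c0 + c1 * z + c2 * z ^ 2)) m]
  have e : (fun z : ℝ => Real.exp (-b * z ^ 2) * (c0 + c1 * z + c2 * z ^ 2)) =
      fun z => (c0 * Real.exp (-b * z ^ 2) + c1 * (z * Real.exp (-b * z ^ 2))) +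
        c2 * (z ^ 2 * Real.exp (-b * z ^ 2)) := by
    funext z; ring
  have hadd : Integrable (fun z : ℝ => c0 * Real.exp (-b * z ^ 2) +
      c1 * (z * Real.exp (-b * z ^ 2))) := ((integrable_exp_neg_mul_sq hb).const_mul c0).add
      ((integrable_mul_exp_neg_mul_sq hb).const_mul c1)
  rw [e, integral_add hadd ((i2 hb).const_mul c2),
    integral_add ((integrable_exp_neg_mul_sq hb).const_mul c0)
      ((integrable_mul_exp_neg_mul_sq hb).const_mul c1),
    integral_const_mul, integral_const_mul, integral_const_mul, m1 hb, m2 hb, integral_gaussian]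
  ring

private lemma fz_eq (σ θ a b z : ℝ) :
    (Real.exp (-(2 * σ) * (a - z) ^ 2) * (a - θ * z)) *
      (Real.exp (-(2 * σ) * (b - z) ^ 2) * (b - θ * z)) =
    Real.exp (-σ * (a - b) ^ 2) * (Real.exp (-(4 * σ) * (z - (a + b) / 2) ^ 2) *
      ((a - θ * ((a + b) / 2)) * (b - θ * ((a + b) / 2)) +
        (-θ * ((a - θ * ((a + b) / 2)) + (b - θ * ((a + b) / 2)))) * (z - (a + b) / 2) +
        θ ^ 2 * (z - (a + b) / 2) ^ 2)) := by
  have h1 : Real.exp (-(2 * σ) * (a - z) ^ 2) * Real.exp (-(2 * σ) * (b - z) ^ 2) =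
      Real.exp (-σ * (a - b) ^ 2) * Real.exp (-(4 * σ) * (z - (a + b) / 2) ^ 2) := by
    rw [← Real.exp_add, ← Real.exp_add]
    congr 1
    ring
  calc _ = (Real.exp (-(2 * σ) * (a - z) ^ 2) * Real.exp (-(2 * σ) * (b - z) ^ 2)) *
        ((a - θ * z) * (b - θ * z)) := by ring
    _ = _ := by rw [h1]; ring

theorem psd_lemma {A : ι → ι → ℝ} (hA : ∀ x : ι → ℝ, 0 ≤ ∑ i, ∑ j, A i j * x i * x j) (F u : ι → ℝ)
    {σ : ℝ} (hσ : 0 < σ) (θ : ℝ) :
    0 ≤ ∑ i, ∑ j, F i * F j * A i j * Real.exp (-σ * (u i - u j) ^ 2) *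
      ((u i - θ * ((u i + u j) / 2)) * (u j - θ * ((u i + u j) / 2)) + θ ^ 2 / (8 * σ)) := by
  have hb : 0 < 4 * σ := by linarith
  have hpos : 0 < √(Real.pi / (4 * σ)) := Real.sqrt_pos.mpr (by positivity)
  have key : √(Real.pi / (4 * σ)) * ∑ i, ∑ j, F i * F j * A i j * Real.exp (-σ * (u i - u j) ^ 2) *
      ((u i - θ * ((u i + u j) / 2)) * (u j - θ * ((u i + u j) / 2)) + θ ^ 2 / (8 * σ)) =
      ∫ z : ℝ, ∑ i, ∑ j, A i j * (F i * (Real.exp (-(2 * σ) * (u i - z) ^ 2) * (u i - θ * z))) *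
        (F j * (Real.exp (-(2 * σ) * (u j - z) ^ 2) * (u j - θ * z))) := by
    have hterm : ∀ i j, (fun z : ℝ => A i j *
        (F i * (Real.exp (-(2 * σ) * (u i - z) ^ 2) * (u i - θ * z))) *
        (F j * (Real.exp (-(2 * σ) * (u j - z) ^ 2) * (u j - θ * z)))) =
        fun z => (F i * F j * A i j * Real.exp (-σ * (u i - u j) ^ 2)) *
          (Real.exp (-(4 * σ) * (z - (u i + u j) / 2) ^ 2) *
          ((u i - θ * ((u i + u j) / 2)) * (u j - θ * ((u i + u j) / 2)) +
            (-θ * ((u i - θ * ((u i + u j) / 2)) + (u j - θ * ((u i + u j) / 2)))) *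
              (z - (u i + u j) / 2) +
            θ ^ 2 * (z - (u i + u j) / 2) ^ 2)) := by
      intro i j
      funext z
      have := fz_eq σ θ (u i) (u j) z
      linear_combination (A i j * F i * F j) * this
    have hint : ∀ i j, Integrable (fun z : ℝ => A i j *
        (F i * (Real.exp (-(2 * σ) * (u i - z) ^ 2) * (u i - θ * z))) *
        (F j * (Real.exp (-(2 * σ) * (u j - z) ^ 2) * (u j - θ * z)))) := by
      intro i j
      rw [hterm i j]
      exact (gint hb _ _ _ _).const_mul _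
    rw [integral_finsetSum _ (fun i _ => integrable_finsetSum _ (fun j _ => hint i j)),
      Finset.mul_sum]
    refine Finset.sum_congr rfl fun i _ => ?_
    rw [integral_finsetSum _ (fun j _ => hint i j), Finset.mul_sum]
    refine Finset.sum_congr rfl fun j _ => ?_
    rw [hterm i j, integral_const_mul, gval hb]
    have : (2 * (4 * σ)) = 8 * σ := by ring
    rw [this]
    ring
  have hnn : 0 ≤ ∫ z : ℝ, ∑ i, ∑ j, A i j *
      (F i * (Real.exp (-(2 * σ) * (u i - z) ^ 2) * (u i - θ * z))) *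
        (F j * (Real.exp (-(2 * σ) * (u j - z) ^ 2) * (u j - θ * z))) :=
    integral_nonneg fun z => hA _
  rw [← key] at hnn
  exact nonneg_of_mul_nonneg_right hnn hpos

private lemma scal {V C W s β : ℝ} (hs : 0 < s) (hC : 0 ≤ C) (hCV : C ≤ V) (hW : 0 ≤ W)
    (hM : ((V + C) / 2) ^ 2 ≤ C * ((V + C) / 2 + s)) (hCW : C ^ 2 ≤ V * W)
    (hβ : V - C = 2 * s * β) : 0 ≤ β ∧ β < 1 ∧ 4 * s * ch β ≤ C + W := by
  have hβ0 : 0 ≤ β := by
    by_contra h
    push Not at h
    have : 2 * s * β < 0 := by nlinarith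
    linarith
  have h1 : s * β ^ 2 ≤ C * (1 - β) := by
    have h2 : (V + C) * (V - C) ≤ 4 * s * C := by nlinarith
    have hV : V = C + 2 * s * β := by linarith
    rw [hV] at h2
    have h3 : (4 * s) * (s * β ^ 2) ≤ (4 * s) * (C * (1 - β)) := by nlinarith
    exact le_of_mul_le_mul_left h3 (by linarith)
  rcases eq_or_lt_of_le hβ0 with h0 | h0
  · subst h0
    refine ⟨le_refl _, by norm_num, ?_⟩
    simp [ch]
    linarith
  · have hp : 0 < s * β ^ 2 := by positivity
    have hCb : 0 < C * (1 - β) := lt_of_lt_of_le hp h1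
    have hb1 : 0 < 1 - β := by
      by_contra h
      push Not at h
      have : C * (1 - β) ≤ 0 := mul_nonpos_of_nonneg_of_nonpos hC h
      linarith
    have hCp : 0 < C := by
      rcases eq_or_lt_of_le hC with h | h
      · rw [← h] at hCb; simp at hCb
      · exact h
    refine ⟨hβ0, by linarith, ?_⟩
    have hV : V = C + 2 * s * β := by linarith
    have hVp : 0 < V := by rw [hV]; positivity
    have hW2 : C ^ 2 / V ≤ W := by
      rw [div_le_iff₀ hVp]; linarith
    have hmain : 4 * s * ch β ≤ C + C ^ 2 / V := by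
      rw [ch, hV]
      have hden : 0 < C + 2 * s * β := by positivity
      have h2b : 0 < 2 - β := by linarith
      have e1 : 4 * s * (β ^ 2 / (2 * (1 - β) * (2 - β))) = (2 * s * β ^ 2) / ((1 - β) * (2 - β)) := by
        field_simp
        ring
      have e2 : C + C ^ 2 / (C + 2 * s * β) = (2 * C * (C + s * β)) / (C + 2 * s * β) := by
        field_simp
        ring
      rw [e1, e2, div_le_div_iff₀ (by positivity) hden]
      have h4 : C + 2 * s * β ≤ (C + s * β) * (2 - β) := by nlinarith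
      have h5 : s * β ^ 2 * (C + 2 * s * β) ≤ C * (1 - β) * ((C + s * β) * (2 - β)) := by
        calc s * β ^ 2 * (C + 2 * s * β) ≤ s * β ^ 2 * ((C + s * β) * (2 - β)) :=
              mul_le_mul_of_nonneg_left h4 hp.le
          _ ≤ C * (1 - β) * ((C + s * β) * (2 - β)) :=
              mul_le_mul_of_nonneg_right h1 (by positivity)
      nlinarith
    linarith

theorem local_ineq [Nonempty ι] {A : ι → ι → ℝ}
    (hA : ∀ x : ι → ℝ, 0 ≤ ∑ i, ∑ j, A i j * x i * x j) (hA0 : ∀ i j, 0 < A i j)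
    (hAs : ∀ i j, A i j = A j i) {F : ι → ℝ} (hF : ∀ i, 0 < F i) (u : ι → ℝ) {σ : ℝ} (hσ : 0 < σ)
    {p : ι → ι → ℝ} (hp : ∀ i j, p i j = F i * F j * A i j * Real.exp (-σ * (u i - u j) ^ 2))
    {N β : ℝ} (hN : N = ∑ i, ∑ j, p i j) (hβ : β = 2 * σ * (∑ i, ∑ j, p i j * (u i - u j) ^ 2) / N) :
    0 ≤ β ∧ β < 1 ∧
      2 * ∑ i, VV (p i) (fun j => u i + u j) - VV (fun z : ι × ι => p z.1 z.2) (fun z => u z.1 + u z.2) ≤
        -(N * ch β / σ) := by
  have hpos : ∀ i j, 0 < p i j := fun i j => by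
    rw [hp]
    have := hF i; have := hF j; have := hA0 i j
    positivity
  have hsym : ∀ i j, p i j = p j i := fun i j => by
    rw [hp, hp, hAs i j, show u i - u j = -(u j - u i) by ring, neg_sq]
    ring
  have hP : ∀ i, 0 < ∑ j, p i j := fun i =>
    Finset.sum_pos (fun j _ => hpos i j) Finset.univ_nonempty
  have hNp : 0 < N := by
    rw [hN]; exact Finset.sum_pos (fun i _ => hP i) Finset.univ_nonempty
  -- general symmetric identities
  have hswap : ∀ f : ι → ℝ, ∑ i, ∑ j, p i j * f j = ∑ i, (∑ j, p i j) * f i := by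
    intro f
    rw [Finset.sum_comm]
    refine Finset.sum_congr rfl fun i _ => ?_
    rw [Finset.sum_mul]
    exact Finset.sum_congr rfl fun j _ => by rw [hsym j i]
  have hleft : ∀ f : ι → ℝ, ∑ i, ∑ j, p i j * f i = ∑ i, (∑ j, p i j) * f i := by
    intro f
    exact Finset.sum_congr rfl fun i _ => by rw [Finset.sum_mul]
  set c : ℝ := (∑ i, (∑ j, p i j) * u i) / N with hc
  set v : ι → ℝ := fun i => u i - c with hv
  have hmu : ∑ i, (∑ j, p i j) * u i = N * c := by
    rw [hc]; field_simp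
  have hNs : ∑ i, ∑ j, p i j = N := hN.symm
  have hv0 : ∑ i, (∑ j, p i j) * v i = 0 := by
    have : ∑ i, (∑ j, p i j) * v i = ∑ i, (∑ j, p i j) * u i - (∑ i, ∑ j, p i j) * c := by
      rw [Finset.sum_mul, ← Finset.sum_sub_distrib]
      exact Finset.sum_congr rfl fun i _ => by simp only [hv]; ring
    rw [this, hmu, hNs]; ring
  set NV : ℝ := ∑ i, (∑ j, p i j) * v i ^ 2 with hNV
  set NC : ℝ := ∑ i, ∑ j, p i j * (v i * v j) with hNC
  set a : ι → ℝ := fun i => ∑ j, p i j * v j with ha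
  set NW : ℝ := ∑ i, a i ^ 2 / (∑ j, p i j) with hNW
  have hsub : ∀ i j, u i - u j = v i - v j := fun i j => by simp only [hv]; ring
  have hplus : ∑ i, ∑ j, p i j * (v i + v j) ^ 2 = 2 * NV + 2 * NC := by
    have : ∀ i j, p i j * (v i + v j) ^ 2 =
        p i j * v i ^ 2 + p i j * v j ^ 2 + 2 * (p i j * (v i * v j)) := fun i j => by ring
    simp only [this, Finset.sum_add_distrib, ← Finset.mul_sum]
    rw [hleft (fun i => v i ^ 2), hswap (fun i => v i ^ 2)]
    ring
  have hminus : ∑ i, ∑ j, p i j * (u i - u j) ^ 2 = 2 * NV - 2 * NC := by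
    have : ∀ i j, p i j * (u i - u j) ^ 2 =
        p i j * v i ^ 2 + p i j * v j ^ 2 - 2 * (p i j * (v i * v j)) := fun i j => by
      rw [hsub]; ring
    simp only [this, Finset.sum_add_distrib, Finset.sum_sub_distrib, ← Finset.mul_sum]
    rw [hleft (fun i => v i ^ 2), hswap (fun i => v i ^ 2)]
    ring
  have hNCa : NC = ∑ i, v i * a i := by
    rw [hNC]
    refine Finset.sum_congr rfl fun i _ => ?_
    rw [ha, Finset.mul_sum]
    exact Finset.sum_congr rfl fun j _ => by ring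
  -- psd
  have hpsd : ∀ θ : ℝ, 0 ≤ NC - θ * (NV + NC) + θ ^ 2 * ((NV + NC) / 2 + N * (1 / (8 * σ))) := by
    intro θ
    have h := psd_lemma hA F v hσ θ
    have e : ∑ i, ∑ j, F i * F j * A i j * Real.exp (-σ * (v i - v j) ^ 2) *
        ((v i - θ * ((v i + v j) / 2)) * (v j - θ * ((v i + v j) / 2)) + θ ^ 2 / (8 * σ)) =
        NC - θ * (NV + NC) + θ ^ 2 * ((NV + NC) / 2 + N * (1 / (8 * σ))) := by
      have e1 : ∀ i j, F i * F j * A i j * Real.exp (-σ * (v i - v j) ^ 2) *
        ((v i - θ * ((v i + v j) / 2)) * (v j - θ * ((v i + v j) / 2)) + θ ^ 2 / (8 * σ)) =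
        p i j * (v i * v j) - (θ / 2 - θ ^ 2 / 4) * (p i j * (v i + v j) ^ 2) +
          (θ ^ 2 * (1 / (8 * σ))) * p i j := fun i j => by
        rw [hp i j, hsub]
        ring
      simp only [e1, Finset.sum_add_distrib, Finset.sum_sub_distrib, ← Finset.mul_sum]
      rw [hplus, hNs]
      ring
    rw [e] at h
    exact h
  have hs : 0 < 1 / (8 * σ) := by positivity
  have hNC0 : 0 ≤ NC := by simpa using hpsd 0
  have hCVn : NC ≤ NV := by
    have : 0 ≤ ∑ i, ∑ j, p i j * (u i - u j) ^ 2 :=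
      Finset.sum_nonneg fun i _ => Finset.sum_nonneg fun j _ =>
        mul_nonneg (hpos i j).le (sq_nonneg _)
    rw [hminus] at this
    linarith
  have hNW0 : 0 ≤ NW := Finset.sum_nonneg fun i _ => div_nonneg (sq_nonneg _) (hP i).le
  have hCS : NC ^ 2 ≤ NV * NW := by
    have h := Finset.sum_mul_sq_le_sq_mul_sq Finset.univ
      (fun i => √(∑ j, p i j) * v i) (fun i => a i / √(∑ j, p i j))
    have e1 : ∑ i, (√(∑ j, p i j) * v i) * (a i / √(∑ j, p i j)) = NC := by
      rw [hNCa]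
      refine Finset.sum_congr rfl fun i _ => ?_
      have : √(∑ j, p i j) ≠ 0 := (Real.sqrt_pos.mpr (hP i)).ne'
      field_simp
    have e2 : ∑ i, (√(∑ j, p i j) * v i) ^ 2 = NV := by
      refine Finset.sum_congr rfl fun i _ => ?_
      rw [mul_pow, Real.sq_sqrt (hP i).le]
    have e3 : ∑ i, (a i / √(∑ j, p i j)) ^ 2 = NW := by
      refine Finset.sum_congr rfl fun i _ => ?_
      rw [div_pow, Real.sq_sqrt (hP i).le]
    rw [e1, e2, e3] at h
    exact h
  have hMM : ((NV / N + NC / N) / 2) ^ 2 ≤ NC / N * ((NV / N + NC / N) / 2 + 1 / (8 * σ)) := by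
    set s : ℝ := 1 / (8 * σ)
    set M : ℝ := (NV / N + NC / N) / 2 with hM
    have hM0 : 0 ≤ M := by
      have : 0 ≤ NV := le_trans hNC0 hCVn
      positivity
    have hMs : 0 < M + s := by linarith
    have h := hpsd (M / (M + s))
    have hN1 : NV + NC = N * (2 * M) := by rw [hM]; field_simp
    rw [hN1] at h
    have h2 : 0 ≤ N * (NC / N - M ^ 2 / (M + s)) := by
      have e : NC - M / (M + s) * (N * (2 * M)) + (M / (M + s)) ^ 2 * (N * (2 * M) / 2 + N * s) =
          N * (NC / N - M ^ 2 / (M + s)) := by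
        field_simp
        ring
      rw [e] at h
      exact h
    have h3 : 0 ≤ NC / N - M ^ 2 / (M + s) := nonneg_of_mul_nonneg_right h2 hNp
    have h4 : M ^ 2 / (M + s) ≤ NC / N := by linarith
    rwa [div_le_iff₀ hMs] at h4
  have hβ2 : NV / N - NC / N = 2 * (1 / (8 * σ)) * β := by
    rw [hβ, hminus]
    field_simp
    ring
  have hsc := scal hs (div_nonneg hNC0 hNp.le) (div_le_div_of_nonneg_right hCVn hNp.le)
    (div_nonneg hNW0 hNp.le) hMM (W := NW / N) (by
      rw [div_pow, div_mul_div_comm, ← sq]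
      exact div_le_div_of_nonneg_right hCS (by positivity)) hβ2
  refine ⟨hsc.1, hsc.2.1, ?_⟩
  have h3 := hsc.2.2
  -- the left side
  have hVi : ∀ i, VV (p i) (fun j => u i + u j) =
      ∑ j, p i j * v j ^ 2 - a i ^ 2 / ∑ j, p i j := by
    intro i
    rw [VV]
    have e1 : ∑ j, p i j * (u i + u j) ^ 2 = (v i + 2 * c) ^ 2 * (∑ j, p i j) +
        2 * (v i + 2 * c) * a i + ∑ j, p i j * v j ^ 2 := by
      rw [ha, Finset.mul_sum, Finset.mul_sum, ← Finset.sum_add_distrib, ← Finset.sum_add_distrib]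
      refine Finset.sum_congr rfl fun j _ => ?_
      simp only [hv]
      ring
    have e2 : ∑ j, p i j * (u i + u j) = (v i + 2 * c) * (∑ j, p i j) + a i := by
      rw [ha, Finset.mul_sum, ← Finset.sum_add_distrib]
      refine Finset.sum_congr rfl fun j _ => ?_
      simp only [hv]
      ring
    rw [e1, e2]
    have := (hP i).ne'
    field_simp
    ring
  have hVs : ∑ i, VV (p i) (fun j => u i + u j) = NV - NW := by
    simp only [hVi, Finset.sum_sub_distrib]
    rw [hswap (fun i => v i ^ 2)]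
  have hVt : VV (fun z : ι × ι => p z.1 z.2) (fun z => u z.1 + u z.2) = 2 * NV + 2 * NC := by
    rw [VV, Fintype.sum_prod_type, Fintype.sum_prod_type, Fintype.sum_prod_type]
    simp only
    have e1 : ∑ i, ∑ j, p i j * (u i + u j) ^ 2 = (2 * NV + 2 * NC) + 4 * c ^ 2 * N := by
      have : ∀ i j, p i j * (u i + u j) ^ 2 = p i j * (v i + v j) ^ 2 +
          (4 * c) * (p i j * v i) + (4 * c) * (p i j * v j) + (4 * c ^ 2) * p i j := fun i j => by
        simp only [hv]; ring
      simp only [this, Finset.sum_add_distrib, ← Finset.mul_sum]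
      rw [hplus, hleft v, hswap v, hv0, hNs]
      ring
    have e2 : ∑ i, ∑ j, p i j * (u i + u j) = 2 * c * N := by
      have : ∀ i j, p i j * (u i + u j) = p i j * v i + p i j * v j + (2 * c) * p i j :=
        fun i j => by simp only [hv]; ring
      simp only [this, Finset.sum_add_distrib, ← Finset.mul_sum]
      rw [hleft v, hswap v, hv0, hNs]
      ring
    rw [e1, e2, hNs]
    field_simp
    ring
  rw [hVs, hVt]
  have h4 : N * (4 * (1 / (8 * σ)) * ch β) ≤ N * (NC / N + NW / N) :=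
    mul_le_mul_of_nonneg_left h3 hNp.le
  have e5 : N * (NC / N + NW / N) = NC + NW := by field_simp
  have e6 : N * (4 * (1 / (8 * σ)) * ch β) = (N * ch β / σ) / 2 := by field_simp; ring
  rw [e5, e6] at h4
  linarith

end Pool.Agent.Lib.MP_6cd19d_an.HP
end

section

/-!
# One coordinate

`p_ij = F_i F_j A_ij exp(-l (u_i-u_j)^2)`, `S_ij = u_i + u_j`, `p^{r,g}_ij = p_ij tl(S_ij) r g`.  With `t = r^2/2 < l`,
`p^{r,g}_ij = F'_i F'_j A_ij exp(-(l-t)(u_i-u_j)^2)`, `F'_i = F_i exp(r g u_i - r^2 u_i^2)`, as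
`(u-v)^2 + (u+v)^2 = 2u^2+2v^2`; for `t = l` there is no Gaussian left.

`h(r) = E HH(p^{r,g})` has derivative `r E[2 ∑_i VV(row i) - VV(all)]` (`hasDerivAt_LL` for each row and for `ι × ι`).
For `0 < r < sqrt(2l)`, `x = 1 - t/l`, `σ = l x`, `local_ineq` gives `≤ -N^{r,g} ch(β^{r,g})/(l x)`, and
`tangent_ch` at `b x`: `ch β ≥ ch(bx) + ch1(bx)(β - bx)`.  Take means: `E N^{r,g} = N`, `E[N^{r,g} β^{r,g}] = 2 l x Q`,
`Q = ∑ p_ij (u_i-u_j)^2`, because `E tl = 1`.  With `β0 = 2 l Q / N`: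
`h'(r) ≤ -(r N/(l x)) [ch(bx) + ch1(bx) x (β0 - b)]`.
`D(r) = N [JJ(bx) - bx J1(bx) + J1(bx) x β0]`, `dx/dr = -r/l`,
`dD/dx = N [b x (β0-b) J2(bx) + β0 J1(bx)] = (N/x) [ch(bx) + ch1(bx) x (β0-b)]`, so `h - D` has derivative `≤ 0` on
`(0, sqrt(2l))` and is continuous on the closed interval: `h(sqrt(2l)) - D(x=0) ≤ h(0) - D(x=1)`, with `D(x=0) = 0`,
`h(0) = HH p`, `D(x=1) = N(JJ b - b J1 b) + 2 l J1(b) Q`.
-/

set_option autoImplicit false

open MeasureTheory ProbabilityTheory Set Filter Topology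
open scoped ENNReal NNReal

namespace Pool.Agent.Lib.MP_6cd19d_an.HP

open Pool.Agent.Lib.MP_6cd19d_an.ND

variable {ι : Type*} [Fintype ι] [Nonempty ι]

omit [Nonempty ι] in
private lemma int_lin (u : ι → ℝ) (w : ι → ι → ℝ) (r : ℝ) :
    Integrable (fun g => ∑ i, ∑ j, w i j * tl (u i + u j) r g) ga := by
  refine integrable_finset_sum _ fun i _ => integrable_finset_sum _ fun j _ => ?_
  exact (integrable_tl (u i + u j) r).const_mul (w i j)

omit [Nonempty ι] in
private lemma integral_lin (u : ι → ℝ) (w : ι → ι → ℝ) (r : ℝ) :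
    ∫ g, ∑ i, ∑ j, w i j * tl (u i + u j) r g ∂ga = ∑ i, ∑ j, w i j := by
  rw [integral_finset_sum _ fun i _ => integrable_finset_sum _ fun j _ =>
    (integrable_tl (u i + u j) r).const_mul (w i j)]
  refine Finset.sum_congr rfl fun i _ => ?_
  rw [integral_finset_sum _ fun j _ => (integrable_tl (u i + u j) r).const_mul (w i j)]
  refine Finset.sum_congr rfl fun j _ => ?_
  rw [integral_const_mul, integral_tl, mul_one]

private lemma int_HH {p : ι → ι → ℝ} (hp : ∀ i j, 0 < p i j) (u : ι → ℝ) (r : ℝ) :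
    Integrable (fun g => HH (fun i j => p i j * tl (u i + u j) r g)) ga := by
  have h1 : Integrable (fun g => ∑ i, LL (fun j => p i j * tl (u i + u j) r g)) ga :=
    integrable_finset_sum _ fun i _ => integrable_LL (hp i) (fun j => u i + u j) r
  have h2 : Integrable (fun g => LL (fun z : ι × ι => p z.1 z.2 * tl (u z.1 + u z.2) r g)) ga :=
    integrable_LL (p := fun z : ι × ι => p z.1 z.2) (fun z => hp z.1 z.2)
      (fun z => u z.1 + u z.2) r
  exact (h1.const_mul 2).sub h2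

private lemma integral_HH {p : ι → ι → ℝ} (hp : ∀ i j, 0 < p i j) (u : ι → ℝ) (r : ℝ) :
    ∫ g, HH (fun i j => p i j * tl (u i + u j) r g) ∂ga =
      2 * ∑ i, (∫ g, LL (fun j => p i j * tl (u i + u j) r g) ∂ga) -
        ∫ g, LL (fun z : ι × ι => p z.1 z.2 * tl (u z.1 + u z.2) r g) ∂ga := by
  have h1 : Integrable (fun g => ∑ i, LL (fun j => p i j * tl (u i + u j) r g)) ga :=
    integrable_finset_sum _ fun i _ => integrable_LL (hp i) (fun j => u i + u j) r
  have h2 : Integrable (fun g => LL (fun z : ι × ι => p z.1 z.2 * tl (u z.1 + u z.2) r g)) ga :=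
    integrable_LL (p := fun z : ι × ι => p z.1 z.2) (fun z => hp z.1 z.2)
      (fun z => u z.1 + u z.2) r
  have h3 : (fun g => HH (fun i j => p i j * tl (u i + u j) r g)) = fun g =>
      2 * (∑ i, LL (fun j => p i j * tl (u i + u j) r g)) -
        LL (fun z : ι × ι => p z.1 z.2 * tl (u z.1 + u z.2) r g) := rfl
  rw [h3, integral_sub (h1.const_mul 2) h2, integral_const_mul,
    integral_finset_sum _ fun i _ => integrable_LL (hp i) (fun j => u i + u j) r]

private lemma hasDeriv_HH {p : ι → ι → ℝ} (hp : ∀ i j, 0 < p i j) (u : ι → ℝ) (r : ℝ) :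
    HasDerivAt (fun r => ∫ g, HH (fun i j => p i j * tl (u i + u j) r g) ∂ga)
      (r * ∫ g, (2 * ∑ i, VV (fun j => p i j * tl (u i + u j) r g) (fun j => u i + u j) -
        VV (fun z : ι × ι => p z.1 z.2 * tl (u z.1 + u z.2) r g)
          (fun z => u z.1 + u z.2)) ∂ga) r := by
  have h1 : HasDerivAt (fun r => ∑ i, (∫ g, LL (fun j => p i j * tl (u i + u j) r g) ∂ga))
      (∑ i, r * ∫ g, VV (fun j => p i j * tl (u i + u j) r g) (fun j => u i + u j) ∂ga) r :=
    HasDerivAt.fun_sum fun i _ => hasDerivAt_LL (hp i) (fun j => u i + u j) r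
  have h2 : HasDerivAt (fun r => ∫ g, LL (fun z : ι × ι => p z.1 z.2 * tl (u z.1 + u z.2) r g) ∂ga)
      (r * ∫ g, VV (fun z : ι × ι => p z.1 z.2 * tl (u z.1 + u z.2) r g)
        (fun z => u z.1 + u z.2) ∂ga) r :=
    hasDerivAt_LL (p := fun z : ι × ι => p z.1 z.2) (fun z => hp z.1 z.2)
      (fun z => u z.1 + u z.2) r
  have h3 := (h1.const_mul 2).sub h2
  have h4 : (fun r => ∫ g, HH (fun i j => p i j * tl (u i + u j) r g) ∂ga) = fun r =>
      2 * ∑ i, (∫ g, LL (fun j => p i j * tl (u i + u j) r g) ∂ga) -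
        ∫ g, LL (fun z : ι × ι => p z.1 z.2 * tl (u z.1 + u z.2) r g) ∂ga := by
    funext r
    exact integral_HH hp u r
  have h5 : Integrable (fun g => ∑ i, VV (fun j => p i j * tl (u i + u j) r g)
      (fun j => u i + u j)) ga :=
    integrable_finset_sum _ fun i _ => integrable_VV (hp i) (fun j => u i + u j) r
  have h6 : Integrable (fun g => VV (fun z : ι × ι => p z.1 z.2 * tl (u z.1 + u z.2) r g)
      (fun z => u z.1 + u z.2)) ga :=
    integrable_VV (p := fun z : ι × ι => p z.1 z.2) (fun z => hp z.1 z.2)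
      (fun z => u z.1 + u z.2) r
  rw [h4]
  refine HasDerivAt.congr_deriv h3 ?_
  rw [integral_sub (h5.const_mul 2) h6, integral_const_mul,
    integral_finset_sum _ fun i _ => integrable_VV (hp i) (fun j => u i + u j) r,
    ← Finset.mul_sum]
  ring

omit [Fintype ι] [Nonempty ι] in
private lemma tilt_form {A : ι → ι → ℝ} {F : ι → ℝ} (u : ι → ℝ) {l : ℝ}
    {p : ι → ι → ℝ} (hp : ∀ i j, p i j = F i * F j * A i j * Real.exp (-l * (u i - u j) ^ 2))
    (r g : ℝ) (i j : ι) :
    p i j * tl (u i + u j) r g =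
      (F i * Real.exp (r * g * u i - r ^ 2 * u i ^ 2)) *
      (F j * Real.exp (r * g * u j - r ^ 2 * u j ^ 2)) * A i j *
        Real.exp (-(l - r ^ 2 / 2) * (u i - u j) ^ 2) := by
  rw [hp i j, tl]
  have h : Real.exp (-l * (u i - u j) ^ 2) *
      Real.exp (r * (u i + u j) * g - r ^ 2 * (u i + u j) ^ 2 / 2) =
      Real.exp (r * g * u i - r ^ 2 * u i ^ 2) * Real.exp (r * g * u j - r ^ 2 * u j ^ 2) *
        Real.exp (-(l - r ^ 2 / 2) * (u i - u j) ^ 2) := by
    rw [← Real.exp_add, ← Real.exp_add, ← Real.exp_add]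
    congr 1
    ring
  calc F i * F j * A i j * Real.exp (-l * (u i - u j) ^ 2) *
        Real.exp (r * (u i + u j) * g - r ^ 2 * (u i + u j) ^ 2 / 2)
      = F i * F j * A i j * (Real.exp (-l * (u i - u j) ^ 2) *
        Real.exp (r * (u i + u j) * g - r ^ 2 * (u i + u j) ^ 2 / 2)) := by ring
    _ = _ := by rw [h]; ring

private lemma deriv_bound {A : ι → ι → ℝ}
    (hA : ∀ x : ι → ℝ, 0 ≤ ∑ i, ∑ j, A i j * x i * x j) (hA0 : ∀ i j, 0 < A i j)
    (hAs : ∀ i j, A i j = A j i) {F : ι → ℝ} (hF : ∀ i, 0 < F i) (u : ι → ℝ) {l : ℝ} (hl : 0 < l)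
    {p : ι → ι → ℝ} (hp : ∀ i j, p i j = F i * F j * A i j * Real.exp (-l * (u i - u j) ^ 2))
    {b : ℝ} (hb0 : 0 ≤ b) (hb1 : b < 1) {r x : ℝ} (hx : x = 1 - r ^ 2 / (2 * l)) (hx0 : 0 < x) :
    ∫ g, (2 * ∑ i, VV (fun j => p i j * tl (u i + u j) r g) (fun j => u i + u j) -
        VV (fun z : ι × ι => p z.1 z.2 * tl (u z.1 + u z.2) r g)
          (fun z => u z.1 + u z.2)) ∂ga ≤
      (∑ i, ∑ j, p i j) * (b ^ 2 * x * J2 (b * x)) / l -
        2 * ch1 (b * x) * (∑ i, ∑ j, p i j * (u i - u j) ^ 2) := by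
  have hp0 : ∀ i j, 0 < p i j := by
    intro i j
    rw [hp]
    exact mul_pos (mul_pos (mul_pos (hF i) (hF j)) (hA0 i j)) (Real.exp_pos _)
  have hσ : 0 < l * x := mul_pos hl hx0
  have hσe : l - r ^ 2 / 2 = l * x := by
    rw [hx]; field_simp
  have hx1 : x ≤ 1 := by
    rw [hx]
    have : 0 ≤ r ^ 2 / (2 * l) := by positivity
    linarith
  have hbx0 : 0 ≤ b * x := mul_nonneg hb0 hx0.le
  have hbx1 : b * x < 1 := by nlinarith
  set a : ℝ := b ^ 2 * x * J2 (b * x) / l with ha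
  set c : ℝ := 2 * ch1 (b * x) with hc
  have h5 : Integrable (fun g => 2 * ∑ i, VV (fun j => p i j * tl (u i + u j) r g)
      (fun j => u i + u j)) ga :=
    (integrable_finset_sum _ fun i _ =>
      integrable_VV (hp0 i) (fun j => u i + u j) r).const_mul 2
  have h6 : Integrable (fun g => VV (fun z : ι × ι => p z.1 z.2 * tl (u z.1 + u z.2) r g)
      (fun z => u z.1 + u z.2)) ga :=
    integrable_VV (p := fun z : ι × ι => p z.1 z.2) (fun z => hp0 z.1 z.2)
      (fun z => u z.1 + u z.2) r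
  have h7 := int_lin u p r
  have h8 := int_lin u (fun i j => p i j * (u i - u j) ^ 2) r
  have key : ∀ g, 2 * ∑ i, VV (fun j => p i j * tl (u i + u j) r g) (fun j => u i + u j) -
        VV (fun z : ι × ι => p z.1 z.2 * tl (u z.1 + u z.2) r g)
          (fun z => u z.1 + u z.2) ≤
      a * (∑ i, ∑ j, p i j * tl (u i + u j) r g) -
        c * (∑ i, ∑ j, p i j * (u i - u j) ^ 2 * tl (u i + u j) r g) := by
    intro g
    have hF' : ∀ i, 0 < F i * Real.exp (r * g * u i - r ^ 2 * u i ^ 2) :=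
      fun i => mul_pos (hF i) (Real.exp_pos _)
    have hp' : ∀ i j, p i j * tl (u i + u j) r g =
        (F i * Real.exp (r * g * u i - r ^ 2 * u i ^ 2)) *
        (F j * Real.exp (r * g * u j - r ^ 2 * u j ^ 2)) * A i j *
          Real.exp (-(l * x) * (u i - u j) ^ 2) := by
      intro i j
      rw [tilt_form u hp r g i j, hσe]
    have htl : ∀ i j, 0 < tl (u i + u j) r g := fun i j => Real.exp_pos _
    obtain ⟨hβ0, hβ1, hloc⟩ := local_ineq hA hA0 hAs hF' u hσ
      (p := fun i j => p i j * tl (u i + u j) r g) hp' rfl rfl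
    set Ng : ℝ := ∑ i, ∑ j, p i j * tl (u i + u j) r g with hNg
    set β : ℝ := 2 * (l * x) * (∑ i, ∑ j, p i j * tl (u i + u j) r g * (u i - u j) ^ 2) / Ng
      with hβ
    have hNg0 : 0 < Ng := by
      refine Finset.sum_pos (fun i _ => Finset.sum_pos (fun j _ => ?_) Finset.univ_nonempty)
        Finset.univ_nonempty
      exact mul_pos (hp0 i j) (htl i j)
    have htan := tangent_ch hbx0 hbx1 hβ0 hβ1
    refine hloc.trans ?_
    have hQ : (∑ i, ∑ j, p i j * (u i - u j) ^ 2 * tl (u i + u j) r g) =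
        ∑ i, ∑ j, p i j * tl (u i + u j) r g * (u i - u j) ^ 2 := by
      refine Finset.sum_congr rfl fun i _ => Finset.sum_congr rfl fun j _ => ?_
      ring
    rw [hQ]
    set Qg : ℝ := ∑ i, ∑ j, p i j * tl (u i + u j) r g * (u i - u j) ^ 2 with hQg
    have hNβ : Ng * β = 2 * (l * x) * Qg := by
      rw [hβ]; field_simp
    have h1 : Ng * (ch (b * x) + ch1 (b * x) * (β - b * x)) ≤ Ng * ch β :=
      mul_le_mul_of_nonneg_left htan hNg0.le
    have h2 : -(Ng * ch β / (l * x)) ≤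
        -(Ng * (ch (b * x) + ch1 (b * x) * (β - b * x)) / (l * x)) := by
      apply neg_le_neg
      exact div_le_div_of_nonneg_right h1 hσ.le
    refine h2.trans (le_of_eq ?_)
    have h3 : Ng * (ch (b * x) + ch1 (b * x) * (β - b * x)) =
        -(Ng * (b * x) ^ 2 * J2 (b * x)) + ch1 (b * x) * (2 * (l * x) * Qg) := by
      rw [← hNβ, ch_eq, ch1]
      ring
    rw [h3, ha, hc]
    field_simp
    ring
  calc ∫ g, (2 * ∑ i, VV (fun j => p i j * tl (u i + u j) r g) (fun j => u i + u j) -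
        VV (fun z : ι × ι => p z.1 z.2 * tl (u z.1 + u z.2) r g)
          (fun z => u z.1 + u z.2)) ∂ga ≤
      ∫ g, (a * (∑ i, ∑ j, p i j * tl (u i + u j) r g) -
        c * (∑ i, ∑ j, p i j * (u i - u j) ^ 2 * tl (u i + u j) r g)) ∂ga :=
        integral_mono (h5.sub h6) ((h7.const_mul a).sub (h8.const_mul c)) key
    _ = a * (∑ i, ∑ j, p i j) - c * (∑ i, ∑ j, p i j * (u i - u j) ^ 2) := by
        rw [integral_sub (h7.const_mul a) (h8.const_mul c), integral_const_mul,
          integral_const_mul, integral_lin u p r,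
          integral_lin u (fun i j => p i j * (u i - u j) ^ 2) r]
    _ = _ := by rw [ha, hc]; ring

private lemma hasDeriv_D {b l N Q : ℝ} (hl : 0 < l) (hb0 : 0 ≤ b) (hb1 : b < 1) (r : ℝ) :
    HasDerivAt (fun r : ℝ => N * (JJ (b * (1 - r ^ 2 / (2 * l))) -
        b * (1 - r ^ 2 / (2 * l)) * J1 (b * (1 - r ^ 2 / (2 * l)))) +
      2 * l * (1 - r ^ 2 / (2 * l)) * J1 (b * (1 - r ^ 2 / (2 * l))) * Q)
      (r * (N * (b ^ 2 * (1 - r ^ 2 / (2 * l)) * J2 (b * (1 - r ^ 2 / (2 * l)))) / l -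
        2 * ch1 (b * (1 - r ^ 2 / (2 * l))) * Q)) r := by
  have hx : HasDerivAt (fun r : ℝ => 1 - r ^ 2 / (2 * l)) (-(r / l)) r := by
    have h := ((hasDerivAt_pow 2 r).div_const (2 * l)).const_sub 1
    refine h.congr_deriv ?_
    field_simp
    simp
  have hx1 : 1 - r ^ 2 / (2 * l) ≤ 1 := by
    have : 0 ≤ r ^ 2 / (2 * l) := by positivity
    linarith
  have hbx1 : b * (1 - r ^ 2 / (2 * l)) < 1 := by nlinarith
  have hbx := hx.const_mul b
  have hJ := (hasDerivAt_JJ hbx1).comp r hbx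
  have hJ1 := (hasDerivAt_J1 hbx1).comp r hbx
  have h := ((hJ.sub (hbx.mul hJ1)).const_mul N).add
    (((hx.const_mul (2 * l)).mul hJ1).mul_const Q)
  refine HasDerivAt.congr_deriv h ?_
  simp only [Function.comp_apply, ch1]
  field_simp
  ring

theorem one_step {A : ι → ι → ℝ}
    (hA : ∀ x : ι → ℝ, 0 ≤ ∑ i, ∑ j, A i j * x i * x j) (hA0 : ∀ i j, 0 < A i j)
    (hAs : ∀ i j, A i j = A j i) {F : ι → ℝ} (hF : ∀ i, 0 < F i) (u : ι → ℝ) {l : ℝ} (hl : 0 < l)
    {p : ι → ι → ℝ} (hp : ∀ i j, p i j = F i * F j * A i j * Real.exp (-l * (u i - u j) ^ 2))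
    {b : ℝ} (hb0 : 0 ≤ b) (hb1 : b < 1) :
    Integrable (fun g => HH (fun i j => p i j * tl (u i + u j) (Real.sqrt (2 * l)) g)) ga ∧
    (∫ g, HH (fun i j => p i j * tl (u i + u j) (Real.sqrt (2 * l)) g) ∂ga) +
      (JJ b - b * J1 b) * (∑ i, ∑ j, p i j) +
      2 * l * J1 b * (∑ i, ∑ j, p i j * (u i - u j) ^ 2) ≤ HH p := by
  have hp0 : ∀ i j, 0 < p i j := by
    intro i j
    rw [hp]
    exact mul_pos (mul_pos (mul_pos (hF i) (hF j)) (hA0 i j)) (Real.exp_pos _)
  refine ⟨int_HH hp0 u _, ?_⟩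
  set N : ℝ := ∑ i, ∑ j, p i j with hN
  set Q : ℝ := ∑ i, ∑ j, p i j * (u i - u j) ^ 2 with hQ
  set h : ℝ → ℝ := fun r => ∫ g, HH (fun i j => p i j * tl (u i + u j) r g) ∂ga with hh
  set D : ℝ → ℝ := fun r => N * (JJ (b * (1 - r ^ 2 / (2 * l))) -
        b * (1 - r ^ 2 / (2 * l)) * J1 (b * (1 - r ^ 2 / (2 * l)))) +
      2 * l * (1 - r ^ 2 / (2 * l)) * J1 (b * (1 - r ^ 2 / (2 * l))) * Q with hD
  have hd : ∀ r, HasDerivAt (fun r => h r - D r)
      (r * (∫ g, (2 * ∑ i, VV (fun j => p i j * tl (u i + u j) r g) (fun j => u i + u j) -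
        VV (fun z : ι × ι => p z.1 z.2 * tl (u z.1 + u z.2) r g)
          (fun z => u z.1 + u z.2)) ∂ga) -
        r * (N * (b ^ 2 * (1 - r ^ 2 / (2 * l)) * J2 (b * (1 - r ^ 2 / (2 * l)))) / l -
        2 * ch1 (b * (1 - r ^ 2 / (2 * l))) * Q)) r :=
    fun r => (hasDeriv_HH hp0 u r).sub (hasDeriv_D hl hb0 hb1 r)
  have hanti : AntitoneOn (fun r => h r - D r) (Icc 0 (Real.sqrt (2 * l))) := by
    apply antitoneOn_of_deriv_nonpos (convex_Icc _ _)
    · exact fun r _ => (hd r).continuousAt.continuousWithinAt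
    · exact fun r _ => (hd r).differentiableAt.differentiableWithinAt
    · intro r hr
      rw [interior_Icc] at hr
      rw [(hd r).deriv]
      have hr2 : r ^ 2 < 2 * l := by
        have := Real.lt_sqrt (hr.1.le) |>.mp hr.2
        exact this
      have hx0 : 0 < 1 - r ^ 2 / (2 * l) := by
        rw [sub_pos, div_lt_one (by positivity)]
        exact hr2
      have := deriv_bound hA hA0 hAs hF u hl hp hb0 hb1 (r := r) rfl hx0
      have h2 := mul_le_mul_of_nonneg_left this hr.1.le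
      linarith
  have hs0 : (0 : ℝ) ≤ Real.sqrt (2 * l) := Real.sqrt_nonneg _
  have hfin := hanti (left_mem_Icc.mpr hs0) (right_mem_Icc.mpr hs0) hs0
  have hs2 : Real.sqrt (2 * l) ^ 2 / (2 * l) = 1 := by
    rw [Real.sq_sqrt (by positivity)]
    field_simp
  have hD1 : D (Real.sqrt (2 * l)) = 0 := by
    simp only [hD, hs2, sub_self, mul_zero, JJ_zero, zero_mul, add_zero]
  have hD0 : D 0 = N * (JJ b - b * J1 b) + 2 * l * J1 b * Q := by
    simp only [hD]
    norm_num
  have hh0 : h 0 = HH p := by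
    simp only [hh]
    have h1 : (fun g : ℝ => HH (fun i j => p i j * tl (u i + u j) 0 g)) = fun _ => HH p := by
      funext g
      congr 1
      funext i j
      simp [tl]
    rw [h1]
    simp
  simp only [hD1, hD0, hh0] at hfin
  have hfin2 : h (Real.sqrt (2 * l)) = ∫ g, HH (fun i j => p i j * tl (u i + u j)
    (Real.sqrt (2 * l)) g) ∂ga := rfl
  rw [← hfin2]
  linarith

end Pool.Agent.Lib.MP_6cd19d_an.HP
end
end
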