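import Pool.Agent.Lib.MP_6cd19d_an.HP.Defs
import Pool.Agent.Lib.MP_6cd19d_an.HP.A1

section

/-!
# The reverse inequality for the sphere

`a = Z1/Z`, `c = 1 - a`, `β = 2κc/n`.  From `Bes`: `a' = 1 - a^2 - n a/κ` (`κ > 0`), `0 < c < 1`.

(1) `β < 1`: `β' = 2(1-β) - c(2-β) + 2c/n`, so `y = 1 - β` satisfies `y' = -(1+a) y + c (1 - 2/n)` and
`(exp(κ) Z y)' = exp(κ) Z ((1+a) y + y') = exp(κ) Z c (1-2/n) ≥ 0`; at `κ → 0` `exp(κ) Z y = 1`; so `y > 0`.

(2) `w = 1 + (1-β)^2`.  Claim `Fb := c (2 - β - 2β/(n w)) - 2(1-β) < 0` for all `κ > 0`.  Near `0`: `a/κ → 1/(n+1)`,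
`β/κ → 2/n`, `w → 2`, `Fb = -2a + β - 2β/(nw) + a(β + 2β/(nw))`, `Fb/κ → -2/(n^2(n+1)) < 0`.  If `Fb = 0` at `κ` then
`κ c' = -β c/w`, `κ β' = β (1 - β/w)` and `κ Fb' w/(β(1-β)) = -(2c/n) (β/w + (2-β) (w + 2β(1-β))/w^2) < 0`:
[general formulas: `κ c' = -(n/2)(β(2-c) - 2(1-c))`, `κ β' = β (1 + κ c'/c)`; `Fb = 0` means `2 - c - 2(1-c)/β = 2c/(nw)`.
`κ Fb' = κc'(2-β-2β/(nw)) + c(-κβ' - (2/n)(β/w)'κβ') + 2κβ'`, `(β/w)' = (w+2β(1-β))/w^2`, `w - β = (1-β)(2-β)`;
use `c(2-β-2β/(nw)) = 2(1-β)`.]  So `Fb` cannot become `0`: take the first zero, there `Fb' ≥ 0`.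

(3) `D(κ) = κ a - log Z`, `D' = κ a'`; `(n JJ β)' = n J1(β) β' = (β/((1-β)(2-β))) (c - κ a')` (as `β' = (2/n)(c - κa')`).
`D' ≤ (n JJ β)'` is `κ a' (1 + (1-β)^2) ≤ c β`, and `κ a' = (nβ/2)(2 - c - 2(1-c)/β)`, so this is `Fb ≤ 0` (multiply out).
Both sides vanish as `κ → 0`, so `D ≤ n JJ β`.
-/

set_option autoImplicit false

open MeasureTheory ProbabilityTheory Set Filter Topology
open scoped ENNReal NNReal

namespace Pool.Agent.Lib.MP_6cd19d_an.HP

open Pool.Agent.Lib.MP_6cd19d_an.ND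

section aux
variable {n : ℕ} {Z Z1 Z2 : ℝ → ℝ}

/-- the derivative of `c` -/
private noncomputable def cp (Z Z1 Z2 : ℝ → ℝ) (κ : ℝ) : ℝ :=
  -((Z2 κ * Z κ - Z1 κ * Z1 κ) / Z κ ^ 2)

private noncomputable def cF (Z Z1 : ℝ → ℝ) (κ : ℝ) : ℝ := 1 - Z1 κ / Z κ

private noncomputable def bF (n : ℕ) (Z Z1 : ℝ → ℝ) (κ : ℝ) : ℝ := 2 * κ * (1 - Z1 κ / Z κ) / n

private noncomputable def bp (n : ℕ) (Z Z1 Z2 : ℝ → ℝ) (κ : ℝ) : ℝ :=
  2 * (cF Z Z1 κ + κ * cp Z Z1 Z2 κ) / n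

private theorem cF_pos (h : Bes n Z Z1 Z2) (κ : ℝ) : 0 < cF Z Z1 κ := by
  unfold cF
  rw [sub_pos, div_lt_one (h.pos κ)]
  exact h.lt κ

private theorem hasDerivAt_cF (h : Bes n Z Z1 Z2) (κ : ℝ) :
    HasDerivAt (cF Z Z1) (cp Z Z1 Z2 κ) κ := by
  have h1 := (h.d2 κ).div (h.d1 κ) (h.pos κ).ne'
  have h2 := h1.const_sub 1
  exact h2

private theorem hasDerivAt_bF (h : Bes n Z Z1 Z2) (κ : ℝ) :
    HasDerivAt (bF n Z Z1) (bp n Z Z1 Z2 κ) κ := by
  have h1 := (((hasDerivAt_id κ).const_mul 2).mul (hasDerivAt_cF h κ)).div_const (n : ℝ)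
  refine h1.congr_deriv ?_
  unfold bp
  simp only [id]
  ring

private theorem kcp (hn : 0 < n) (h : Bes n Z Z1 Z2) (κ : ℝ) :
    κ * cp Z Z1 Z2 κ = -(n / 2 * (bF n Z Z1 κ * (2 - cF Z Z1 κ) - 2 * (1 - cF Z Z1 κ))) := by
  have hZ := (h.pos κ).ne'
  have hn' : (n : ℝ) ≠ 0 := by exact_mod_cast hn.ne'
  have ho := h.ode κ
  have h2 : κ * Z2 κ = κ * Z κ - n * Z1 κ := by linarith
  have h3 : κ * cp Z Z1 Z2 κ = -((κ * Z2 κ * Z κ - κ * Z1 κ * Z1 κ) / Z κ ^ 2) := by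
    unfold cp
    ring
  rw [h3, h2]
  unfold bF cF
  field_simp
  ring

private theorem gmono (hn : 2 ≤ n) (h : Bes n Z Z1 Z2) :
    Monotone (fun κ => Real.exp κ * (Z κ - 2 * κ * (Z κ - Z1 κ) / n)) := by
  have hn0 : (0 : ℝ) < n := by exact_mod_cast (by omega : 0 < n)
  have hd : ∀ κ, HasDerivAt (fun κ => Real.exp κ * (Z κ - 2 * κ * (Z κ - Z1 κ) / n))
      (Real.exp κ * ((Z κ - Z1 κ) * (1 - 2 / n))) κ := by
    intro κ
    have h1 := (((hasDerivAt_id κ).const_mul 2).mul ((h.d1 κ).sub (h.d2 κ))).div_const (n : ℝ)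
    have h2 := (Real.hasDerivAt_exp κ).mul ((h.d1 κ).sub h1)
    refine h2.congr_deriv ?_
    have ho := h.ode κ
    have h3 : 2 * κ * (Z1 κ - Z2 κ) = 2 * κ * Z1 κ - 2 * κ * Z κ + 2 * n * Z1 κ := by
      linear_combination 2 * ho
    simp only [id, Pi.sub_apply, Pi.mul_apply]
    rw [h3]
    field_simp
    ring
  apply monotone_of_deriv_nonneg
  · intro κ
    exact (hd κ).differentiableAt
  · intro κ
    rw [(hd κ).deriv]
    have h4 : 0 < Z κ - Z1 κ := sub_pos.mpr (h.lt κ)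
    have h5 : (2 : ℝ) / n ≤ 1 := by
      rw [div_le_one hn0]
      exact_mod_cast hn
    have h6 : 0 ≤ 1 - 2 / (n : ℝ) := by linarith
    positivity

private theorem bF_lt (hn : 2 ≤ n) (h : Bes n Z Z1 Z2) {κ : ℝ} (hκ : 0 ≤ κ) : bF n Z Z1 κ < 1 := by
  have h1 := gmono hn h hκ
  simp only [h.one, h.zero] at h1
  norm_num at h1
  have h2 : 0 < Real.exp κ := Real.exp_pos κ
  have h3 : 0 < Z κ - 2 * κ * (Z κ - Z1 κ) / n := by
    by_contra hcon
    have := mul_nonpos_of_nonneg_of_nonpos h2.le (not_lt.mp hcon)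
    linarith
  have h4 : Z κ * (1 - bF n Z Z1 κ) = Z κ - 2 * κ * (Z κ - Z1 κ) / n := by
    have hZ := (h.pos κ).ne'
    unfold bF
    field_simp
  rw [← h4] at h3
  have h5 := (mul_pos_iff_of_pos_left (h.pos κ)).mp h3
  linarith

private theorem bF_pos (hn : 2 ≤ n) (h : Bes n Z Z1 Z2) {κ : ℝ} (hκ : 0 < κ) : 0 < bF n Z Z1 κ := by
  have hn0 : (0 : ℝ) < n := by exact_mod_cast (by omega : 0 < n)
  have := cF_pos h κ
  unfold cF at this
  unfold bF
  positivity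

private noncomputable def wF (n : ℕ) (Z Z1 : ℝ → ℝ) (κ : ℝ) : ℝ := 1 + (1 - bF n Z Z1 κ) ^ 2

private noncomputable def FF (n : ℕ) (Z Z1 : ℝ → ℝ) (κ : ℝ) : ℝ :=
  cF Z Z1 κ * (2 - bF n Z Z1 κ - 2 * bF n Z Z1 κ / (n * wF n Z Z1 κ)) - 2 * (1 - bF n Z Z1 κ)

private noncomputable def Fp (n : ℕ) (Z Z1 Z2 : ℝ → ℝ) (κ : ℝ) : ℝ :=
  cp Z Z1 Z2 κ * (2 - bF n Z Z1 κ - 2 * bF n Z Z1 κ / (n * wF n Z Z1 κ)) +
    cF Z Z1 κ * (-bp n Z Z1 Z2 κ - 2 / n * (bp n Z Z1 Z2 κ *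
      (wF n Z Z1 κ + 2 * bF n Z Z1 κ * (1 - bF n Z Z1 κ))) / wF n Z Z1 κ ^ 2) +
    2 * bp n Z Z1 Z2 κ

private theorem wF_pos (κ : ℝ) : 0 < wF n Z Z1 κ := by
  unfold wF
  positivity

private theorem hasDerivAt_FF (hn : 2 ≤ n) (h : Bes n Z Z1 Z2) (κ : ℝ) :
    HasDerivAt (FF n Z Z1) (Fp n Z Z1 Z2 κ) κ := by
  have hn0 : (0 : ℝ) < n := by exact_mod_cast (by omega : 0 < n)
  have hb := hasDerivAt_bF h κ
  have hc := hasDerivAt_cF h κ
  have hw : HasDerivAt (wF n Z Z1) (-(2 * (1 - bF n Z Z1 κ) * bp n Z Z1 Z2 κ)) κ := by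
    have h1 := ((hb.const_sub 1).pow 2).const_add 1
    refine h1.congr_deriv ?_
    simp
  have hw0 := (wF_pos (n := n) (Z := Z) (Z1 := Z1) κ).ne'
  have hnw : (n : ℝ) * wF n Z Z1 κ ≠ 0 := mul_ne_zero hn0.ne' hw0
  have h2 := (hc.mul ((hb.const_sub 2).sub ((hb.const_mul 2).div (hw.const_mul (n : ℝ)) hnw))).sub
    ((hb.const_sub 1).const_mul 2)
  refine h2.congr_deriv ?_
  unfold Fp
  simp only [Pi.sub_apply, Pi.div_apply]
  field_simp
  ring

private theorem Fp_neg (hn : 2 ≤ n) (h : Bes n Z Z1 Z2) {κ : ℝ} (hκ : 0 < κ)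
    (hF : FF n Z Z1 κ = 0) : Fp n Z Z1 Z2 κ < 0 := by
  have hn0 : (0 : ℝ) < n := by exact_mod_cast (by omega : 0 < n)
  have hb0 := bF_pos hn h hκ
  have hb1 := bF_lt hn h hκ.le
  have hc0 := cF_pos h κ
  have hw0 := wF_pos (n := n) (Z := Z) (Z1 := Z1) κ
  have hk := kcp (by omega) h κ
  have hbe : n * bF n Z Z1 κ = 2 * κ * cF Z Z1 κ := by
    unfold bF cF
    field_simp
  have hbp : κ * bp n Z Z1 Z2 κ = 2 * κ * (cF Z Z1 κ + κ * cp Z Z1 Z2 κ) / n := by
    unfold bp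
    ring
  have hwe : wF n Z Z1 κ = 1 + (1 - bF n Z Z1 κ) ^ 2 := rfl
  have hF' : cF Z Z1 κ * (2 - bF n Z Z1 κ - 2 * bF n Z Z1 κ / (n * wF n Z Z1 κ)) -
    2 * (1 - bF n Z Z1 κ) = 0 := hF
  have hFp : κ * Fp n Z Z1 Z2 κ =
      (κ * cp Z Z1 Z2 κ) * (2 - bF n Z Z1 κ - 2 * bF n Z Z1 κ / (n * wF n Z Z1 κ)) +
    cF Z Z1 κ * (-(κ * bp n Z Z1 Z2 κ) - 2 / n * ((κ * bp n Z Z1 Z2 κ) *
      (wF n Z Z1 κ + 2 * bF n Z Z1 κ * (1 - bF n Z Z1 κ))) / wF n Z Z1 κ ^ 2) +
    2 * (κ * bp n Z Z1 Z2 κ) := by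
    unfold Fp
    ring
  generalize bF n Z Z1 κ = b at *
  generalize cF Z Z1 κ = c at *
  generalize wF n Z Z1 κ = w at *
  generalize hx : κ * cp Z Z1 Z2 κ = x at *
  generalize hy : κ * bp n Z Z1 Z2 κ = y at *
  -- x = - b c / w
  have hx1 : x = -(b * c / w) := by
    rw [hk]
    have : b * (2 - c) - 2 * (1 - c) = 2 * b * c / (n * w) := by
      have e : c * (2 * b / (n * w)) = 2 * b * c / (n * w) := by ring
      linarith
    rw [this]
    field_simp
  have hy1 : y = b / w * ((1 - b) * (2 - b)) := by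
    rw [hbp, hx1]
    have e1 : 2 * κ * (c + -(b * c / w)) / n = (2 * κ * c) / n * (1 - b / w) := by ring
    rw [e1, ← hbe]
    have e2 : n * b / n * (1 - b / w) = b / w * (w - b) := by
      field_simp
    rw [e2, hwe]
    ring
  have hFp2 : κ * Fp n Z Z1 Z2 κ = -(b / w * (1 - b) * (2 * c / n) *
      (b / w + (2 - b) * (w + 2 * b * (1 - b)) / w ^ 2)) := by
    rw [hFp, hx1, hy1]
    have e3 : c * (2 - b - 2 * b / (n * w)) = 2 * (1 - b) := by linarith
    have e4 : -(b * c / w) * (2 - b - 2 * b / (n * w)) = -(b / w) * (2 * (1 - b)) := by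
      rw [← e3]
      ring
    have e5 : 2 * (1 - b) - c * (2 - b) = -(2 * c / n * (b / w)) := by
      rw [← e3]
      field_simp
      ring
    rw [e4]
    have e6 : -(b / w) * (2 * (1 - b)) + c * (-(b / w * ((1 - b) * (2 - b))) - 2 / n *
        ((b / w * ((1 - b) * (2 - b))) * (w + 2 * b * (1 - b))) / w ^ 2) +
        2 * (b / w * ((1 - b) * (2 - b))) =
        b / w * (1 - b) * (2 * (1 - b) - c * (2 - b)) - b / w * (1 - b) * (2 * c / n) *
          ((2 - b) * (w + 2 * b * (1 - b)) / w ^ 2) := by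
      ring
    rw [e6, e5]
    ring
  have h1b : 0 < 1 - b := by linarith
  have h2b : 0 < 2 - b := by linarith
  have hpos : 0 < b / w * (1 - b) * (2 * c / n) *
      (b / w + (2 - b) * (w + 2 * b * (1 - b)) / w ^ 2) := by positivity
  have hneg : κ * Fp n Z Z1 Z2 κ < 0 := by
    rw [hFp2]
    linarith
  by_contra hcon
  have := mul_nonneg hκ.le (not_lt.mp hcon)
  linarith

private theorem Fp_zero (hn : 2 ≤ n) (h : Bes n Z Z1 Z2) : Fp n Z Z1 Z2 0 < 0 := by
  have hn0 : (0 : ℝ) < n := by exact_mod_cast (by omega : 0 < n)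
  have e1 : cF Z Z1 0 = 1 := by
    unfold cF
    rw [h.zero]
    simp
  have e2 : bF n Z Z1 0 = 0 := by
    unfold bF
    simp
  have e3 : wF n Z Z1 0 = 2 := by
    unfold wF
    rw [e2]
    norm_num
  have e4 : cp Z Z1 Z2 0 = -(1 / ((n : ℝ) + 1)) := by
    unfold cp
    rw [h.zero, h.one, h.two]
    simp
  have e5 : bp n Z Z1 Z2 0 = 2 / n := by
    unfold bp
    rw [e1]
    simp
  unfold Fp
  rw [e1, e2, e3, e4, e5]
  have e6 : -(1 / ((n : ℝ) + 1)) * (2 - 0 - 2 * 0 / (n * 2)) +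
      1 * (-(2 / (n : ℝ)) - 2 / n * (2 / n * (2 + 2 * 0 * (1 - 0))) / 2 ^ 2) + 2 * (2 / n) =
      -(2 / ((n : ℝ) ^ 2 * (n + 1))) := by
    field_simp
    ring
  rw [e6]
  have : 0 < 2 / ((n : ℝ) ^ 2 * (n + 1)) := by positivity
  linarith

private theorem FF_le (hn : 2 ≤ n) (h : Bes n Z Z1 Z2) {κ : ℝ} (hκ : 0 ≤ κ) : FF n Z Z1 κ ≤ 0 := by
  have hcont : ContinuousOn (FF n Z Z1) (Icc 0 κ) := fun x _ =>
    (hasDerivAt_FF hn h x).continuousAt.continuousWithinAt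
  have h0 : FF n Z Z1 0 = 0 := by
    unfold FF cF wF bF
    rw [h.zero]
    norm_num
  exact image_le_of_deriv_right_lt_deriv_boundary (f := FF n Z Z1) (f' := Fp n Z Z1 Z2)
    (B := fun _ => (0 : ℝ)) (B' := fun _ => (0 : ℝ)) hcont
    (fun x _ => (hasDerivAt_FF hn h x).hasDerivWithinAt) h0.le
    (fun x => hasDerivAt_const x (0 : ℝ))
    (fun x hx hF => by
      rcases hx.1.eq_or_lt with h1 | h1
      · rw [← h1]
        exact Fp_zero hn h
      · exact Fp_neg hn h h1 hF) (right_mem_Icc.mpr hκ)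

private theorem FF_neg (hn : 2 ≤ n) (h : Bes n Z Z1 Z2) {κ : ℝ} (hκ : 0 < κ) : FF n Z Z1 κ < 0 := by
  refine lt_of_le_of_ne (FF_le hn h hκ.le) ?_
  intro h0
  have h1 : IsLocalMax (FF n Z Z1) κ := by
    filter_upwards [lt_mem_nhds hκ] with x hx
    rw [h0]
    exact FF_le hn h (le_of_lt hx)
  have h2 := h1.hasDerivAt_eq_zero (hasDerivAt_FF hn h κ)
  have h3 := Fp_neg hn h hκ h0
  linarith

end aux

theorem bes_beta {n : ℕ} (hn : 2 ≤ n) {Z Z1 Z2 : ℝ → ℝ} (h : Bes n Z Z1 Z2) {κ : ℝ} (hκ : 0 < κ) :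
    0 < 2 * κ * (1 - Z1 κ / Z κ) / n ∧ 2 * κ * (1 - Z1 κ / Z κ) / n < 1 :=
  ⟨bF_pos hn h hκ, bF_lt hn h hκ.le⟩

theorem bes_bar {n : ℕ} (hn : 2 ≤ n) {Z Z1 Z2 : ℝ → ℝ} (h : Bes n Z Z1 Z2) {κ c β w : ℝ} (hκ : 0 < κ)
    (hc : c = 1 - Z1 κ / Z κ) (hβ : β = 2 * κ * c / n) (hw : w = 1 + (1 - β) ^ 2) :
    c * (2 - β - 2 * β / (n * w)) - 2 * (1 - β) < 0 := by
  subst hw hβ hc
  exact FF_neg hn h hκ

theorem bes_main {n : ℕ} (hn : 2 ≤ n) {Z Z1 Z2 : ℝ → ℝ} (h : Bes n Z Z1 Z2) {κ : ℝ} (hκ : 0 < κ) :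
    κ * (Z1 κ / Z κ) - Real.log (Z κ) ≤ n * JJ (2 * κ * (1 - Z1 κ / Z κ) / n) := by
  have hn0 : (0 : ℝ) < n := by exact_mod_cast (by omega : 0 < n)
  have hd : ∀ x : ℝ, 0 ≤ x → HasDerivAt
      (fun x => n * JJ (bF n Z Z1 x) - (x * (1 - cF Z Z1 x) - Real.log (Z x)))
      (n * (J1 (bF n Z Z1 x) * bp n Z Z1 Z2 x) + x * cp Z Z1 Z2 x) x := by
    intro x hx
    have h1 := ((hasDerivAt_JJ (bF_lt hn h hx)).comp x (hasDerivAt_bF h x)).const_mul (n : ℝ)
    have h2 := ((hasDerivAt_id x).mul ((hasDerivAt_cF h x).const_sub 1)).sub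
      ((h.d1 x).log (h.pos x).ne')
    refine (h1.sub h2).congr_deriv ?_
    simp only [id]
    unfold cF
    ring
  have hmono : MonotoneOn (fun x => n * JJ (bF n Z Z1 x) - (x * (1 - cF Z Z1 x) - Real.log (Z x)))
      (Ici 0) := by
    apply monotoneOn_of_deriv_nonneg (convex_Ici 0)
    · intro x hx
      exact (hd x hx).continuousAt.continuousWithinAt
    · intro x hx
      rw [interior_Ici] at hx
      exact (hd x (le_of_lt hx)).differentiableAt.differentiableWithinAt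
    · intro x hx
      rw [interior_Ici] at hx
      have hx0 : 0 < x := hx
      rw [(hd x hx0.le).deriv]
      have hb0 := bF_pos hn h hx0
      have hb1 := bF_lt hn h hx0.le
      have hc0 := cF_pos h x
      have hw0 := wF_pos (n := n) (Z := Z) (Z1 := Z1) x
      have hk := kcp (by omega) h x
      have hF := FF_le hn h hx0.le
      have hwe : wF n Z Z1 x = 1 + (1 - bF n Z Z1 x) ^ 2 := rfl
      have hF' : cF Z Z1 x * (2 - bF n Z Z1 x - 2 * bF n Z Z1 x / (n * wF n Z Z1 x)) -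
        2 * (1 - bF n Z Z1 x) ≤ 0 := hF
      unfold bp J1
      generalize bF n Z Z1 x = b at *
      generalize cF Z Z1 x = c at *
      generalize wF n Z Z1 x = w at *
      generalize hx : x * cp Z Z1 Z2 x = y at *
      have h1b : 0 < 1 - b := by linarith
      have h2b : 0 < 2 - b := by linarith
      have e1 : (n : ℝ) * (b / (2 * (1 - b) * (2 - b)) * (2 * (c + y) / n)) + y =
          (b * c + w * y) / ((1 - b) * (2 - b)) := by
        rw [hwe]
        field_simp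
        ring
      rw [e1]
      apply div_nonneg _ (by positivity)
      have e2 : b * (2 - c) - 2 * (1 - c) ≤ 2 * b * c / (n * w) := by
        have e : c * (2 * b / (n * w)) = 2 * b * c / (n * w) := by ring
        linarith
      have e3 : n / 2 * (b * (2 - c) - 2 * (1 - c)) ≤ b * c / w := by
        have := mul_le_mul_of_nonneg_left e2 (by positivity : 0 ≤ (n : ℝ) / 2)
        refine this.trans (le_of_eq ?_)
        field_simp
      have e4 : w * (n / 2 * (b * (2 - c) - 2 * (1 - c))) ≤ b * c := by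
        have := mul_le_mul_of_nonneg_left e3 hw0.le
        refine this.trans (le_of_eq ?_)
        field_simp
      rw [hk]
      linarith
  have h3 := hmono (mem_Ici.mpr (le_refl (0 : ℝ))) (mem_Ici.mpr hκ.le) hκ.le
  have e0 : bF n Z Z1 0 = 0 := by
    unfold bF
    simp
  simp only [e0, JJ_zero, h.one, Real.log_one] at h3
  norm_num at h3
  have e5 : cF Z Z1 κ = 1 - Z1 κ / Z κ := rfl
  have e6 : bF n Z Z1 κ = 2 * κ * (1 - Z1 κ / Z κ) / n := rfl
  rw [e5, e6] at h3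
  linarith [h3]

end Pool.Agent.Lib.MP_6cd19d_an.HP
end

section

/-!
# Mellin comparison and energies

`en_eq`: for `s > 0`, `t > 0`: `t^(-s) = Γ(s/2)^{-1} ∫_0^∞ λ^(s/2-1) exp(-λ t^2) dλ`
(`Real.integral_rpow_mul_exp_neg_mul_Ioi`), and for `t = 0` both sides are `⊤`; integrate (Tonelli).

`log_eq`: for `0 < t ≤ D`: `log (D/t) = (1/2) ∫_0^∞ (exp(-λ t^2) - exp(-λ D^2))/λ dλ` (Frullani; e.g. from
`(exp(-λ t^2) - exp(-λ D^2))/λ = ∫_{t^2}^{D^2} exp(-λ v) dv` and Tonelli), and for `t = 0` both sides are `⊤`; integrate.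

`mellin_pos`: let `λ*` be the infimum of the set `S = {g2 ≤ g1}` (upward closed; if it is empty or everything use a limiting
argument or treat the cases directly: if `S` is everything then equality of the finite integrals forces `g1 = g2` almost
everywhere; if `S` is empty likewise the integrals could not be equal).  Then
`(λ^(-(q-p)/2) - λ*^(-(q-p)/2)) (g1 - g2) ≤ 0` for all `λ`; multiply by `λ^(q/2-1)` and integrate.
-/

set_option autoImplicit false

open MeasureTheory ProbabilityTheory Set Filter Topology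
open scoped ENNReal NNReal

namespace Pool.Agent.Lib.MP_6cd19d_an.HP

open Pool.Agent.Lib.MP_6cd19d_an.ND

variable {n : ℕ}

private theorem D1_gamma {a r : ℝ} (ha : 0 < a) (hr : 0 < r) :
    ∫⁻ l in Ioi (0 : ℝ), ENNReal.ofReal (l ^ (a - 1) * Real.exp (-l * r)) =
      ENNReal.ofReal ((1 / r) ^ a * Real.Gamma a) := by
  have h := Real.integral_rpow_mul_exp_neg_mul_Ioi ha hr
  have he : (fun l : ℝ => l ^ (a - 1) * Real.exp (-l * r)) =
      fun l : ℝ => l ^ (a - 1) * Real.exp (-(r * l)) := by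
    funext l
    congr 2
    ring
  have hpos : 0 < (1 / r) ^ a * Real.Gamma a :=
    mul_pos (Real.rpow_pos_of_pos (by positivity) _) (Real.Gamma_pos_of_pos ha)
  have hint : Integrable (fun l : ℝ => l ^ (a - 1) * Real.exp (-l * r))
      (volume.restrict (Ioi (0 : ℝ))) := by
    rw [he]
    by_contra hcon
    rw [integral_undef hcon] at h
    linarith
  rw [← ofReal_integral_eq_lintegral_ofReal hint, he, h]
  filter_upwards [ae_restrict_mem measurableSet_Ioi] with l hl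
  have hl' : (0 : ℝ) < l := hl
  show (0 : ℝ) ≤ l ^ (a - 1) * Real.exp (-l * r)
  positivity

private theorem D1_gamma_zero (a : ℝ) :
    ∫⁻ l in Ioi (0 : ℝ), ENNReal.ofReal (l ^ (a - 1)) = ⊤ := by
  by_contra hcon
  apply not_integrableOn_Ioi_rpow (a - 1)
  refine ⟨(by fun_prop : Measurable fun l : ℝ => l ^ (a - 1)).aestronglyMeasurable, ?_⟩
  rw [hasFiniteIntegral_iff_ofReal]
  · exact lt_top_iff_ne_top.2 hcon
  · filter_upwards [ae_restrict_mem measurableSet_Ioi] with l hl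
    have hl' : (0 : ℝ) < l := hl
    show (0 : ℝ) ≤ l ^ (a - 1)
    positivity

private theorem D1_kernel {s : ℝ} (hs : 0 < s) (x y : E n) :
    (edist x y) ^ (-s) = ENNReal.ofReal (Real.Gamma (s / 2))⁻¹ *
      ∫⁻ l in Ioi (0 : ℝ), ENNReal.ofReal (l ^ (s / 2 - 1) * Real.exp (-l * ‖x - y‖ ^ 2)) := by
  have hG : 0 < Real.Gamma (s / 2) := Real.Gamma_pos_of_pos (by linarith)
  by_cases hxy : x = y
  · subst hxy
    have h1 : ∀ l : ℝ, l ^ (s / 2 - 1) * Real.exp (-l * ‖x - x‖ ^ 2) = l ^ (s / 2 - 1) := by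
      intro l
      simp
    simp_rw [h1]
    rw [D1_gamma_zero, edist_self, ENNReal.zero_rpow_of_neg (by linarith), ENNReal.mul_top]
    exact (ENNReal.ofReal_pos.2 (inv_pos.2 hG)).ne'
  · have ht : 0 < ‖x - y‖ := norm_pos_iff.2 (sub_ne_zero.2 hxy)
    rw [D1_gamma (by linarith) (by positivity), edist_dist, dist_eq_norm,
      ENNReal.ofReal_rpow_of_pos ht, ← ENNReal.ofReal_mul (inv_pos.2 hG).le]
    congr 1
    have h1 : (1 / ‖x - y‖ ^ 2) ^ (s / 2) = ‖x - y‖ ^ (-s) := by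
      rw [one_div, ← Real.rpow_natCast, ← Real.rpow_neg ht.le, ← Real.rpow_mul ht.le]
      congr 1
      push_cast
      ring
    rw [h1]
    field_simp

private theorem D1_Kint (μ : Measure (E n)) [IsProbabilityMeasure μ] {l : ℝ} (hl : 0 < l) :
    Integrable (fun z : E n × E n => Real.exp (-l * ‖z.1 - z.2‖ ^ 2)) (μ.prod μ) := by
  refine Integrable.of_bound (by fun_prop) 1 (Eventually.of_forall fun z => ?_)
  rw [Real.norm_eq_abs, abs_of_pos (Real.exp_pos _)]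
  apply Real.exp_le_one_iff.2
  have : 0 ≤ l * ‖z.1 - z.2‖ ^ 2 := by positivity
  linarith

private theorem D1_gz (μ : Measure (E n)) [IsProbabilityMeasure μ] {l : ℝ} (hl : 0 < l) :
    gz μ l = ∫ z, Real.exp (-l * ‖z.1 - z.2‖ ^ 2) ∂(μ.prod μ) := by
  unfold gz
  exact (integral_prod _ (D1_Kint μ hl)).symm

private theorem D1_frul {t D : ℝ} (ht : 0 ≤ t) (htD : t ≤ D) :
    ∫⁻ l in Ioi (0 : ℝ), ENNReal.ofReal ((Real.exp (-l * t ^ 2) - Real.exp (-l * D ^ 2)) / l) =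
      ∫⁻ v in Ioc (t ^ 2) (D ^ 2), ENNReal.ofReal (v⁻¹) := by
  have hab : t ^ 2 ≤ D ^ 2 := by nlinarith
  have h1 : ∀ l ∈ Ioi (0 : ℝ),
      ENNReal.ofReal ((Real.exp (-l * t ^ 2) - Real.exp (-l * D ^ 2)) / l) =
        ∫⁻ v in Ioc (t ^ 2) (D ^ 2), ENNReal.ofReal (Real.exp (-l * v)) := by
    intro l hl
    have hl' : (0 : ℝ) < l := hl
    have hder : ∀ v : ℝ, HasDerivAt (fun v => -(Real.exp (-l * v)) / l) (Real.exp (-l * v)) v := by
      intro v
      have e := (((hasDerivAt_id v).const_mul (-l)).exp.neg).div_const l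
      convert! e using 1
      simp only [id_eq, mul_one]
      field_simp
    have hcont : Continuous fun v : ℝ => Real.exp (-l * v) := by fun_prop
    have h2 := intervalIntegral.integral_eq_sub_of_hasDerivAt (a := t ^ 2) (b := D ^ 2)
      (fun v _ => hder v) (hcont.intervalIntegrable _ _)
    rw [intervalIntegral.integral_of_le hab] at h2
    rw [← ofReal_integral_eq_lintegral_ofReal, h2]
    · congr 1
      ring
    · exact (hcont.integrableOn_Icc (a := t ^ 2) (b := D ^ 2)).mono_set Ioc_subset_Icc_self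
    · exact Eventually.of_forall fun v => (Real.exp_pos _).le
  rw [setLIntegral_congr_fun measurableSet_Ioi h1, lintegral_lintegral_swap
    (by fun_prop : Measurable _).aemeasurable]
  refine setLIntegral_congr_fun measurableSet_Ioc fun v hv => ?_
  have hv' : 0 < v := lt_of_le_of_lt (by positivity) hv.1
  have h3 := D1_gamma (a := 1) one_pos hv'
  simp only [sub_self, Real.rpow_zero, one_mul, Real.rpow_one, Real.Gamma_one, mul_one,
    one_div] at h3
  exact h3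

private theorem D1_log {t D : ℝ} (hD : 0 < D) (ht : 0 ≤ t) (htD : t ≤ D) :
    (if t = 0 then (⊤ : ℝ≥0∞) else ENNReal.ofReal (Real.log (D / t))) =
      ENNReal.ofReal (1 / 2) * ∫⁻ l in Ioi (0 : ℝ),
        ENNReal.ofReal ((Real.exp (-l * t ^ 2) - Real.exp (-l * D ^ 2)) / l) := by
  have hab : t ^ 2 ≤ D ^ 2 := by nlinarith
  rw [D1_frul ht htD]
  by_cases h0 : t = 0
  · rw [if_pos h0, h0]
    have htop : ∫⁻ v in Ioc ((0 : ℝ) ^ 2) (D ^ 2), ENNReal.ofReal (v⁻¹) = ⊤ := by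
      by_contra hcon
      have hii : IntervalIntegrable (fun v : ℝ => v⁻¹) volume (0 ^ 2) (D ^ 2) := by
        rw [intervalIntegrable_iff_integrableOn_Ioc_of_le (by
          rw [zero_pow two_ne_zero]; exact sq_nonneg D)]
        refine ⟨(by fun_prop : Measurable fun v : ℝ => v⁻¹).aestronglyMeasurable, ?_⟩
        rw [hasFiniteIntegral_iff_ofReal]
        · exact lt_top_iff_ne_top.2 hcon
        · filter_upwards [ae_restrict_mem measurableSet_Ioc] with v hv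
          have hv' : 0 < v := lt_of_le_of_lt (by positivity) hv.1
          show (0 : ℝ) ≤ v⁻¹
          positivity
      rw [intervalIntegrable_inv_iff] at hii
      rcases hii with h | h
      · have : 0 < D ^ 2 := by positivity
        simp only [ne_eq, OfNat.ofNat_ne_zero, not_false_eq_true, zero_pow] at h
        linarith
      · apply h
        simp only [ne_eq, OfNat.ofNat_ne_zero, not_false_eq_true, zero_pow]
        exact left_mem_uIcc
    rw [htop, ENNReal.mul_top]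
    exact (ENNReal.ofReal_pos.2 (by norm_num)).ne'
  · have ht' : 0 < t := lt_of_le_of_ne ht (Ne.symm h0)
    rw [if_neg h0]
    have hi := integral_inv_of_pos (a := t ^ 2) (b := D ^ 2) (by positivity) (by positivity)
    rw [intervalIntegral.integral_of_le hab] at hi
    rw [← ofReal_integral_eq_lintegral_ofReal, hi, ← ENNReal.ofReal_mul (by norm_num)]
    · congr 1
      rw [← div_pow, Real.log_pow]
      push_cast
      ring
    · have hii : IntervalIntegrable (fun v : ℝ => v⁻¹) volume (t ^ 2) (D ^ 2) := by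
        rw [intervalIntegrable_inv_iff]
        right
        rw [uIcc_of_le hab]
        intro h
        have : 0 < t ^ 2 := by positivity
        linarith [h.1]
      rw [intervalIntegrable_iff_integrableOn_Ioc_of_le hab] at hii
      exact hii
    · filter_upwards [ae_restrict_mem measurableSet_Ioc] with v hv
      have hv' : 0 < v := lt_of_le_of_lt (by positivity) hv.1
      show (0 : ℝ) ≤ v⁻¹
      positivity

theorem en_eq {μ : Measure (E n)} [IsProbabilityMeasure μ] {s : ℝ} (hs : 0 < s) :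
    en s μ = ENNReal.ofReal (Real.Gamma (s / 2))⁻¹ *
      ∫⁻ l in Ioi (0 : ℝ), ENNReal.ofReal (l ^ (s / 2 - 1) * gz μ l) := by
  have hsf : SFinite (volume.restrict (Ioi (0 : ℝ))) := inferInstance
  unfold en
  simp_rw [D1_kernel hs]
  have hm : Measurable (fun q : (E n × E n) × ℝ =>
      ENNReal.ofReal (q.2 ^ (s / 2 - 1) * Real.exp (-q.2 * ‖q.1.1 - q.1.2‖ ^ 2))) := by
    fun_prop
  have hm2 : Measurable (fun z : E n × E n => ENNReal.ofReal (Real.Gamma (s / 2))⁻¹ *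
      ∫⁻ l in Ioi (0 : ℝ), ENNReal.ofReal (l ^ (s / 2 - 1) * Real.exp (-l * ‖z.1 - z.2‖ ^ 2))) :=
    (hm.lintegral_prod_right').const_mul _
  rw [← lintegral_prod (f := fun z : E n × E n => ENNReal.ofReal (Real.Gamma (s / 2))⁻¹ *
      ∫⁻ l in Ioi (0 : ℝ), ENNReal.ofReal (l ^ (s / 2 - 1) * Real.exp (-l * ‖z.1 - z.2‖ ^ 2)))
      hm2.aemeasurable, lintegral_const_mul' _ _ ENNReal.ofReal_ne_top]
  congr 1
  rw [lintegral_lintegral_swap hm.aemeasurable]
  refine setLIntegral_congr_fun measurableSet_Ioi fun l hl => ?_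
  have hl' : (0 : ℝ) < l := hl
  rw [D1_gz μ hl', ← integral_const_mul, ofReal_integral_eq_lintegral_ofReal
    ((D1_Kint μ hl').const_mul _)]
  exact Eventually.of_forall fun z => by
    show (0 : ℝ) ≤ l ^ (s / 2 - 1) * Real.exp (-l * ‖z.1 - z.2‖ ^ 2)
    positivity

theorem log_eq {μ : Measure (E n)} [IsProbabilityMeasure μ] {D : ℝ} (hD : 0 < D)
    (hμ : ∀ᵐ x ∂μ, ∀ᵐ y ∂μ, dist x y ≤ D) :
    ∫⁻ x, ∫⁻ y, (if x = y then (⊤ : ℝ≥0∞) else ENNReal.ofReal (Real.log (D / dist x y))) ∂μ ∂μ =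
      ENNReal.ofReal (1 / 2) *
        ∫⁻ l in Ioi (0 : ℝ), ENNReal.ofReal ((gz μ l - Real.exp (-l * D ^ 2)) / l) := by
  have hsf : SFinite (volume.restrict (Ioi (0 : ℝ))) := inferInstance
  have hmE : MeasurableSet {z : E n × E n | z.1 = z.2} :=
    measurableSet_eq_fun measurable_fst measurable_snd
  have hm0 : Measurable (fun z : E n × E n => if z.1 = z.2 then (⊤ : ℝ≥0∞)
      else ENNReal.ofReal (Real.log (D / dist z.1 z.2))) := by
    refine Measurable.ite hmE measurable_const ?_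
    exact ENNReal.measurable_ofReal.comp (Real.measurable_log.comp (by fun_prop))
  have hae : ∀ᵐ z ∂(μ.prod μ), dist z.1 z.2 ≤ D := by
    have hms : MeasurableSet {z : E n × E n | dist z.1 z.2 ≤ D} :=
      measurableSet_le (by fun_prop) measurable_const
    exact (Measure.ae_prod_iff_ae_ae hms).2 hμ
  rw [← lintegral_prod (f := fun z : E n × E n => if z.1 = z.2 then (⊤ : ℝ≥0∞)
      else ENNReal.ofReal (Real.log (D / dist z.1 z.2))) hm0.aemeasurable]
  have hpt : ∀ᵐ z ∂(μ.prod μ), (if z.1 = z.2 then (⊤ : ℝ≥0∞)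
      else ENNReal.ofReal (Real.log (D / dist z.1 z.2))) = ENNReal.ofReal (1 / 2) *
        ∫⁻ l in Ioi (0 : ℝ), ENNReal.ofReal
          ((Real.exp (-l * ‖z.1 - z.2‖ ^ 2) - Real.exp (-l * D ^ 2)) / l) := by
    filter_upwards [hae] with z hz
    rw [dist_eq_norm] at hz ⊢
    rw [← D1_log hD (norm_nonneg _) hz]
    congr 1
    rw [norm_eq_zero, sub_eq_zero]
  have hm : Measurable (fun q : (E n × E n) × ℝ => ENNReal.ofReal
      ((Real.exp (-q.2 * ‖q.1.1 - q.1.2‖ ^ 2) - Real.exp (-q.2 * D ^ 2)) / q.2)) := by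
    fun_prop
  rw [lintegral_congr_ae hpt, lintegral_const_mul' _ _ ENNReal.ofReal_ne_top]
  congr 1
  rw [lintegral_lintegral_swap hm.aemeasurable]
  refine setLIntegral_congr_fun measurableSet_Ioi fun l hl => ?_
  have hl' : (0 : ℝ) < l := hl
  have hi : Integrable (fun z : E n × E n =>
      (Real.exp (-l * ‖z.1 - z.2‖ ^ 2) - Real.exp (-l * D ^ 2)) / l) (μ.prod μ) :=
    ((D1_Kint μ hl').sub (integrable_const _)).div_const l
  rw [← ofReal_integral_eq_lintegral_ofReal hi]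
  · congr 1
    rw [integral_div, integral_sub (D1_Kint μ hl') (integrable_const _), ← D1_gz μ hl']
    simp
  · filter_upwards [hae] with z hz
    show (0 : ℝ) ≤ (Real.exp (-l * ‖z.1 - z.2‖ ^ 2) - Real.exp (-l * D ^ 2)) / l
    rw [dist_eq_norm] at hz
    apply div_nonneg _ hl'.le
    rw [sub_nonneg]
    apply Real.exp_le_exp.2
    have h1 : ‖z.1 - z.2‖ ^ 2 ≤ D ^ 2 := pow_le_pow_left₀ (norm_nonneg _) hz 2
    nlinarith

/-- Mellin comparison, positive exponents (real integrals). -/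
theorem mellin_pos {g1 g2 : ℝ → ℝ} {p q : ℝ} (hpq : p < q)
    (hcr : ∀ l0 l1 : ℝ, 0 < l0 → l0 ≤ l1 → g2 l0 ≤ g1 l0 → g2 l1 ≤ g1 l1)
    (hi : IntegrableOn (fun l => l ^ (q / 2 - 1) * (g1 l - g2 l)) (Ioi 0))
    (hi' : IntegrableOn (fun l => l ^ (p / 2 - 1) * (g1 l - g2 l)) (Ioi 0))
    (heq : ∫ l in Ioi (0 : ℝ), l ^ (q / 2 - 1) * (g1 l - g2 l) = 0) :
    ∫ l in Ioi (0 : ℝ), l ^ (p / 2 - 1) * (g1 l - g2 l) ≤ 0 := by
  have hw : ∀ l : ℝ, 0 < l → l ^ (p / 2 - 1) * (g1 l - g2 l) =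
      l ^ (-((q - p) / 2)) * (l ^ (q / 2 - 1) * (g1 l - g2 l)) := by
    intro l hl
    rw [← mul_assoc, ← Real.rpow_add hl]
    congr 2
    ring
  by_cases hS : ∃ l0, 0 < l0 ∧ g1 l0 < g2 l0
  · obtain ⟨l0, hl0, h0⟩ := hS
    by_cases hS2 : ∃ l1, 0 < l1 ∧ g2 l1 ≤ g1 l1
    · obtain ⟨l1, hl1, h1⟩ := hS2
      set S : Set ℝ := {l | 0 < l ∧ g2 l ≤ g1 l} with hSd
      have hne : S.Nonempty := ⟨l1, hl1, h1⟩
      have hlow : ∀ l ∈ S, l0 ≤ l := by
        intro l hl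
        by_contra hcon
        have := hcr l l0 hl.1 (not_le.1 hcon).le hl.2
        linarith
      set m := sInf S with hmd
      have hm : l0 ≤ m := le_csInf hne hlow
      have hm0 : 0 < m := lt_of_lt_of_le hl0 hm
      have hbdd : BddBelow S := ⟨l0, hlow⟩
      have hpt : ∀ l ∈ Ioi (0 : ℝ), l ^ (p / 2 - 1) * (g1 l - g2 l) ≤
          m ^ (-((q - p) / 2)) * (l ^ (q / 2 - 1) * (g1 l - g2 l)) := by
        intro l hl
        have hl' : (0 : ℝ) < l := hl
        rw [hw l hl']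
        have hlq : 0 < l ^ (q / 2 - 1) := Real.rpow_pos_of_pos hl' _
        rcases le_or_gt m l with hml | hml
        · rcases eq_or_lt_of_le hml with heq' | hlt
          · rw [heq']
          · obtain ⟨l2, hl2S, hl2⟩ := exists_lt_of_csInf_lt hne hlt
            have h3 := hcr l2 l hl2S.1 hl2.le hl2S.2
            have hle : l ^ (-((q - p) / 2)) ≤ m ^ (-((q - p) / 2)) :=
              Real.rpow_le_rpow_of_nonpos hm0 hml (by linarith)
            exact mul_le_mul_of_nonneg_right hle (mul_nonneg hlq.le (by linarith))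
        · have hnS : ¬ g2 l ≤ g1 l := fun hh =>
            absurd (csInf_le hbdd (show l ∈ S from ⟨hl', hh⟩)) (not_le.2 hml)
          have hle : m ^ (-((q - p) / 2)) ≤ l ^ (-((q - p) / 2)) :=
            Real.rpow_le_rpow_of_nonpos hl' hml.le (by linarith)
          exact mul_le_mul_of_nonpos_right hle
            (mul_nonpos_of_nonneg_of_nonpos hlq.le (by linarith [not_le.1 hnS]))
      calc ∫ l in Ioi (0 : ℝ), l ^ (p / 2 - 1) * (g1 l - g2 l)
          ≤ ∫ l in Ioi (0 : ℝ), m ^ (-((q - p) / 2)) * (l ^ (q / 2 - 1) * (g1 l - g2 l)) :=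
            setIntegral_mono_on hi' (hi.const_mul _) measurableSet_Ioi hpt
        _ = 0 := by rw [integral_const_mul, heq, mul_zero]
        _ ≤ 0 := le_rfl
    · refine setIntegral_nonpos measurableSet_Ioi fun l hl => ?_
      have hl' : (0 : ℝ) < l := hl
      have h2 : g1 l < g2 l := by
        by_contra hcon
        exact hS2 ⟨l, hl', not_lt.1 hcon⟩
      exact mul_nonpos_of_nonneg_of_nonpos (Real.rpow_nonneg hl'.le _) (by linarith)
  · have hge : ∀ l : ℝ, 0 < l → g2 l ≤ g1 l := by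
      intro l hl
      by_contra hcon
      exact hS ⟨l, hl, not_le.1 hcon⟩
    have hnn : 0 ≤ᵐ[volume.restrict (Ioi (0 : ℝ))] fun l => l ^ (q / 2 - 1) * (g1 l - g2 l) := by
      filter_upwards [ae_restrict_mem measurableSet_Ioi] with l hl
      have hl' : (0 : ℝ) < l := hl
      exact mul_nonneg (Real.rpow_nonneg hl'.le _) (sub_nonneg.2 (hge l hl'))
    have hz := (integral_eq_zero_iff_of_nonneg_ae hnn hi).1 heq
    have hz2 : ∫ l in Ioi (0 : ℝ), l ^ (p / 2 - 1) * (g1 l - g2 l) = 0 := by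
      apply integral_eq_zero_of_ae
      filter_upwards [hz, ae_restrict_mem measurableSet_Ioi] with l hl hl2
      rw [hw l hl2, hl]
      simp
    exact hz2.le

end Pool.Agent.Lib.MP_6cd19d_an.HP
end
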