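import Pool.Agent.Lib.MP_6cd19d_an.ND.B19c

/-!
# MP_6cd19d_an, part HP: the ball of one dimension more (definitions)

For a symmetric matrix `p` with positive entries, `LL` and `HH` are (total mass times) the entropy functionals; `HH p`
is `N` times the mutual information of the coupling `p / N`.  `JJ` is the comparison function, `J1`, `J2` its derivatives,
`ch b = b * J1 b`, `ch1` its derivative.  `tl` is the Gaussian tilt.  `gz`, `gm` are the Gaussian energies of a measure on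
`E n` (`gm` is minus the derivative of `gz` in `l`).
-/

set_option autoImplicit false

open MeasureTheory ProbabilityTheory Set Filter Topology
open scoped ENNReal NNReal

namespace Pool.Agent.Lib.MP_6cd19d_an.HP

open Pool.Agent.Lib.MP_6cd19d_an.ND

/-- The comparison function. -/
noncomputable def JJ (b : ℝ) : ℝ := Real.log (1 - b / 2) - Real.log (1 - b) / 2

/-- The derivative of `JJ`. -/
noncomputable def J1 (b : ℝ) : ℝ := b / (2 * (1 - b) * (2 - b))

/-- The derivative of `J1`. -/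
noncomputable def J2 (b : ℝ) : ℝ := (2 - b ^ 2) / (2 * (1 - b) ^ 2 * (2 - b) ^ 2)

/-- `b * J1 b`. -/
noncomputable def ch (b : ℝ) : ℝ := b ^ 2 / (2 * (1 - b) * (2 - b))

/-- The derivative of `ch`. -/
noncomputable def ch1 (b : ℝ) : ℝ := J1 b + b * J2 b

section
variable {ι : Type*} [Fintype ι]

/-- `∑ p log p - N log N`, `N = ∑ p`. -/
noncomputable def LL (p : ι → ℝ) : ℝ :=
  ∑ i, p i * Real.log (p i) - (∑ i, p i) * Real.log (∑ i, p i)

/-- `N` times the mutual information of a symmetric coupling: `∑ p log p - 2 ∑ p_i log p_i + N log N`. -/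
noncomputable def HH (p : ι → ι → ℝ) : ℝ :=
  2 * ∑ i, LL (p i) - LL (fun z : ι × ι => p z.1 z.2)

/-- `N` times the variance of `s` under `p / N`. -/
noncomputable def VV (p s : ι → ℝ) : ℝ :=
  ∑ i, p i * s i ^ 2 - (∑ i, p i * s i) ^ 2 / ∑ i, p i

end

/-- The Gaussian tilt. -/
noncomputable def tl (s r g : ℝ) : ℝ := Real.exp (r * s * g - r ^ 2 * s ^ 2 / 2)

/-- The standard Gaussian measure. -/
noncomputable abbrev ga : Measure ℝ := gaussianReal 0 1

/-- The Gaussian energy. -/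
noncomputable def gz {n : ℕ} (μ : Measure (E n)) (l : ℝ) : ℝ :=
  ∫ x, ∫ y, Real.exp (-l * ‖x - y‖ ^ 2) ∂μ ∂μ

/-- Minus the derivative of the Gaussian energy. -/
noncomputable def gm {n : ℕ} (μ : Measure (E n)) (l : ℝ) : ℝ :=
  ∫ x, ∫ y, ‖x - y‖ ^ 2 * Real.exp (-l * ‖x - y‖ ^ 2) ∂μ ∂μ

/-- The modified Bessel function of the sphere `S^n`: `Z` is even, `κ (Z - Z'') = n Z'`. -/
structure Bes (n : ℕ) (Z Z1 Z2 : ℝ → ℝ) : Prop where
  d1 : ∀ κ, HasDerivAt Z (Z1 κ) κ
  d2 : ∀ κ, HasDerivAt Z1 (Z2 κ) κ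
  cont : ContinuousAt Z2 0
  ode : ∀ κ, κ * (Z κ - Z2 κ) = n * Z1 κ
  pos : ∀ κ, 0 < Z κ
  one : Z 0 = 1
  zero : Z1 0 = 0
  two : Z2 0 = 1 / ((n : ℝ) + 1)
  z1 : ∀ κ, 0 < κ → 0 < Z1 κ
  lt : ∀ κ, Z1 κ < Z κ

end Pool.Agent.Lib.MP_6cd19d_an.HP
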