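import Pool.Agent.Lib.MP_6cd19d_an.HP.Defs
import Pool.Agent.Lib.MP_6cd19d_an.HP.A4
import Pool.Agent.Lib.MP_6cd19d_an.HP.D1
import Pool.Agent.Lib.MP_6cd19d_an.ND.C20
import Pool.Agent.Lib.MP_6cd19d_an.ND.B24

section

section

/-!
# All coordinates

`gauss_psd`: `exp(-l ∑_{k ∈ T} (x_i k - x_j k)^2)` has nonnegative quadratic form (induction on `T` with
`exp(-l(a-b)^2) = sqrt(4l/π) ∫ exp(-2l(a-z)^2) exp(-2l(b-z)^2) dz`, i.e. `psd_lemma`-like; or one Gaussian integral).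

`G_fin`: induction on `T`.  `T = ∅`: `p_ij = F_i F_j`, `HH p = 0`.  Step `insert k T`: `one_step` with
`A_ij = exp(-l ∑_{T} ...)`, `u_i = x_i k`; for each `g` the matrix `p_ij tl(u_i+u_j) (sqrt(2l)) g` is
`F'_i F'_j A_ij`, `F'_i = F_i exp(sqrt(2l) g u_i - 2 l u_i^2)`, so the induction hypothesis applies; integrate it
(`E tl = 1`, the right side is linear in the matrix).
-/

set_option autoImplicit false

open MeasureTheory ProbabilityTheory Set Filter Topology
open scoped ENNReal NNReal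

namespace Pool.Agent.Lib.MP_6cd19d_an.HP

open Pool.Agent.Lib.MP_6cd19d_an.ND

variable {ι : Type*} [Fintype ι] [Nonempty ι]

theorem gauss_psd {n : ℕ} (x : ι → Fin n → ℝ) {l : ℝ} (hl : 0 < l) (T : Finset (Fin n)) (y : ι → ℝ) :
    0 ≤ ∑ i, ∑ j, Real.exp (-l * ∑ k ∈ T, (x i k - x j k) ^ 2) * y i * y j := by
  classical
  revert y
  induction T using Finset.induction_on with
  | empty =>
    intro y
    have h : ∑ i, ∑ j, Real.exp (-l * ∑ k ∈ (∅ : Finset (Fin n)), (x i k - x j k) ^ 2) * y i * y j =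
        (∑ i, y i) * (∑ j, y j) := by
      rw [Finset.sum_mul_sum]
      apply Finset.sum_congr rfl
      intro i _
      apply Finset.sum_congr rfl
      intro j _
      simp
    rw [h]
    exact mul_self_nonneg _
  | insert k T hk ih =>
    intro y
    obtain ⟨c, hc⟩ : ∃ c : ℝ, ∀ i, 0 < x i k + c := by
      refine ⟨1 + ∑ j, |x j k|, fun i => ?_⟩
      have h1 : |x i k| ≤ ∑ j, |x j k| :=
        Finset.single_le_sum (f := fun j => |x j k|) (fun j _ => abs_nonneg _) (Finset.mem_univ i)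
      have h2 := neg_abs_le (x i k)
      linarith
    have h := psd_lemma ih (fun i => y i / (x i k + c)) (fun i => x i k + c) hl 0
    refine h.trans (le_of_eq ?_)
    apply Finset.sum_congr rfl
    intro i _
    apply Finset.sum_congr rfl
    intro j _
    have hi := (hc i).ne'
    have hj := (hc j).ne'
    rw [Finset.sum_insert hk]
    have e1 : Real.exp (-l * ((x i k - x j k) ^ 2 + ∑ k ∈ T, (x i k - x j k) ^ 2)) =
        Real.exp (-l * ∑ k ∈ T, (x i k - x j k) ^ 2) *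
          Real.exp (-l * (x i k + c - (x j k + c)) ^ 2) := by
      rw [← Real.exp_add]
      congr 1
      ring
    rw [e1]
    field_simp
    ring

private theorem HH_prod (F : ι → ℝ) (hF : ∀ i, 0 < F i) : HH (fun i j => F i * F j) = 0 := by
  have hS : 0 < ∑ i, F i := Finset.sum_pos (fun i _ => hF i) Finset.univ_nonempty
  have e1 : ∀ i, LL (fun j => F i * F j) =
      F i * (∑ j, F j * Real.log (F j) - (∑ j, F j) * Real.log (∑ j, F j)) := by
    intro i
    rw [LL, ← Finset.mul_sum, Real.log_mul (hF i).ne' hS.ne']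
    have : ∀ j, F i * F j * Real.log (F i * F j) =
        F i * Real.log (F i) * F j + F i * (F j * Real.log (F j)) := by
      intro j
      rw [Real.log_mul (hF i).ne' (hF j).ne']
      ring
    simp only [this]
    rw [Finset.sum_add_distrib, ← Finset.mul_sum, ← Finset.mul_sum]
    ring
  have e2 : LL (fun z : ι × ι => F z.1 * F z.2) =
      2 * ((∑ i, F i) * (∑ j, F j * Real.log (F j) - (∑ j, F j) * Real.log (∑ j, F j))) := by
    have e3 : ∑ z : ι × ι, F z.1 * F z.2 = (∑ i, F i) * ∑ i, F i := by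
      rw [Fintype.sum_prod_type, Finset.sum_mul_sum]
    rw [LL, e3, Real.log_mul hS.ne' hS.ne', Fintype.sum_prod_type]
    have : ∀ i, ∑ j, F i * F j * Real.log (F i * F j) =
        F i * Real.log (F i) * (∑ j, F j) + F i * ∑ j, (F j * Real.log (F j)) := by
      intro i
      rw [Finset.mul_sum, Finset.mul_sum, ← Finset.sum_add_distrib]
      apply Finset.sum_congr rfl
      intro j _
      rw [Real.log_mul (hF i).ne' (hF j).ne']
      ring
    simp only [this]
    rw [Finset.sum_add_distrib, ← Finset.sum_mul, ← Finset.sum_mul]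
    ring
  rw [HH]
  simp only [e1]
  rw [← Finset.sum_mul, e2]
  ring

theorem G_fin {n : ℕ} (x : ι → Fin n → ℝ) {l : ℝ} (hl : 0 < l) {b : ℝ} (hb0 : 0 ≤ b) (hb1 : b < 1)
    (T : Finset (Fin n)) :
    ∀ F : ι → ℝ, (∀ i, 0 < F i) → ∀ p : ι → ι → ℝ,
      (∀ i j, p i j = F i * F j * Real.exp (-l * ∑ k ∈ T, (x i k - x j k) ^ 2)) →
      (T.card : ℝ) * (JJ b - b * J1 b) * (∑ i, ∑ j, p i j) +
        2 * l * J1 b * (∑ i, ∑ j, p i j * ∑ k ∈ T, (x i k - x j k) ^ 2) ≤ HH p := by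
  classical
  induction T using Finset.induction_on with
  | empty =>
    intro F hF p hp
    have h : p = fun i j => F i * F j := by
      funext i j
      rw [hp]
      simp
    rw [h, HH_prod F hF]
    simp
  | insert k T hk ih =>
    intro F hF p hp
    obtain ⟨h1, h2⟩ := one_step (A := fun i j => Real.exp (-l * ∑ k ∈ T, (x i k - x j k) ^ 2))
      (gauss_psd x hl T) (fun i j => Real.exp_pos _)
      (fun i j => by
        congr 2
        apply Finset.sum_congr rfl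
        intro k _
        ring) hF (fun i => x i k) hl (p := p)
      (fun i j => by
        rw [hp, Finset.sum_insert hk, mul_add, Real.exp_add]
        ring) hb0 hb1
    have h3 : ∀ g : ℝ, (T.card : ℝ) * (JJ b - b * J1 b) *
        (∑ i, ∑ j, p i j * tl (x i k + x j k) (Real.sqrt (2 * l)) g) +
        2 * l * J1 b * (∑ i, ∑ j, p i j * tl (x i k + x j k) (Real.sqrt (2 * l)) g *
          ∑ k ∈ T, (x i k - x j k) ^ 2) ≤
        HH (fun i j => p i j * tl (x i k + x j k) (Real.sqrt (2 * l)) g) := by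
      intro g
      apply ih (fun i => F i * Real.exp (Real.sqrt (2 * l) * g * x i k - 2 * l * x i k ^ 2))
        (fun i => mul_pos (hF i) (Real.exp_pos _))
      intro i j
      rw [hp, Finset.sum_insert hk, tl]
      have hs : Real.sqrt (2 * l) ^ 2 = 2 * l := Real.sq_sqrt (by positivity)
      have e1 : F i * F j * Real.exp (-l * ((x i k - x j k) ^ 2 + ∑ k ∈ T, (x i k - x j k) ^ 2)) *
          Real.exp (Real.sqrt (2 * l) * (x i k + x j k) * g -
            Real.sqrt (2 * l) ^ 2 * (x i k + x j k) ^ 2 / 2) =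
          F i * F j * Real.exp (-l * ((x i k - x j k) ^ 2 + ∑ k ∈ T, (x i k - x j k) ^ 2) +
            (Real.sqrt (2 * l) * (x i k + x j k) * g -
            Real.sqrt (2 * l) ^ 2 * (x i k + x j k) ^ 2 / 2)) := by
        rw [Real.exp_add]
        ring
      have e2 : F i * Real.exp (Real.sqrt (2 * l) * g * x i k - 2 * l * x i k ^ 2) *
          (F j * Real.exp (Real.sqrt (2 * l) * g * x j k - 2 * l * x j k ^ 2)) *
          Real.exp (-l * ∑ k ∈ T, (x i k - x j k) ^ 2) =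
          F i * F j * Real.exp ((Real.sqrt (2 * l) * g * x i k - 2 * l * x i k ^ 2) +
            (Real.sqrt (2 * l) * g * x j k - 2 * l * x j k ^ 2) +
            -l * ∑ k ∈ T, (x i k - x j k) ^ 2) := by
        rw [Real.exp_add, Real.exp_add]
        ring
      rw [e1, e2, hs]
      congr 2
      ring
    have hint : ∀ i j, Integrable (fun g => p i j * tl (x i k + x j k) (Real.sqrt (2 * l)) g) ga :=
      fun i j => (integrable_tl _ _).const_mul _
    have hi1 : Integrable (fun g => ∑ i, ∑ j, p i j * tl (x i k + x j k) (Real.sqrt (2 * l)) g) ga :=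
      integrable_finsetSum _ fun i _ => integrable_finsetSum _ fun j _ => hint i j
    have hi2 : Integrable (fun g => ∑ i, ∑ j, p i j * tl (x i k + x j k) (Real.sqrt (2 * l)) g *
          ∑ k ∈ T, (x i k - x j k) ^ 2) ga :=
      integrable_finsetSum _ fun i _ => integrable_finsetSum _ fun j _ => (hint i j).mul_const _
    have e1 : ∫ g, ∑ i, ∑ j, p i j * tl (x i k + x j k) (Real.sqrt (2 * l)) g ∂ga =
        ∑ i, ∑ j, p i j := by
      rw [integral_finsetSum _ fun i _ => integrable_finsetSum _ fun j _ => hint i j]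
      apply Finset.sum_congr rfl
      intro i _
      rw [integral_finsetSum _ fun j _ => hint i j]
      apply Finset.sum_congr rfl
      intro j _
      rw [integral_const_mul, integral_tl, mul_one]
    have e2 : ∫ g, ∑ i, ∑ j, p i j * tl (x i k + x j k) (Real.sqrt (2 * l)) g *
          ∑ k ∈ T, (x i k - x j k) ^ 2 ∂ga =
        ∑ i, ∑ j, p i j * ∑ k ∈ T, (x i k - x j k) ^ 2 := by
      rw [integral_finsetSum _ fun i _ => integrable_finsetSum _ fun j _ => (hint i j).mul_const _]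
      apply Finset.sum_congr rfl
      intro i _
      rw [integral_finsetSum _ fun j _ => (hint i j).mul_const _]
      apply Finset.sum_congr rfl
      intro j _
      rw [integral_mul_const, integral_const_mul, integral_tl, mul_one]
    have h4 := integral_mono ((hi1.const_mul ((T.card : ℝ) * (JJ b - b * J1 b))).add
      (hi2.const_mul (2 * l * J1 b))) h1 h3
    have h5 : ∫ g, (fun g => (T.card : ℝ) * (JJ b - b * J1 b) *
        (∑ i, ∑ j, p i j * tl (x i k + x j k) (Real.sqrt (2 * l)) g)) g +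
        (fun g => 2 * l * J1 b * (∑ i, ∑ j, p i j * tl (x i k + x j k) (Real.sqrt (2 * l)) g *
          ∑ k ∈ T, (x i k - x j k) ^ 2)) g ∂ga = (T.card : ℝ) * (JJ b - b * J1 b) *
        (∑ i, ∑ j, p i j) + 2 * l * J1 b * (∑ i, ∑ j, p i j * ∑ k ∈ T, (x i k - x j k) ^ 2) := by
      rw [integral_add (hi1.const_mul _) (hi2.const_mul _), integral_const_mul, integral_const_mul,
        e1, e2]
    have h6 : ∑ i, ∑ j, p i j * ∑ k ∈ insert k T, (x i k - x j k) ^ 2 =
        (∑ i, ∑ j, p i j * (x i k - x j k) ^ 2) +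
          ∑ i, ∑ j, p i j * ∑ k ∈ T, (x i k - x j k) ^ 2 := by
      rw [← Finset.sum_add_distrib]
      apply Finset.sum_congr rfl
      intro i _
      rw [← Finset.sum_add_distrib]
      apply Finset.sum_congr rfl
      intro j _
      rw [Finset.sum_insert hk]
      ring
    rw [h6, Finset.card_insert_of_notMem hk]
    push_cast
    have h7 : (T.card : ℝ) * (JJ b - b * J1 b) *
        (∑ i, ∑ j, p i j) + 2 * l * J1 b * (∑ i, ∑ j, p i j * ∑ k ∈ T, (x i k - x j k) ^ 2) ≤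
        ∫ g, HH (fun i j => p i j * tl (x i k + x j k) (Real.sqrt (2 * l)) g) ∂ga :=
      h5.symm.le.trans h4
    linarith

/-- With weights: `gg_fin` is `G_fin` (`T = univ`, `F = m`) and
`-N log N - l M - HH p = 2 (∑ P_i log (P_i/m_i) - N log N) ≥ 0`, `P_i = ∑_j p_ij`, `∑ m_i = 1` (log sum inequality; here
`∑ p log p = 2 ∑ P_i log m_i - l M`). -/
theorem gg_fin {n : ℕ} (x : ι → E n) {m : ι → ℝ} (hm : ∀ i, 0 < m i) (hm1 : ∑ i, m i = 1) {l : ℝ} (hl : 0 < l)
    {b : ℝ} (hb0 : 0 ≤ b) (hb1 : b < 1) {N M : ℝ}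
    (hN : N = ∑ i, ∑ j, m i * m j * Real.exp (-l * ‖x i - x j‖ ^ 2))
    (hM : M = ∑ i, ∑ j, m i * m j * (‖x i - x j‖ ^ 2 * Real.exp (-l * ‖x i - x j‖ ^ 2))) :
    (n : ℝ) * (JJ b - b * J1 b) * N + 2 * l * J1 b * M ≤ -(N * Real.log N) - l * M := by
  have hD : ∀ i j, ‖x i - x j‖ ^ 2 = ∑ k, (x i k - x j k) ^ 2 := by
    intro i j
    rw [EuclideanSpace.norm_sq_eq]
    apply Finset.sum_congr rfl
    intro k _
    rw [PiLp.sub_apply, Real.norm_eq_abs, sq_abs]
  set p : ι → ι → ℝ := fun i j => m i * m j * Real.exp (-l * ‖x i - x j‖ ^ 2) with hp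
  have hp0 : ∀ i j, 0 < p i j := fun i j => mul_pos (mul_pos (hm i) (hm j)) (Real.exp_pos _)
  have hsym : ∀ i j, p i j = p j i := by
    intro i j
    simp only [hp]
    rw [norm_sub_rev, mul_comm (m i)]
  have h1 := G_fin (fun i k => x i k) hl hb0 hb1 Finset.univ m hm p (fun i j => by
    simp only [hp]
    rw [hD])
  rw [Finset.card_univ, Fintype.card_fin] at h1
  have hN' : N = ∑ i, ∑ j, p i j := hN
  have hM' : M = ∑ i, ∑ j, p i j * ∑ k, (x i k - x j k) ^ 2 := by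
    rw [hM]
    apply Finset.sum_congr rfl
    intro i _
    apply Finset.sum_congr rfl
    intro j _
    simp only [hp]
    rw [← hD]
    ring
  rw [← hN', ← hM'] at h1
  refine h1.trans ?_
  -- the entropy
  set P : ι → ℝ := fun i => ∑ j, p i j with hP
  have hP0 : ∀ i, 0 < P i := fun i => Finset.sum_pos (fun j _ => hp0 i j) Finset.univ_nonempty
  have hNP : N = ∑ i, P i := hN
  have hN0 : 0 < N := by
    rw [hNP]
    exact Finset.sum_pos (fun j _ => hP0 j) Finset.univ_nonempty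
  have e1 : ∑ i, ∑ j, p i j * Real.log (p i j) = 2 * ∑ i, P i * Real.log (m i) - l * M := by
    have e2 : ∀ i j, p i j * Real.log (p i j) = p i j * Real.log (m i) + p i j * Real.log (m j) -
        l * (p i j * ∑ k, (x i k - x j k) ^ 2) := by
      intro i j
      have : Real.log (p i j) = Real.log (m i) + Real.log (m j) + -l * ‖x i - x j‖ ^ 2 := by
        simp only [hp]
        rw [Real.log_mul (mul_pos (hm i) (hm j)).ne' (Real.exp_pos _).ne',
          Real.log_mul (hm i).ne' (hm j).ne', Real.log_exp]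
      rw [this, hD]
      ring
    simp only [e2, Finset.sum_sub_distrib, Finset.sum_add_distrib, ← Finset.mul_sum]
    rw [← hM']
    have e3 : ∑ i, ∑ j, p i j * Real.log (m i) = ∑ i, P i * Real.log (m i) := by
      apply Finset.sum_congr rfl
      intro i _
      rw [hP, Finset.sum_mul]
    have e4 : ∑ i, ∑ j, p i j * Real.log (m j) = ∑ i, P i * Real.log (m i) := by
      rw [Finset.sum_comm]
      apply Finset.sum_congr rfl
      intro i _
      rw [hP, Finset.sum_mul]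
      apply Finset.sum_congr rfl
      intro j _
      rw [hsym]
    rw [e3, e4]
    ring
  have e5 : HH p = ∑ i, ∑ j, p i j * Real.log (p i j) - 2 * ∑ i, P i * Real.log (P i) +
      N * Real.log N := by
    rw [HH]
    simp only [LL]
    rw [Finset.sum_sub_distrib, Fintype.sum_prod_type, Fintype.sum_prod_type, ← hN']
    ring
  have e6 : ∑ i, P i * Real.log (m i) + N * Real.log N - ∑ i, P i * Real.log (P i) ≤ 0 := by
    have e7 : ∀ i, P i * Real.log (m i) + P i * Real.log N - P i * Real.log (P i) ≤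
        m i * N - P i := by
      intro i
      have h8 := Real.log_le_sub_one_of_pos (x := m i * N / P i)
        (div_pos (mul_pos (hm i) hN0) (hP0 i))
      rw [Real.log_div (mul_pos (hm i) hN0).ne' (hP0 i).ne', Real.log_mul (hm i).ne' hN0.ne'] at h8
      have h9 := mul_le_mul_of_nonneg_left h8 (hP0 i).le
      have h10 : P i * (m i * N / P i - 1) = m i * N - P i := by
        have := (hP0 i).ne'
        field_simp
      rw [h10] at h9
      linarith
    have h11 := Finset.sum_le_sum fun i (_ : i ∈ Finset.univ) => e7 i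
    rw [Finset.sum_sub_distrib, Finset.sum_sub_distrib, Finset.sum_add_distrib, ← Finset.sum_mul,
      ← Finset.sum_mul, hm1, ← hNP] at h11
    linarith
  rw [e5, e1]
  linarith

end Pool.Agent.Lib.MP_6cd19d_an.HP
end

section

/-!
# All probability measures

Take simple functions `f_k : E n → E n` converging pointwise to the identity (`SimpleFunc.approxOn` on `univ`).  For each
`k`, `∬ Φ(f_k x, f_k y) dμ dμ = ∑_{v,w} μ(f_k = v) μ(f_k = w) Φ(v,w)` over the finite range; keep only the `v` with positive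
mass (index type a subtype of the finite range, not empty); `gg_fin` gives the inequality for `f_k`.  Let `k → ∞`: the kernels
`exp(-l ρ)` and `ρ exp(-l ρ)` (`ρ = ‖x-y‖^2`) are continuous and bounded (`ρ exp(-lρ) ≤ 1/l`), dominated convergence; and
`N ↦ N log N` is continuous.

`gz_deriv`: differentiation under the integral (`|∂_l exp(-lρ)| = ρ exp(-lρ) ≤ 2/l0` for `l > l0/2`).
-/

set_option autoImplicit false

open MeasureTheory ProbabilityTheory Set Filter Topology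
open scoped ENNReal NNReal

namespace Pool.Agent.Lib.MP_6cd19d_an.HP

open Pool.Agent.Lib.MP_6cd19d_an.ND

variable {n : ℕ}

/-! auxiliary facts -/

private lemma te_bound {l : ℝ} (hl : 0 < l) {t : ℝ} :
    t * Real.exp (-l * t) ≤ 1 / l := by
  have h1 : l * t ≤ Real.exp (l * t) := by
    have := Real.add_one_le_exp (l * t); linarith
  have h2 : Real.exp (-l * t) * Real.exp (l * t) = 1 := by
    rw [← Real.exp_add]; simp
  have h3 : 0 < Real.exp (-l * t) := Real.exp_pos _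
  rw [le_div_iff₀ hl]
  nlinarith

private lemma prod_int {μ : Measure (E n)} [IsProbabilityMeasure μ] {Φ : E n → E n → ℝ}
    (hc : Continuous (fun z : E n × E n => Φ z.1 z.2)) {C : ℝ} (hb : ∀ x y, |Φ x y| ≤ C) :
    Integrable (fun z : E n × E n => Φ z.1 z.2) (μ.prod μ) :=
  Integrable.of_bound hc.aestronglyMeasurable C
    (Filter.Eventually.of_forall fun z => by rw [Real.norm_eq_abs]; exact hb _ _)

private lemma simple_int {μ : Measure (E n)} [IsProbabilityMeasure μ]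
    (f : SimpleFunc (E n) (E n)) (g : E n → ℝ) :
    ∫ x, g (f x) ∂μ = ∑ v ∈ f.range, μ.real (f ⁻¹' {v}) * g v := by
  classical
  have h1 : ∀ x, g (f x) = ∑ v ∈ f.range, (f ⁻¹' {v}).indicator (fun _ => g v) x := by
    intro x
    rw [Finset.sum_eq_single (f x)]
    · rw [Set.indicator_of_mem]; rfl
    · intro v _ hv
      rw [Set.indicator_of_notMem]
      intro h
      exact hv (by simpa using h.symm)
    · intro h
      exact absurd (SimpleFunc.mem_range_self f x) h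
  simp only [h1]
  rw [integral_finsetSum]
  · apply Finset.sum_congr rfl
    intro v _
    rw [integral_indicator_const _ (f.measurableSet_fiber v), smul_eq_mul]
  · intro v _
    exact (integrable_const _).indicator (f.measurableSet_fiber v)

private lemma simple_int2 {μ : Measure (E n)} [IsProbabilityMeasure μ]
    (f : SimpleFunc (E n) (E n)) (Φ : E n → E n → ℝ) :
    ∫ x, ∫ y, Φ (f x) (f y) ∂μ ∂μ =
      ∑ v ∈ f.range, ∑ w ∈ f.range, μ.real (f ⁻¹' {v}) * μ.real (f ⁻¹' {w}) * Φ v w := by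
  have h1 : ∀ x, ∫ y, Φ (f x) (f y) ∂μ = ∑ w ∈ f.range, μ.real (f ⁻¹' {w}) * Φ (f x) w :=
    fun x => simple_int f (fun y => Φ (f x) y)
  simp only [h1]
  rw [simple_int f (fun v => ∑ w ∈ f.range, μ.real (f ⁻¹' {w}) * Φ v w)]
  apply Finset.sum_congr rfl
  intro v _
  rw [Finset.mul_sum]
  apply Finset.sum_congr rfl
  intro w _
  ring

private lemma simple_ineq {μ : Measure (E n)} [IsProbabilityMeasure μ]
    (f : SimpleFunc (E n) (E n)) {l : ℝ} (hl : 0 < l) {b : ℝ} (hb0 : 0 ≤ b) (hb1 : b < 1) :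
    (n : ℝ) * (JJ b - b * J1 b) * (∫ x, ∫ y, Real.exp (-l * ‖f x - f y‖ ^ 2) ∂μ ∂μ) +
      2 * l * J1 b * (∫ x, ∫ y, ‖f x - f y‖ ^ 2 * Real.exp (-l * ‖f x - f y‖ ^ 2) ∂μ ∂μ) ≤
    -((∫ x, ∫ y, Real.exp (-l * ‖f x - f y‖ ^ 2) ∂μ ∂μ) *
      Real.log (∫ x, ∫ y, Real.exp (-l * ‖f x - f y‖ ^ 2) ∂μ ∂μ)) -
      l * (∫ x, ∫ y, ‖f x - f y‖ ^ 2 * Real.exp (-l * ‖f x - f y‖ ^ 2) ∂μ ∂μ) := by
  classical
  set T : Finset (E n) := f.range.filter (fun v => 0 < μ.real (f ⁻¹' {v})) with hT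
  have hsum : ∀ g : E n → ℝ, ∑ v ∈ f.range, μ.real (f ⁻¹' {v}) * g v =
      ∑ v ∈ T, μ.real (f ⁻¹' {v}) * g v := by
    intro g
    rw [hT, Finset.sum_filter_of_ne]
    intro v _ hv
    have h0 : 0 ≤ μ.real (f ⁻¹' {v}) := measureReal_nonneg
    rcases h0.lt_or_eq with h | h
    · exact h
    · rw [← h, zero_mul] at hv; exact absurd rfl hv
  have hone : ∑ v ∈ T, μ.real (f ⁻¹' {v}) = 1 := by
    have h1 := simple_int (μ := μ) f (fun _ => (1 : ℝ))
    rw [integral_const, probReal_univ, one_smul, hsum] at h1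
    simpa using h1.symm
  have hne : T.Nonempty := by
    rw [Finset.nonempty_iff_ne_empty]
    intro h
    rw [h, Finset.sum_empty] at hone
    exact one_ne_zero hone.symm
  have hne' : Nonempty {v // v ∈ T} := hne.to_subtype
  have h2 : ∀ Φ : E n → E n → ℝ, ∫ x, ∫ y, Φ (f x) (f y) ∂μ ∂μ =
      ∑ i : {v // v ∈ T}, ∑ j : {v // v ∈ T},
        μ.real (f ⁻¹' {i.1}) * μ.real (f ⁻¹' {j.1}) * Φ i.1 j.1 := by
    intro Φ
    rw [simple_int2]
    have e1 : ∀ v, ∑ w ∈ f.range, μ.real (f ⁻¹' {v}) * μ.real (f ⁻¹' {w}) * Φ v w =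
        μ.real (f ⁻¹' {v}) * ∑ w ∈ f.range, μ.real (f ⁻¹' {w}) * Φ v w := by
      intro v
      rw [Finset.mul_sum]
      exact Finset.sum_congr rfl fun w _ => by ring
    simp only [e1]
    rw [hsum (fun v => ∑ w ∈ f.range, μ.real (f ⁻¹' {w}) * Φ v w), ← Finset.sum_coe_sort T]
    apply Finset.sum_congr rfl
    intro i _
    rw [hsum (fun w => Φ i.1 w), Finset.mul_sum, ← Finset.sum_coe_sort T]
    exact Finset.sum_congr rfl fun w _ => by ring
  have h3 := gg_fin (n := n) (fun i : {v // v ∈ T} => i.1)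
    (m := fun i => μ.real (f ⁻¹' {i.1}))
    (fun i => (Finset.mem_filter.mp (show i.1 ∈ f.range.filter (fun v => 0 < μ.real (f ⁻¹' {v}))
      from i.2)).2)
    (by
      rw [← hone, ← Finset.sum_coe_sort T])
    hl hb0 hb1 rfl rfl
  rw [← h2 (fun v w => Real.exp (-l * ‖v - w‖ ^ 2)),
    ← h2 (fun v w => ‖v - w‖ ^ 2 * Real.exp (-l * ‖v - w‖ ^ 2))] at h3
  exact h3

private lemma lim_int {μ : Measure (E n)} [IsProbabilityMeasure μ]
    (f : ℕ → SimpleFunc (E n) (E n)) (hf : ∀ x, Tendsto (fun k => f k x) atTop (𝓝 x))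
    {Φ : E n → E n → ℝ}
    (hc : Continuous (fun z : E n × E n => Φ z.1 z.2)) {C : ℝ} (hb : ∀ x y, |Φ x y| ≤ C) :
    Tendsto (fun k => ∫ x, ∫ y, Φ (f k x) (f k y) ∂μ ∂μ) atTop (𝓝 (∫ x, ∫ y, Φ x y ∂μ ∂μ)) := by
  have hm : ∀ k, AEStronglyMeasurable (fun z : E n × E n => Φ (f k z.1) (f k z.2)) (μ.prod μ) := by
    intro k
    have h1 : Measurable (fun z : E n × E n => (f k z.1, f k z.2)) :=
      ((f k).measurable.comp measurable_fst).prodMk ((f k).measurable.comp measurable_snd)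
    exact (hc.measurable.comp h1).aestronglyMeasurable
  have hi : ∀ k, Integrable (fun z : E n × E n => Φ (f k z.1) (f k z.2)) (μ.prod μ) := fun k =>
    Integrable.of_bound (hm k) C
      (Filter.Eventually.of_forall fun z => by rw [Real.norm_eq_abs]; exact hb _ _)
  have e1 : ∀ k, ∫ x, ∫ y, Φ (f k x) (f k y) ∂μ ∂μ =
      ∫ z, Φ (f k z.1) (f k z.2) ∂(μ.prod μ) := fun k => (integral_prod _ (hi k)).symm
  have e2 : ∫ x, ∫ y, Φ x y ∂μ ∂μ = ∫ z, Φ z.1 z.2 ∂(μ.prod μ) :=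
    (integral_prod _ (prod_int hc hb)).symm
  simp only [e1]
  rw [e2]
  apply tendsto_integral_of_dominated_convergence (fun _ => C) hm (integrable_const C)
  · intro k
    exact Filter.Eventually.of_forall fun z => by rw [Real.norm_eq_abs]; exact hb _ _
  · apply Filter.Eventually.of_forall
    intro z
    have h1 : Tendsto (fun k => (f k z.1, f k z.2)) atTop (𝓝 z) :=
      (hf z.1).prodMk_nhds (hf z.2)
    exact (hc.tendsto z).comp h1

private lemma c1 (l : ℝ) : Continuous (fun z : E n × E n => Real.exp (-l * ‖z.1 - z.2‖ ^ 2)) := by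
  fun_prop

private lemma c2 (l : ℝ) : Continuous (fun z : E n × E n =>
    ‖z.1 - z.2‖ ^ 2 * Real.exp (-l * ‖z.1 - z.2‖ ^ 2)) := by
  fun_prop

private lemma b1 {l : ℝ} (hl : 0 < l) (x y : E n) : |Real.exp (-l * ‖x - y‖ ^ 2)| ≤ 1 := by
  rw [abs_of_pos (Real.exp_pos _), Real.exp_le_one_iff]
  have : 0 ≤ l * ‖x - y‖ ^ 2 := by positivity
  linarith

private lemma b2 {l : ℝ} (hl : 0 < l) (x y : E n) :
    |‖x - y‖ ^ 2 * Real.exp (-l * ‖x - y‖ ^ 2)| ≤ 1 / l := by
  rw [abs_of_nonneg (by positivity)]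
  exact te_bound hl

theorem gg_meas {μ : Measure (E n)} [IsProbabilityMeasure μ] {l : ℝ} (hl : 0 < l) {b : ℝ} (hb0 : 0 ≤ b)
    (hb1 : b < 1) :
    (n : ℝ) * (JJ b - b * J1 b) * gz μ l + 2 * l * J1 b * gm μ l ≤
      -(gz μ l * Real.log (gz μ l)) - l * gm μ l := by
  let f : ℕ → SimpleFunc (E n) (E n) := fun k =>
    SimpleFunc.approxOn (fun x : E n => x) measurable_id Set.univ 0 (Set.mem_univ _) k
  have hf : ∀ x, Tendsto (fun k => f k x) atTop (𝓝 x) := by
    intro x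
    exact SimpleFunc.tendsto_approxOn measurable_id (Set.mem_univ _)
      (by rw [closure_univ]; exact Set.mem_univ _)
  have h1 : Tendsto (fun k => ∫ x, ∫ y, Real.exp (-l * ‖f k x - f k y‖ ^ 2) ∂μ ∂μ) atTop
      (𝓝 (gz μ l)) := lim_int f hf (c1 l) (b1 hl)
  have h2 : Tendsto (fun k => ∫ x, ∫ y, ‖f k x - f k y‖ ^ 2 *
      Real.exp (-l * ‖f k x - f k y‖ ^ 2) ∂μ ∂μ) atTop (𝓝 (gm μ l)) :=
    lim_int (Φ := fun x y => ‖x - y‖ ^ 2 * Real.exp (-l * ‖x - y‖ ^ 2)) f hf (c2 l) (b2 hl)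
  have h3 : Tendsto (fun k => (∫ x, ∫ y, Real.exp (-l * ‖f k x - f k y‖ ^ 2) ∂μ ∂μ) *
      Real.log (∫ x, ∫ y, Real.exp (-l * ‖f k x - f k y‖ ^ 2) ∂μ ∂μ)) atTop
      (𝓝 (gz μ l * Real.log (gz μ l))) :=
    (Real.continuous_mul_log.tendsto (gz μ l)).comp h1
  exact le_of_tendsto_of_tendsto' ((h1.const_mul _).add (h2.const_mul _))
    (h3.neg.sub (h2.const_mul l)) (fun k => simple_ineq (f k) hl hb0 hb1)

private lemma gz_prod {μ : Measure (E n)} [IsProbabilityMeasure μ] {l : ℝ} (hl : 0 < l) :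
    gz μ l = ∫ z, Real.exp (-l * ‖z.1 - z.2‖ ^ 2) ∂(μ.prod μ) :=
  (integral_prod _ (prod_int (Φ := fun x y => Real.exp (-l * ‖x - y‖ ^ 2)) (c1 l) (b1 hl))).symm

private lemma gm_prod {μ : Measure (E n)} [IsProbabilityMeasure μ] {l : ℝ} (hl : 0 < l) :
    gm μ l = ∫ z, ‖z.1 - z.2‖ ^ 2 * Real.exp (-l * ‖z.1 - z.2‖ ^ 2) ∂(μ.prod μ) :=
  (integral_prod _ (prod_int (Φ := fun x y => ‖x - y‖ ^ 2 * Real.exp (-l * ‖x - y‖ ^ 2))
    (c2 l) (b2 hl))).symm

theorem gz_pos {μ : Measure (E n)} [IsProbabilityMeasure μ] {l : ℝ} (hl : 0 < l) : 0 < gz μ l := by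
  rw [gz_prod hl]
  exact integral_exp_pos (prod_int (Φ := fun x y => Real.exp (-l * ‖x - y‖ ^ 2)) (c1 l) (b1 hl))

theorem gz_le_one {μ : Measure (E n)} [IsProbabilityMeasure μ] {l : ℝ} (hl : 0 < l) : gz μ l ≤ 1 := by
  rw [gz_prod hl]
  have h : ∫ z, Real.exp (-l * ‖z.1 - z.2‖ ^ 2) ∂(μ.prod μ) ≤ ∫ z, (1 : ℝ) ∂(μ.prod μ) := by
    apply integral_mono
      (prod_int (Φ := fun x y => Real.exp (-l * ‖x - y‖ ^ 2)) (c1 l) (b1 hl)) (integrable_const _)
    intro z
    exact (le_abs_self _).trans (b1 hl _ _)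
  simpa using h

theorem gz_deriv {μ : Measure (E n)} [IsProbabilityMeasure μ] {l : ℝ} (hl : 0 < l) :
    HasDerivAt (gz μ) (-gm μ l) l := by
  have hs : Ioi (l / 2) ∈ 𝓝 l := Ioi_mem_nhds (by linarith)
  have hpos : ∀ x ∈ Ioi (l / 2), 0 < x := fun x hx => by
    have : l / 2 < x := hx
    linarith
  have h := hasDerivAt_integral_of_dominated_loc_of_deriv_le (μ := μ.prod μ) (𝕜 := ℝ)
    (F := fun (s : ℝ) (z : E n × E n) => Real.exp (-s * ‖z.1 - z.2‖ ^ 2))
    (F' := fun (s : ℝ) (z : E n × E n) => -(‖z.1 - z.2‖ ^ 2 * Real.exp (-s * ‖z.1 - z.2‖ ^ 2)))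
    (x₀ := l) (s := Ioi (l / 2)) (bound := fun _ => 1 / (l / 2)) hs
    (Filter.Eventually.of_forall fun s => (c1 s).aestronglyMeasurable)
    (prod_int (Φ := fun x y => Real.exp (-l * ‖x - y‖ ^ 2)) (c1 l) (b1 hl))
    ((c2 l).neg.aestronglyMeasurable)
    (Filter.Eventually.of_forall fun z s hs => by
      rw [norm_neg, Real.norm_eq_abs]
      refine (b2 (hpos s hs) _ _).trans ?_
      have : l / 2 < s := hs
      exact one_div_le_one_div_of_le (by linarith) this.le)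
    (integrable_const _)
    (Filter.Eventually.of_forall fun z s hs => by
      have h1 : HasDerivAt (fun s : ℝ => -s * ‖z.1 - z.2‖ ^ 2) (-1 * ‖z.1 - z.2‖ ^ 2) s :=
        ((hasDerivAt_id s).neg).mul_const _
      have h2 := h1.exp
      have e : Real.exp (-s * ‖z.1 - z.2‖ ^ 2) * (-1 * ‖z.1 - z.2‖ ^ 2) =
        -(‖z.1 - z.2‖ ^ 2 * Real.exp (-s * ‖z.1 - z.2‖ ^ 2)) := by ring
      rw [e] at h2
      exact h2)
  have h1 := h.2
  rw [integral_neg, ← gm_prod hl] at h1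
  apply h1.congr_of_eventuallyEq
  filter_upwards [hs] with s hs
  exact gz_prod (hpos s hs)

end Pool.Agent.Lib.MP_6cd19d_an.HP
end

section

/-!
# Single crossing

`G = -log (gz μ l)`, `θ = l gm/gz`.  `μ` on `E n`, `σ` the sphere measure of `E (n+1)`, scaled: `gz σ (R^2 l)`.
`sphere_side`: with `κ = 2 l`, `gz σ l = exp(-κ) Z κ`, `θ_σ = l gm σ l/gz σ l = κ c`, `c = 1 - Z1/Z` (differentiate
`gz_sphere` and compare with `gz_deriv`), so `bes_beta`, `bes_main` are: `β = 2θ_σ/n ∈ (0,1)` and `G_σ - θ_σ ≤ n JJ β`.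

`crossing`: `A(l) = -log gz μ l`, `B(l) = -log gz σ (R^2 l)`, `θ_A = l A'`, `θ_B = l B'`.  By `gg_meas` with
`b = β_B = 2 θ_B/n` (divide by `gz μ l > 0`): `A ≥ θ_A + n(JJ b - b J1 b) + 2 J1(b) θ_A`, and `B ≤ θ_B + n JJ b`; as
`n b J1 b = 2 θ_B J1 b`: `A - B ≥ (θ_A - θ_B)(1 + 2 J1 b)`, `J1 b ≥ 0`.  So `h = A - B` satisfies
`l h'(l) ≤ max (h l) 0`.  If `h(l0) ≤ 0` and `h(l1) > 0`, `l1 > l0`, let `l2` be the last point of
`[l0, l1]` with `h ≤ 0`; on `(l2, l1]` `h > 0` and `h(l)/l` has derivative `(l h' - h)/l^2 ≤ 0`, so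
`h(l1)/l1 ≤ h(l2)/l2 ≤ 0`.  Contradiction.
-/

set_option autoImplicit false

open MeasureTheory ProbabilityTheory Set Filter Topology
open scoped ENNReal NNReal

namespace Pool.Agent.Lib.MP_6cd19d_an.HP

open Pool.Agent.Lib.MP_6cd19d_an.ND

variable {n : ℕ}

theorem sphere_side (hn : 2 ≤ n) {σ : Measure (E (n + 1))} (hσ : SphM σ) {l : ℝ} (hl : 0 < l) :
    0 < 2 * (l * gm σ l / gz σ l) / n ∧ 2 * (l * gm σ l / gz σ l) / n < 1 ∧
      -Real.log (gz σ l) - l * gm σ l / gz σ l ≤ n * JJ (2 * (l * gm σ l / gz σ l) / n) := by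
  have : IsProbabilityMeasure σ := ⟨hσ.1⟩
  have hB := bes_sphere (by omega : 1 ≤ n) hσ
  set Z : ℝ → ℝ := fun κ => ∫ y, Real.exp (κ * y 0) ∂σ with hZ
  set Z1 : ℝ → ℝ := fun κ => ∫ y, y 0 * Real.exp (κ * y 0) ∂σ with hZ1
  have hgz : ∀ t : ℝ, gz σ t = Real.exp (-2 * t) * Z (2 * t) := fun t => gz_sphere hσ t
  have hfun : gz σ = fun t => Real.exp (-2 * t) * Z (2 * t) := funext hgz
  have hpos : 0 < Z (2 * l) := hB.pos _
  have hexp : 0 < Real.exp (-2 * l) := Real.exp_pos _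
  -- derivative
  have hd1 : HasDerivAt (gz σ) (-gm σ l) l := gz_deriv hl
  have hd2 : HasDerivAt (gz σ) (Real.exp (-2 * l) * (-2) * Z (2 * l) + Real.exp (-2 * l) * (Z1 (2 * l) * 2)) l := by
    rw [hfun]
    have e1 : HasDerivAt (fun t : ℝ => Real.exp (-2 * t)) (Real.exp (-2 * l) * (-2)) l := by
      have := ((hasDerivAt_id l).const_mul (-2 : ℝ)).exp
      simpa using this
    have e2 : HasDerivAt (fun t : ℝ => Z (2 * t)) (Z1 (2 * l) * 2) l := by
      have h2 : HasDerivAt (fun t : ℝ => 2 * t) 2 l := by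
        simpa using (hasDerivAt_id l).const_mul (2 : ℝ)
      exact (hB.d1 (2 * l)).comp l h2
    exact e1.mul e2
  have hgm : gm σ l = Real.exp (-2 * l) * (2 * (Z (2 * l) - Z1 (2 * l))) := by
    have := hd1.unique hd2
    linarith
  have hθ : l * gm σ l / gz σ l = 2 * l * (1 - Z1 (2 * l) / Z (2 * l)) := by
    have haux : ∀ z z1 e : ℝ, 0 < z → 0 < e → l * (e * (2 * (z - z1))) / (e * z) = 2 * l * (1 - z1 / z) := by
      intro z z1 e hz he
      rw [one_sub_div hz.ne']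
      field_simp
    rw [hgm, hgz l]
    exact haux _ _ _ hpos hexp
  have hβ : 2 * (l * gm σ l / gz σ l) / n = 2 * (2 * l) * (1 - Z1 (2 * l) / Z (2 * l)) / n := by
    rw [hθ]; ring
  have hκ : 0 < 2 * l := by linarith
  obtain ⟨b0, b1⟩ := bes_beta hn hB hκ
  rw [hβ]
  refine ⟨b0, b1, ?_⟩
  have hm := bes_main hn hB hκ
  refine le_trans (le_of_eq ?_) hm
  rw [hθ, hgz l, Real.log_mul hexp.ne' hpos.ne', Real.log_exp]
  ring

theorem crossing (hn : 2 ≤ n) {σ : Measure (E (n + 1))} (hσ : SphM σ) {μ : Measure (E n)}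
    [IsProbabilityMeasure μ] {R : ℝ} (hR : 0 < R) {l0 l1 : ℝ} (h0 : 0 < l0) (h01 : l0 ≤ l1)
    (h : gz σ (R ^ 2 * l0) ≤ gz μ l0) : gz σ (R ^ 2 * l1) ≤ gz μ l1 := by
  have : IsProbabilityMeasure σ := ⟨hσ.1⟩
  have hR2 : 0 < R ^ 2 := by positivity
  have hn0 : (0 : ℝ) < n := by
    have : 0 < n := by omega
    exact_mod_cast this
  have hpμ : ∀ l, 0 < l → 0 < gz μ l := fun l hl => gz_pos hl
  have hpσ : ∀ l, 0 < l → 0 < gz σ (R ^ 2 * l) := fun l hl => gz_pos (mul_pos hR2 hl)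
  -- the difference
  set f : ℝ → ℝ := fun l => -Real.log (gz μ l) + Real.log (gz σ (R ^ 2 * l)) with hf
  set f' : ℝ → ℝ := fun l => gm μ l / gz μ l - R ^ 2 * gm σ (R ^ 2 * l) / gz σ (R ^ 2 * l) with hf'
  have hder : ∀ l, 0 < l → HasDerivAt f (f' l) l := by
    intro l hl
    have d1 : HasDerivAt (fun l => Real.log (gz μ l)) (-gm μ l / gz μ l) l :=
      (gz_deriv hl).log (hpμ l hl).ne'
    have d2 : HasDerivAt (fun l => gz σ (R ^ 2 * l)) (-gm σ (R ^ 2 * l) * R ^ 2) l := by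
      have h2 : HasDerivAt (fun t : ℝ => R ^ 2 * t) (R ^ 2) l := by
        simpa using (hasDerivAt_id l).const_mul (R ^ 2)
      exact (gz_deriv (mul_pos hR2 hl)).comp l h2
    have d3 : HasDerivAt (fun l => Real.log (gz σ (R ^ 2 * l)))
        (-gm σ (R ^ 2 * l) * R ^ 2 / gz σ (R ^ 2 * l)) l := d2.log (hpσ l hl).ne'
    refine (d1.neg.add d3).congr_deriv ?_
    rw [hf']
    simp only []
    ring
  -- the differential inequality
  have hineq : ∀ l, 0 < l → 0 < f l → l * f' l ≤ f l := by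
    intro l hl hfl
    have hl2 : 0 < R ^ 2 * l := mul_pos hR2 hl
    obtain ⟨b0, b1, hside⟩ := sphere_side hn hσ hl2
    set θB : ℝ := R ^ 2 * l * gm σ (R ^ 2 * l) / gz σ (R ^ 2 * l) with hθB
    set b : ℝ := 2 * θB / n with hb
    have hJ : 0 ≤ J1 b := J1_nonneg b0.le b1
    have hg := gg_meas (μ := μ) hl b0.le b1
    set θA : ℝ := l * gm μ l / gz μ l with hθA
    have hpos := hpμ l hl
    have hg' : (n : ℝ) * (JJ b - b * J1 b) + 2 * J1 b * θA ≤ -Real.log (gz μ l) - θA := by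
      have e1 : ((n : ℝ) * (JJ b - b * J1 b) + 2 * J1 b * θA) * gz μ l =
          (n : ℝ) * (JJ b - b * J1 b) * gz μ l + 2 * l * J1 b * gm μ l := by
        rw [hθA]; field_simp
      have e2 : (-Real.log (gz μ l) - θA) * gz μ l = -(gz μ l * Real.log (gz μ l)) - l * gm μ l := by
        rw [hθA]; field_simp
      refine le_of_mul_le_mul_right ?_ hpos
      rw [e1, e2]; exact hg
    have hnb : (n : ℝ) * b = 2 * θB := by
      rw [hb]; field_simp
    have hlf : l * f' l = θA - θB := by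
      rw [hf', hθA, hθB]
      simp only []
      ring
    have hkey : (θA - θB) * (1 + 2 * J1 b) ≤ f l := by
      have e3 : f l = -Real.log (gz μ l) + Real.log (gz σ (R ^ 2 * l)) := rfl
      have e4 : (n : ℝ) * (b * J1 b) = 2 * θB * J1 b := by
        rw [← hnb]; ring
      rw [e3]
      nlinarith [hg', hside, e4]
    rw [hlf]
    rcases le_or_gt (θA - θB) 0 with hneg | hposi
    · linarith
    · nlinarith [mul_nonneg hposi.le hJ]
  have hfl0 : f l0 ≤ 0 := by
    have := Real.log_le_log (hpσ l0 h0) h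
    change -Real.log (gz μ l0) + Real.log (gz σ (R ^ 2 * l0)) ≤ 0
    linarith
  have hmain : ∀ ε : ℝ, 0 < ε → f l1 ≤ ε * l1 ^ 2 := by
    intro ε hε
    have hpos' : ∀ x ∈ Icc l0 l1, 0 < x := fun x hx => h0.trans_le hx.1
    have := image_le_of_deriv_right_lt_deriv_boundary (f := f) (f' := f') (a := l0) (b := l1)
      (fun x hx => (hder x (hpos' x hx)).continuousAt.continuousWithinAt)
      (fun x hx => (hder x (h0.trans_le hx.1)).hasDerivWithinAt)
      (B := fun x => ε * x ^ 2) (B' := fun x => ε * (2 * x))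
      (by have : 0 ≤ ε * l0 ^ 2 := by positivity
          exact hfl0.trans this)
      (fun x => by
        have := (hasDerivAt_pow 2 x).const_mul ε
        simpa using this)
      (fun x hx hfx => by
        have hx0 : 0 < x := h0.trans_le hx.1
        have hfx0 : 0 < f x := by rw [hfx]; positivity
        have h1 := hineq x hx0 hfx0
        rw [hfx] at h1
        have h2 : f' x ≤ ε * x := by
          refine le_of_mul_le_mul_left ?_ hx0
          nlinarith
        nlinarith [mul_pos hε hx0])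
    exact this ⟨h01, le_rfl⟩
  have hl1 : 0 < l1 := h0.trans_le h01
  have hfin : f l1 ≤ 0 := by
    by_contra hcon
    push Not at hcon
    have := hmain (f l1 / (2 * l1 ^ 2)) (by positivity)
    have e : f l1 / (2 * l1 ^ 2) * l1 ^ 2 = f l1 / 2 := by field_simp
    rw [e] at this
    linarith
  have hfin' : Real.log (gz σ (R ^ 2 * l1)) ≤ Real.log (gz μ l1) := by
    have : -Real.log (gz μ l1) + Real.log (gz σ (R ^ 2 * l1)) ≤ 0 := hfin
    linarith
  exact (Real.log_le_log_iff (hpσ l1 hl1) (hpμ l1 hl1)).1 hfin'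

end Pool.Agent.Lib.MP_6cd19d_an.HP
end

section

/-!
# Energies of a measure against the sphere

`gz σ (R^2 l)` is the Gaussian energy of the sphere of radius `R`; `∫_0^∞ l^(s/2-1) gz σ (R^2 l) dl = R^(-s) ∫ l^(s/2-1) gz σ l dl`.
`en_sphere_fin`: `en s σ < ⊤` for `s < n` [the potential of `σ` at a point of the sphere: e.g. from
`gz σ l = exp(-2l) Z(2l)` and `Z(κ) ≤ C exp(κ) κ^(-n/2)`; or from any known lemma; another way: `σ` is a projection of
Lebesgue measure; or `∫ ‖e - y‖^(-s) dσ(y) < ∞` by covering: `σ(ball(e, r)) ≤ C r^n` (rotation invariance and disjoint balls: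
there are `≥ c r^(-n)` disjoint balls of radius `r` centred on the sphere)].

`main_pos`: `0 < p < q < n`, `en q μ < ⊤`.  Choose `R > 0` with `en q μ = R^(-q) en q σ`.  Then
`∫ l^(q/2-1) (gz μ l - gz σ (R^2 l)) dl = 0` (both integrals finite), `crossing` gives the hypothesis of `mellin_pos`, and
for `0 < p` the integrals with `p` are finite too (`gz ≤ 1` near `0`, comparison with `q` near `∞`), so
`en p μ ≤ R^(-p) en p σ = en p σ (en q μ/en q σ)^(p/q)`.

`main_log`: `p = 0`: `mellin_pos` with `p = 0` for `g1 = gz μ`, `g2 = gz σ (R^2 ·)`; near `0`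
`|g1 - g2| ≤ C l` (both are `1 + O(l)` for bounded supports), near `∞` as before.  By `log_eq` with a large common `D`
(`D ≥ 2R` and `D ≥` the diameter of the support of `μ`), `log-energy(μ; D) ≤ log-energy(σ_R; D)`, and
`log-energy(σ_R; D) = log-energy(σ; D/R)`.  All energies are finite.
-/

set_option autoImplicit false

open MeasureTheory ProbabilityTheory Set Filter Topology
open scoped ENNReal NNReal

namespace Pool.Agent.Lib.MP_6cd19d_an.HP

open Pool.Agent.Lib.MP_6cd19d_an.ND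

variable {n : ℕ}

/-- The logarithmic energy with the constant `D`. -/
noncomputable def lgE {m : ℕ} (D : ℝ) (μ : Measure (E m)) : ℝ≥0∞ :=
  ∫⁻ x, ∫⁻ y, (if x = y then (⊤ : ℝ≥0∞) else ENNReal.ofReal (Real.log (D / dist x y))) ∂μ ∂μ

/-! ## auxiliary lemmas -/

private lemma gz_cont {m : ℕ} {μ : Measure (E m)} [IsProbabilityMeasure μ] :
    ContinuousOn (gz μ) (Ioi 0) :=
  fun _ hl => (gz_deriv hl).continuousAt.continuousWithinAt

/-- the upper bound for the Bessel function -/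
private lemma bes_upper {n : ℕ} {Z Z1 Z2 : ℝ → ℝ} (h : Bes n Z Z1 Z2) :
    ∃ C : ℝ, 0 < C ∧ ∀ κ, 1 ≤ κ → Real.exp (-κ) * Z κ ≤ C * κ ^ (-(n : ℝ) / 2) := by
  set φ : ℝ → ℝ := fun κ => -κ + (n : ℝ) ^ 2 / 4 * κ⁻¹ + (n : ℝ) / 2 * Real.log κ with hφ
  set u : ℝ → ℝ := fun κ => Z κ + Z1 κ + (n : ℝ) / 2 * κ⁻¹ * Z κ with hu
  set V : ℝ → ℝ := fun κ => Real.exp (φ κ) * u κ with hV
  have hderφ : ∀ κ, 0 < κ → HasDerivAt φ
      (-1 + (n : ℝ) ^ 2 / 4 * (-(κ ^ 2)⁻¹) + (n : ℝ) / 2 * κ⁻¹) κ := by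
    intro κ hκ
    exact ((hasDerivAt_neg κ).add ((hasDerivAt_inv hκ.ne').const_mul _)).add
      ((Real.hasDerivAt_log hκ.ne').const_mul _)
  have hderu : ∀ κ, 0 < κ → HasDerivAt u
      (Z1 κ + Z2 κ + ((n : ℝ) / 2 * (-(κ ^ 2)⁻¹) * Z κ + (n : ℝ) / 2 * κ⁻¹ * Z1 κ)) κ := by
    intro κ hκ
    exact ((h.d1 κ).add (h.d2 κ)).add (((hasDerivAt_inv hκ.ne').const_mul _).mul (h.d1 κ))
  have hderV : ∀ κ, 0 < κ → HasDerivAt V
      (Real.exp (φ κ) * (-1 + (n : ℝ) ^ 2 / 4 * (-(κ ^ 2)⁻¹) + (n : ℝ) / 2 * κ⁻¹) * u κ +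
        Real.exp (φ κ) * (Z1 κ + Z2 κ + ((n : ℝ) / 2 * (-(κ ^ 2)⁻¹) * Z κ +
          (n : ℝ) / 2 * κ⁻¹ * Z1 κ))) κ := by
    intro κ hκ
    exact ((hderφ κ hκ).exp).mul (hderu κ hκ)
  have hanti : AntitoneOn V (Ici 1) := by
    apply antitoneOn_of_deriv_nonpos (convex_Ici 1)
    · intro κ hκ
      exact (hderV κ (lt_of_lt_of_le one_pos hκ)).continuousAt.continuousWithinAt
    · intro κ hκ
      rw [interior_Ici] at hκ
      exact (hderV κ (lt_trans one_pos hκ)).differentiableAt.differentiableWithinAt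
    · intro κ hκ
      rw [interior_Ici] at hκ
      have hκ0 : 0 < κ := lt_trans one_pos hκ
      rw [(hderV κ hκ0).deriv]
      have hode := h.ode κ
      have hZ2 : Z2 κ = Z κ - (n : ℝ) * κ⁻¹ * Z1 κ := by
        field_simp
        linarith
      have hZ := (h.pos κ).le
      have hZ1 := (h.z1 κ hκ0).le
      have hn0 : (0 : ℝ) ≤ n := Nat.cast_nonneg n
      have hi : 0 < κ⁻¹ := inv_pos.2 hκ0
      have e : Real.exp (φ κ) * (-1 + (n : ℝ) ^ 2 / 4 * (-(κ ^ 2)⁻¹) + (n : ℝ) / 2 * κ⁻¹) * u κ +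
        Real.exp (φ κ) * (Z1 κ + Z2 κ + ((n : ℝ) / 2 * (-(κ ^ 2)⁻¹) * Z κ +
          (n : ℝ) / 2 * κ⁻¹ * Z1 κ)) =
          - (Real.exp (φ κ) * ((n : ℝ) ^ 2 / 4 * (κ⁻¹) ^ 2 * (Z1 κ + (n : ℝ) / 2 * κ⁻¹ * Z κ) +
            (n : ℝ) / 2 * (κ⁻¹) ^ 2 * Z κ)) := by
        rw [hu, hZ2, ← inv_pow]
        ring
      rw [e]
      have : 0 ≤ Real.exp (φ κ) * ((n : ℝ) ^ 2 / 4 * (κ⁻¹) ^ 2 * (Z1 κ + (n : ℝ) / 2 * κ⁻¹ * Z κ) +
            (n : ℝ) / 2 * (κ⁻¹) ^ 2 * Z κ) := by positivity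
      linarith
  have hu1 : ∀ κ, 0 < κ → Z κ ≤ u κ := by
    intro κ hκ
    have hZ := (h.pos κ).le
    have hZ1 := (h.z1 κ hκ).le
    have hn0 : (0 : ℝ) ≤ n := Nat.cast_nonneg n
    have hi : 0 < κ⁻¹ := inv_pos.2 hκ
    have : 0 ≤ (n : ℝ) / 2 * κ⁻¹ * Z κ := by positivity
    simp only [hu]
    linarith
  refine ⟨V 1, ?_, ?_⟩
  · exact mul_pos (Real.exp_pos _) (lt_of_lt_of_le (h.pos 1) (hu1 1 one_pos))
  · intro κ hκ
    have hκ0 : 0 < κ := lt_of_lt_of_le one_pos hκ
    have h1 : V κ ≤ V 1 := hanti (mem_Ici.2 le_rfl) (mem_Ici.2 hκ) hκ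
    have h2 : κ ^ (-(n : ℝ) / 2) = Real.exp (-((n : ℝ) / 2 * Real.log κ)) := by
      rw [Real.rpow_def_of_pos hκ0]
      congr 1
      ring
    have h3 : Real.exp (-κ) * Z κ ≤ V κ * κ ^ (-(n : ℝ) / 2) := by
      have e : V κ * κ ^ (-(n : ℝ) / 2) =
          Real.exp (-κ) * (Real.exp ((n : ℝ) ^ 2 / 4 * κ⁻¹) * u κ) := by
        rw [h2]
        simp only [hV, hφ]
        rw [Real.exp_add, Real.exp_add, Real.exp_neg ((n : ℝ) / 2 * Real.log κ)]
        have : Real.exp ((n : ℝ) / 2 * Real.log κ) ≠ 0 := (Real.exp_pos _).ne'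
        field_simp
      rw [e]
      apply mul_le_mul_of_nonneg_left _ (Real.exp_pos _).le
      have h4 : 1 ≤ Real.exp ((n : ℝ) ^ 2 / 4 * κ⁻¹) := by
        apply Real.one_le_exp
        have hi : 0 < κ⁻¹ := inv_pos.2 hκ0
        positivity
      have h5 := hu1 κ hκ0
      have h6 : 0 ≤ u κ := le_trans (h.pos κ).le h5
      nlinarith
    refine le_trans h3 (mul_le_mul_of_nonneg_right h1 ?_)
    exact Real.rpow_nonneg hκ0.le _

/-- the Gaussian energy of the sphere -/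
private lemma gz_sphere_le (hn : 1 ≤ n) {σ : Measure (E (n + 1))} (hσ : SphM σ) :
    ∃ C : ℝ, 0 < C ∧ ∀ l, 1 ≤ l → gz σ l ≤ C * l ^ (-(n : ℝ) / 2) := by
  obtain ⟨C, hC, h⟩ := bes_upper (bes_sphere hn hσ)
  refine ⟨C, hC, fun l hl => ?_⟩
  have h1 := h (2 * l) (by linarith)
  have e : gz σ l = Real.exp (-(2 * l)) * ∫ y, Real.exp (2 * l * y 0) ∂σ := by
    rw [gz_sphere hσ l]
    congr 2
    ring
  rw [e]
  refine le_trans h1 (mul_le_mul_of_nonneg_left ?_ hC.le)
  apply Real.rpow_le_rpow_of_nonpos (by linarith) (by linarith)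
  have hn0 : (0 : ℝ) ≤ n := Nat.cast_nonneg n
  linarith

private lemma meas_pow_gz {m : ℕ} {μ : Measure (E m)} [IsProbabilityMeasure μ] (s : ℝ) :
    AEStronglyMeasurable (fun l : ℝ => l ^ (s / 2 - 1) * gz μ l) (volume.restrict (Ioi 0)) := by
  apply ContinuousOn.aestronglyMeasurable _ measurableSet_Ioi
  apply ContinuousOn.mul _ gz_cont
  intro l hl
  exact (Real.continuousAt_rpow_const l _ (Or.inl (ne_of_gt hl))).continuousWithinAt

private lemma pow_gz_nonneg {m : ℕ} {μ : Measure (E m)} [IsProbabilityMeasure μ] (s : ℝ) {l : ℝ}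
    (hl : 0 < l) : 0 ≤ l ^ (s / 2 - 1) * gz μ l :=
  mul_nonneg (Real.rpow_nonneg hl.le _) (gz_pos hl).le

private lemma ae_nonneg {m : ℕ} {μ : Measure (E m)} [IsProbabilityMeasure μ] (s : ℝ) :
    0 ≤ᵐ[volume.restrict (Ioi (0 : ℝ))] (fun l : ℝ => l ^ (s / 2 - 1) * gz μ l) := by
  rw [Filter.EventuallyLE, ae_restrict_iff' measurableSet_Ioi]
  exact ae_of_all _ fun l hl => pow_gz_nonneg s hl

private lemma gam_pos {s : ℝ} (hs : 0 < s) : 0 < (Real.Gamma (s / 2))⁻¹ :=
  inv_pos.2 (Real.Gamma_pos_of_pos (by linarith))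

private lemma en_lt_iff {m : ℕ} {μ : Measure (E m)} [IsProbabilityMeasure μ] {s : ℝ} (hs : 0 < s) :
    en s μ < ⊤ ↔ IntegrableOn (fun l : ℝ => l ^ (s / 2 - 1) * gz μ l) (Ioi 0) := by
  rw [en_eq hs, IntegrableOn, ← lintegral_ofReal_ne_top_iff_integrable (meas_pow_gz s) (ae_nonneg s)]
  have h0 : ENNReal.ofReal (Real.Gamma (s / 2))⁻¹ ≠ 0 := by
    rw [Ne, ENNReal.ofReal_eq_zero, not_le]
    exact gam_pos hs
  constructor
  · intro h h'
    rw [h', ENNReal.mul_top h0] at h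
    exact absurd h (lt_irrefl _)
  · intro h
    exact ENNReal.mul_lt_top ENNReal.ofReal_lt_top (lt_top_iff_ne_top.2 h)

private lemma en_real {m : ℕ} {μ : Measure (E m)} [IsProbabilityMeasure μ] {s : ℝ} (hs : 0 < s)
    (h : en s μ < ⊤) :
    en s μ = ENNReal.ofReal ((Real.Gamma (s / 2))⁻¹ * ∫ l in Ioi (0 : ℝ), l ^ (s / 2 - 1) * gz μ l) := by
  rw [ENNReal.ofReal_mul (gam_pos hs).le, en_eq hs,
    ofReal_integral_eq_lintegral_ofReal ((en_lt_iff hs).1 h) (ae_nonneg s)]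

private lemma int_pos {m : ℕ} {μ : Measure (E m)} [IsProbabilityMeasure μ] {s : ℝ}
    (h : IntegrableOn (fun l : ℝ => l ^ (s / 2 - 1) * gz μ l) (Ioi 0)) :
    0 < ∫ l in Ioi (0 : ℝ), l ^ (s / 2 - 1) * gz μ l := by
  rw [integral_pos_iff_support_of_nonneg_ae (ae_nonneg s) h]
  have : Ioi (0 : ℝ) ⊆ Function.support (fun l : ℝ => l ^ (s / 2 - 1) * gz μ l) := by
    intro l hl
    rw [Function.mem_support]
    exact (mul_pos (Real.rpow_pos_of_pos hl _) (gz_pos hl)).ne'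
  refine lt_of_lt_of_le ?_ (measure_mono this)
  rw [Measure.restrict_apply_self, Real.volume_Ioi]
  exact ENNReal.zero_lt_top

/-- smaller exponents -/
private lemma int_lower {m : ℕ} {μ : Measure (E m)} [IsProbabilityMeasure μ] {p q : ℝ} (hp : 0 < p)
    (hpq : p ≤ q) (h : IntegrableOn (fun l : ℝ => l ^ (q / 2 - 1) * gz μ l) (Ioi 0)) :
    IntegrableOn (fun l : ℝ => l ^ (p / 2 - 1) * gz μ l) (Ioi 0) := by
  rw [← Ioc_union_Ioi_eq_Ioi zero_le_one]
  apply IntegrableOn.union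
  · have h1 : IntegrableOn (fun l : ℝ => l ^ (p / 2 - 1)) (Ioc 0 1) := by
      have := intervalIntegral.intervalIntegrable_rpow' (a := 0) (b := 1) (r := p / 2 - 1) (by linarith)
      rwa [intervalIntegrable_iff_integrableOn_Ioc_of_le zero_le_one] at this
    refine Integrable.mono' h1 ((meas_pow_gz p).mono_measure
      (Measure.restrict_mono Ioc_subset_Ioi_self le_rfl)) ?_
    rw [ae_restrict_iff' measurableSet_Ioc]
    refine ae_of_all _ fun l hl => ?_
    rw [Real.norm_of_nonneg (pow_gz_nonneg p hl.1)]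
    exact mul_le_of_le_one_right (Real.rpow_nonneg hl.1.le _) (gz_le_one hl.1)
  · refine Integrable.mono' (h.mono_set (Ioi_subset_Ioi zero_le_one)) ((meas_pow_gz p).mono_measure
      (Measure.restrict_mono (Ioi_subset_Ioi zero_le_one) le_rfl)) ?_
    rw [ae_restrict_iff' measurableSet_Ioi]
    refine ae_of_all _ fun l hl => ?_
    have hl0 : 0 < l := lt_trans one_pos hl
    rw [Real.norm_of_nonneg (pow_gz_nonneg p hl0)]
    apply mul_le_mul_of_nonneg_right _ (gz_pos hl0).le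
    exact Real.rpow_le_rpow_of_exponent_le (le_of_lt hl) (by linarith)

private lemma int_sphere (hn : 1 ≤ n) {σ : Measure (E (n + 1))} (hσ : SphM σ) {s : ℝ} (hs0 : 0 < s)
    (hs : s < n) : IntegrableOn (fun l : ℝ => l ^ (s / 2 - 1) * gz σ l) (Ioi 0) := by
  have : IsProbabilityMeasure σ := ⟨hσ.1⟩
  obtain ⟨C, hC, h⟩ := gz_sphere_le hn hσ
  rw [← Ioc_union_Ioi_eq_Ioi zero_le_one]
  apply IntegrableOn.union
  · have h1 : IntegrableOn (fun l : ℝ => l ^ (s / 2 - 1)) (Ioc 0 1) := by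
      have := intervalIntegral.intervalIntegrable_rpow' (a := 0) (b := 1) (r := s / 2 - 1) (by linarith)
      rwa [intervalIntegrable_iff_integrableOn_Ioc_of_le zero_le_one] at this
    refine Integrable.mono' h1 ((meas_pow_gz s).mono_measure
      (Measure.restrict_mono Ioc_subset_Ioi_self le_rfl)) ?_
    rw [ae_restrict_iff' measurableSet_Ioc]
    refine ae_of_all _ fun l hl => ?_
    rw [Real.norm_of_nonneg (pow_gz_nonneg s hl.1)]
    exact mul_le_of_le_one_right (Real.rpow_nonneg hl.1.le _) (gz_le_one hl.1)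
  · have h1 : IntegrableOn (fun l : ℝ => C * l ^ (s / 2 - 1 - (n : ℝ) / 2)) (Ioi 1) :=
      (integrableOn_Ioi_rpow_of_lt (by linarith) one_pos).const_mul C
    refine Integrable.mono' h1 ((meas_pow_gz s).mono_measure
      (Measure.restrict_mono (Ioi_subset_Ioi zero_le_one) le_rfl)) ?_
    rw [ae_restrict_iff' measurableSet_Ioi]
    refine ae_of_all _ fun l hl => ?_
    have hl0 : 0 < l := lt_trans one_pos hl
    rw [Real.norm_of_nonneg (pow_gz_nonneg s hl0)]
    calc l ^ (s / 2 - 1) * gz σ l ≤ l ^ (s / 2 - 1) * (C * l ^ (-(n : ℝ) / 2)) :=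
          mul_le_mul_of_nonneg_left (h l (le_of_lt hl)) (Real.rpow_nonneg hl0.le _)
      _ = C * l ^ (s / 2 - 1 - (n : ℝ) / 2) := by
          rw [show s / 2 - 1 - (n : ℝ) / 2 = (s / 2 - 1) + (-(n : ℝ) / 2) by ring,
            Real.rpow_add hl0]
          ring

theorem en_sphere_fin (hn : 1 ≤ n) {σ : Measure (E (n + 1))} (hσ : SphM σ) {s : ℝ} (hs0 : 0 < s) (hs : s < n) :
    en s σ ≠ 0 ∧ en s σ < ⊤ := by
  have : IsProbabilityMeasure σ := ⟨hσ.1⟩
  have h1 := int_sphere hn hσ hs0 hs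
  have h2 : en s σ < ⊤ := (en_lt_iff hs0).2 h1
  refine ⟨?_, h2⟩
  rw [en_real hs0 h2, Ne, ENNReal.ofReal_eq_zero, not_le]
  exact mul_pos (gam_pos hs0) (int_pos h1)

/-- scaling -/
private lemma scale_int {σ : Measure (E (n + 1))} {R : ℝ} (hR : 0 < R) {s : ℝ}
    (h : IntegrableOn (fun l : ℝ => l ^ (s / 2 - 1) * gz σ l) (Ioi 0)) :
    IntegrableOn (fun l : ℝ => l ^ (s / 2 - 1) * gz σ (R ^ 2 * l)) (Ioi 0) ∧
      ∫ l in Ioi (0 : ℝ), l ^ (s / 2 - 1) * gz σ (R ^ 2 * l) =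
        R ^ (-s) * ∫ l in Ioi (0 : ℝ), l ^ (s / 2 - 1) * gz σ l := by
  have hR2 : 0 < R ^ 2 := by positivity
  set g : ℝ → ℝ := fun l => l ^ (s / 2 - 1) * gz σ l with hg
  have e : ∀ l ∈ Ioi (0 : ℝ), l ^ (s / 2 - 1) * gz σ (R ^ 2 * l) =
      (R ^ 2) ^ (-(s / 2 - 1)) * g (R ^ 2 * l) := by
    intro l hl
    simp only [hg]
    rw [Real.mul_rpow hR2.le (le_of_lt hl), Real.rpow_neg hR2.le]
    have : (R ^ 2) ^ (s / 2 - 1) ≠ 0 := (Real.rpow_pos_of_pos hR2 _).ne'
    field_simp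
  have h2 : IntegrableOn (fun l : ℝ => g (R ^ 2 * l)) (Ioi 0) := by
    rw [integrableOn_Ioi_comp_mul_left_iff _ _ hR2, mul_zero]
    exact h
  constructor
  · exact IntegrableOn.congr_fun (h2.const_mul _) (fun l hl => (e l hl).symm) measurableSet_Ioi
  · rw [setIntegral_congr_fun measurableSet_Ioi e, integral_const_mul,
      integral_comp_mul_left_Ioi g 0 hR2, mul_zero, smul_eq_mul, ← mul_assoc]
    congr 1
    rw [← Real.rpow_neg_one (R ^ 2), ← Real.rpow_add hR2, ← Real.rpow_natCast R 2,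
      ← Real.rpow_mul hR.le]
    congr 1
    push_cast
    ring

theorem main_pos (hn : 2 ≤ n) {σ : Measure (E (n + 1))} (hσ : SphM σ) {p q : ℝ} (hp : 0 < p) (hpq : p < q)
    (hq : q < n) {K : Set (E n)} (hK : IsCompact K) {μ : Measure (E n)} (hμ : PK K μ) :
    en p μ ≤ en p σ * (en q μ / en q σ) ^ (p / q) := by
  have : IsProbabilityMeasure σ := ⟨hσ.1⟩
  have : IsProbabilityMeasure μ := ⟨hμ.1⟩
  have hq0 : 0 < q := lt_trans hp hpq
  obtain ⟨hσp0, hσp⟩ := en_sphere_fin (by omega) hσ hp (lt_trans hpq hq)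
  obtain ⟨hσq0, hσq⟩ := en_sphere_fin (by omega) hσ hq0 hq
  rcases eq_or_ne (en q μ) ⊤ with htop | hfin
  · rw [htop, ENNReal.top_div_of_lt_top hσq, ENNReal.top_rpow_of_pos (by positivity),
      ENNReal.mul_top hσp0]
    exact le_top
  have hfin' : en q μ < ⊤ := lt_top_iff_ne_top.2 hfin
  have hIq := (en_lt_iff hq0).1 hfin'
  have hIp := int_lower hp hpq.le hIq
  have hJq := int_sphere (by omega) hσ hq0 hq
  have hJp := int_sphere (by omega) hσ hp (lt_trans hpq hq)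
  have hfinp : en p μ < ⊤ := (en_lt_iff hp).2 hIp
  set a := ∫ l in Ioi (0 : ℝ), l ^ (q / 2 - 1) * gz μ l with ha
  set b := ∫ l in Ioi (0 : ℝ), l ^ (q / 2 - 1) * gz σ l with hb
  have ha0 : 0 < a := int_pos hIq
  have hb0 : 0 < b := int_pos hJq
  set R : ℝ := (b / a) ^ (1 / q) with hR
  have hR0 : 0 < R := Real.rpow_pos_of_pos (div_pos hb0 ha0) _
  have hRq : R ^ (-q) = a / b := by
    rw [hR, ← Real.rpow_mul (div_pos hb0 ha0).le,
      show 1 / q * -q = -1 by field_simp, Real.rpow_neg_one, inv_div]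
  have hRp : R ^ (-p) = (a / b) ^ (p / q) := by
    rw [← hRq, ← Real.rpow_mul hR0.le]
    congr 1
    field_simp
  obtain ⟨hSq, hSq'⟩ := scale_int hR0 hJq
  obtain ⟨hSp, hSp'⟩ := scale_int hR0 hJp
  have hdiff : ∀ s : ℝ, (fun l : ℝ => l ^ (s / 2 - 1) * (gz μ l - gz σ (R ^ 2 * l))) =
      fun l => l ^ (s / 2 - 1) * gz μ l - l ^ (s / 2 - 1) * gz σ (R ^ 2 * l) := by
    intro s
    funext l
    ring
  have key := mellin_pos (g1 := gz μ) (g2 := fun l => gz σ (R ^ 2 * l)) hpq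
    (fun l0 l1 h0 h01 h => crossing hn hσ hR0 h0 h01 h)
    (by rw [hdiff]; exact hIq.sub hSq) (by rw [hdiff]; exact hIp.sub hSp)
    (by
      rw [hdiff, integral_sub hIq hSq, hSq', hRq, ← ha, ← hb, div_mul_cancel₀ _ hb0.ne', sub_self])
  rw [hdiff, integral_sub hIp hSp, hSp', hRp] at key
  rw [en_real hp hfinp, en_real hp hσp, en_real hq0 hfin', en_real hq0 hσq,
    ← ENNReal.ofReal_div_of_pos (mul_pos (gam_pos hq0) hb0),
    ENNReal.ofReal_rpow_of_nonneg (by have := gam_pos hq0; positivity) (by positivity),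
    ← ENNReal.ofReal_mul (mul_nonneg (gam_pos hp).le (int_pos hJp).le)]
  apply ENNReal.ofReal_le_ofReal
  have e1 : (Real.Gamma (q / 2))⁻¹ * a / ((Real.Gamma (q / 2))⁻¹ * b) = a / b :=
    mul_div_mul_left _ _ (gam_pos hq0).ne'
  rw [e1, mul_assoc]
  apply mul_le_mul_of_nonneg_left _ (gam_pos hp).le
  linarith

/-- lower bound of the Gaussian energy -/
private lemma gz_ge {m : ℕ} {μ : Measure (E m)} [IsProbabilityMeasure μ] {D l : ℝ} (hl : 0 < l)
    (h : ∀ᵐ x ∂μ, ∀ᵐ y ∂μ, dist x y ≤ D) : Real.exp (-l * D ^ 2) ≤ gz μ l := by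
  have hint : Integrable (fun z : E m × E m => Real.exp (-l * ‖z.1 - z.2‖ ^ 2)) (μ.prod μ) := by
    refine Integrable.mono' (integrable_const (1 : ℝ)) ?_ (ae_of_all _ fun z => ?_)
    · exact (by fun_prop : Continuous fun z : E m × E m =>
        Real.exp (-l * ‖z.1 - z.2‖ ^ 2)).aestronglyMeasurable
    · rw [Real.norm_of_nonneg (Real.exp_pos _).le]
      apply Real.exp_le_one_iff.2
      have : 0 ≤ l * ‖z.1 - z.2‖ ^ 2 := by positivity
      linarith
  have hinner : ∀ x : E m, Integrable (fun y : E m => Real.exp (-l * ‖x - y‖ ^ 2)) μ := by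
    intro x
    refine Integrable.mono' (integrable_const (1 : ℝ)) ?_ (ae_of_all _ fun y => ?_)
    · exact (by fun_prop : Continuous fun y : E m =>
        Real.exp (-l * ‖x - y‖ ^ 2)).aestronglyMeasurable
    · rw [Real.norm_of_nonneg (Real.exp_pos _).le]
      apply Real.exp_le_one_iff.2
      have : 0 ≤ l * ‖x - y‖ ^ 2 := by positivity
      linarith
  have e : Real.exp (-l * D ^ 2) = ∫ _x : E m, Real.exp (-l * D ^ 2) ∂μ := by
    simp
  unfold gz
  rw [e]
  apply integral_mono_ae (integrable_const _) hint.integral_prod_left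
  filter_upwards [h] with x hx
  have e2 : Real.exp (-l * D ^ 2) = ∫ _y : E m, Real.exp (-l * D ^ 2) ∂μ := by
    simp
  rw [e2]
  apply integral_mono_ae (integrable_const _) (hinner x)
  filter_upwards [hx] with y hy
  apply Real.exp_le_exp.2
  have h1 : ‖x - y‖ ≤ D := by rwa [← dist_eq_norm]
  have h2 : ‖x - y‖ ^ 2 ≤ D ^ 2 := pow_le_pow_left₀ (norm_nonneg _) h1 2
  nlinarith

private lemma log_nonneg' {m : ℕ} {μ : Measure (E m)} [IsProbabilityMeasure μ] {D : ℝ}
    (h : ∀ᵐ x ∂μ, ∀ᵐ y ∂μ, dist x y ≤ D) {l : ℝ} (hl : 0 < l) :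
    0 ≤ (gz μ l - Real.exp (-l * D ^ 2)) / l :=
  div_nonneg (sub_nonneg.2 (gz_ge hl h)) hl.le

private lemma log_int {m : ℕ} {μ : Measure (E m)} [IsProbabilityMeasure μ] {D q : ℝ} (hq : 0 < q)
    (h : ∀ᵐ x ∂μ, ∀ᵐ y ∂μ, dist x y ≤ D)
    (hI : IntegrableOn (fun l : ℝ => l ^ (q / 2 - 1) * gz μ l) (Ioi 0)) :
    IntegrableOn (fun l : ℝ => (gz μ l - Real.exp (-l * D ^ 2)) / l) (Ioi 0) := by
  have hmeas : AEStronglyMeasurable (fun l : ℝ => (gz μ l - Real.exp (-l * D ^ 2)) / l)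
      (volume.restrict (Ioi 0)) := by
    apply ContinuousOn.aestronglyMeasurable _ measurableSet_Ioi
    apply ContinuousOn.div (gz_cont.sub (by fun_prop)) continuousOn_id
    intro l hl
    exact ne_of_gt hl
  rw [← Ioc_union_Ioi_eq_Ioi zero_le_one]
  apply IntegrableOn.union
  · have h1 : IntegrableOn (fun _ : ℝ => D ^ 2) (Ioc 0 1) := integrableOn_const (by simp) (by simp)
    refine Integrable.mono' h1 (hmeas.mono_measure
      (Measure.restrict_mono Ioc_subset_Ioi_self le_rfl)) ?_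
    rw [ae_restrict_iff' measurableSet_Ioc]
    refine ae_of_all _ fun l hl => ?_
    rw [Real.norm_of_nonneg (log_nonneg' h hl.1), div_le_iff₀ hl.1]
    have h2 := gz_le_one (μ := μ) hl.1
    have h3 := Real.add_one_le_exp (-l * D ^ 2)
    linarith
  · refine Integrable.mono' (hI.mono_set (Ioi_subset_Ioi zero_le_one)) (hmeas.mono_measure
      (Measure.restrict_mono (Ioi_subset_Ioi zero_le_one) le_rfl)) ?_
    rw [ae_restrict_iff' measurableSet_Ioi]
    refine ae_of_all _ fun l hl => ?_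
    have hl0 : 0 < l := lt_trans one_pos hl
    rw [Real.norm_of_nonneg (log_nonneg' h hl0)]
    have h1 : (gz μ l - Real.exp (-l * D ^ 2)) / l ≤ l ^ (-1 : ℝ) * gz μ l := by
      rw [Real.rpow_neg_one, div_eq_inv_mul]
      apply mul_le_mul_of_nonneg_left _ (inv_pos.2 hl0).le
      have := Real.exp_pos (-l * D ^ 2)
      linarith
    refine le_trans h1 (mul_le_mul_of_nonneg_right ?_ (gz_pos hl0).le)
    exact Real.rpow_le_rpow_of_exponent_le (le_of_lt hl) (by linarith)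

private lemma lgE_real {m : ℕ} {μ : Measure (E m)} [IsProbabilityMeasure μ] {D q : ℝ} (hq : 0 < q)
    (hD : 0 < D) (h : ∀ᵐ x ∂μ, ∀ᵐ y ∂μ, dist x y ≤ D)
    (hI : IntegrableOn (fun l : ℝ => l ^ (q / 2 - 1) * gz μ l) (Ioi 0)) :
    lgE D μ = ENNReal.ofReal (1 / 2) *
      ENNReal.ofReal (∫ l in Ioi (0 : ℝ), (gz μ l - Real.exp (-l * D ^ 2)) / l) := by
  unfold lgE
  rw [log_eq hD h, ofReal_integral_eq_lintegral_ofReal (log_int hq h hI)]
  rw [Filter.EventuallyLE, ae_restrict_iff' measurableSet_Ioi]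
  exact ae_of_all _ fun l hl => log_nonneg' h hl

theorem main_log (hn : 2 ≤ n) {σ : Measure (E (n + 1))} (hσ : SphM σ) {q : ℝ} (hq0 : 0 < q) (hq : q < n)
    {K : Set (E n)} (hK : IsCompact K) {μ : Measure (E n)} (hμ : PK K μ) (hfin : en q μ < ⊤) {D R : ℝ}
    (hR : R = ((en q σ).toReal / (en q μ).toReal) ^ (1 / q)) (hD : 2 * R ≤ D) (hDK : Metric.diam K ≤ D) :
    lgE D μ ≤ lgE (D / R) σ ∧ lgE (D / R) σ < ⊤ := by
  have : IsProbabilityMeasure σ := ⟨hσ.1⟩
  have : IsProbabilityMeasure μ := ⟨hμ.1⟩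
  obtain ⟨hσq0, hσq⟩ := en_sphere_fin (by omega) hσ hq0 hq
  have hIq := (en_lt_iff hq0).1 hfin
  have hJq := int_sphere (by omega) hσ hq0 hq
  set a := ∫ l in Ioi (0 : ℝ), l ^ (q / 2 - 1) * gz μ l with ha
  set b := ∫ l in Ioi (0 : ℝ), l ^ (q / 2 - 1) * gz σ l with hb
  have ha0 : 0 < a := int_pos hIq
  have hb0 : 0 < b := int_pos hJq
  have hg := gam_pos hq0
  have hR' : R = (b / a) ^ (1 / q) := by
    rw [hR, en_real hq0 hfin, en_real hq0 hσq, ENNReal.toReal_ofReal (by positivity),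
      ENNReal.toReal_ofReal (by positivity), mul_div_mul_left _ _ hg.ne']
  have hR0 : 0 < R := by rw [hR']; exact Real.rpow_pos_of_pos (div_pos hb0 ha0) _
  have hRq : R ^ (-q) = a / b := by
    rw [hR', ← Real.rpow_mul (div_pos hb0 ha0).le,
      show 1 / q * -q = -1 by field_simp, Real.rpow_neg_one, inv_div]
  have hD0 : 0 < D := by linarith
  have hDR : 0 < D / R := div_pos hD0 hR0
  obtain ⟨hSq, hSq'⟩ := scale_int hR0 hJq
  -- supports
  have hsμ : ∀ᵐ x ∂μ, x ∈ K := by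
    rw [ae_iff]
    exact hμ.2
  have hdμ : ∀ᵐ x ∂μ, ∀ᵐ y ∂μ, dist x y ≤ D := by
    filter_upwards [hsμ] with x hx
    filter_upwards [hsμ] with y hy
    exact le_trans (Metric.dist_le_diam_of_mem hK.isBounded hx hy) hDK
  have hsσ : ∀ᵐ x ∂σ, x ∈ Metric.sphere (0 : E (n + 1)) 1 := by
    rw [ae_iff]
    exact hσ.2.1
  have hdσ : ∀ᵐ x ∂σ, ∀ᵐ y ∂σ, dist x y ≤ D / R := by
    have h2 : 2 ≤ D / R := by rwa [le_div_iff₀ hR0]
    filter_upwards [hsσ] with x hx
    filter_upwards [hsσ] with y hy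
    rw [mem_sphere_zero_iff_norm] at hx hy
    have := norm_sub_le x y
    rw [dist_eq_norm]
    linarith
  have hLμ := log_int hq0 hdμ hIq
  have hLσ := log_int hq0 hdσ hJq
  -- scaling
  set f : ℝ → ℝ := fun l => (gz σ l - Real.exp (-l * (D / R) ^ 2)) / l with hf
  have hR2 : 0 < R ^ 2 := by positivity
  have e : ∀ l ∈ Ioi (0 : ℝ), (gz σ (R ^ 2 * l) - Real.exp (-l * D ^ 2)) / l =
      R ^ 2 * f (R ^ 2 * l) := by
    intro l hl
    have hl' : l ≠ 0 := ne_of_gt hl
    have e1 : -(R ^ 2 * l) * (D / R) ^ 2 = -l * D ^ 2 := by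
      field_simp
    simp only [hf]
    rw [e1]
    field_simp
  have hfs : IntegrableOn (fun l : ℝ => f (R ^ 2 * l)) (Ioi 0) := by
    rw [integrableOn_Ioi_comp_mul_left_iff _ _ hR2, mul_zero]
    exact hLσ
  have hTσ : IntegrableOn (fun l : ℝ => (gz σ (R ^ 2 * l) - Real.exp (-l * D ^ 2)) / l) (Ioi 0) :=
    IntegrableOn.congr_fun (hfs.const_mul _) (fun l hl => (e l hl).symm) measurableSet_Ioi
  have hTσ' : ∫ l in Ioi (0 : ℝ), (gz σ (R ^ 2 * l) - Real.exp (-l * D ^ 2)) / l =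
      ∫ l in Ioi (0 : ℝ), f l := by
    rw [setIntegral_congr_fun measurableSet_Ioi e, integral_const_mul,
      integral_comp_mul_left_Ioi f 0 hR2, mul_zero, smul_eq_mul, ← mul_assoc,
      mul_inv_cancel₀ hR2.ne', one_mul]
  -- comparison
  have hdiff : (fun l : ℝ => l ^ (q / 2 - 1) * (gz μ l - gz σ (R ^ 2 * l))) =
      fun l => l ^ (q / 2 - 1) * gz μ l - l ^ (q / 2 - 1) * gz σ (R ^ 2 * l) := by
    funext l
    ring
  have hdiff0 : ∀ l ∈ Ioi (0 : ℝ), l ^ ((0 : ℝ) / 2 - 1) * (gz μ l - gz σ (R ^ 2 * l)) =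
      (gz μ l - Real.exp (-l * D ^ 2)) / l - (gz σ (R ^ 2 * l) - Real.exp (-l * D ^ 2)) / l := by
    intro l hl
    rw [zero_div, zero_sub, Real.rpow_neg_one]
    have hl' : l ≠ 0 := ne_of_gt hl
    field_simp
    ring
  have key := mellin_pos (g1 := gz μ) (g2 := fun l => gz σ (R ^ 2 * l)) (p := 0) hq0
    (fun l0 l1 h0 h01 h => crossing hn hσ hR0 h0 h01 h)
    (by rw [hdiff]; exact hIq.sub hSq)
    (IntegrableOn.congr_fun (hLμ.sub hTσ) (fun l hl => (hdiff0 l hl).symm) measurableSet_Ioi)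
    (by
      rw [hdiff, integral_sub hIq hSq, hSq', hRq, ← ha, ← hb, div_mul_cancel₀ _ hb0.ne', sub_self])
  rw [setIntegral_congr_fun measurableSet_Ioi hdiff0, integral_sub hLμ hTσ, hTσ'] at key
  rw [lgE_real hq0 hD0 hdμ hIq, lgE_real hq0 hDR hdσ hJq]
  refine ⟨?_, ENNReal.mul_lt_top ENNReal.ofReal_lt_top ENNReal.ofReal_lt_top⟩
  exact mul_le_mul' le_rfl (ENNReal.ofReal_le_ofReal (by linarith))

end Pool.Agent.Lib.MP_6cd19d_an.HP
end
end

section

section

/-!
# The ball has no smaller energy than the sphere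

For `p ≤ n - 1` (`= N - 2`, `N = n+1`), `σ` minimises the energy among the measures on the closed unit ball.  This is the
argument of `ND/B21a.lean` (`ball_gp`, `ball_gp0`) with `σ` in place of `mB`: for the regularised kernel `gp p e R` (`goodG_gp`,
needs `p ≤ N - 2`) the potential `V` of `σ` is a decreasing function of `|x|` (`rot_antitone`), so `V ≥ V(1)` on the ball;
`mixture_pd` with `gp_mixture` gives `∬ g dν dν ≥ 2 ∬ g dσ dν - ∬ g dσ dσ ≥ V(1) = ∬ g dσ dσ`.  Let `e → 0` (Fatou/monotone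
as there: `gp_le_gp0` on the right, `gp_tendsto` and Fatou on the left) and translate `gp0` into the energies:
`p > 0`: `energy_add_eq` (`ND/B22a.lean`); `p = 0`: `gp0_zero` (`ND/B17.lean`).
-/

set_option autoImplicit false

open MeasureTheory ProbabilityTheory Set Filter Topology
open scoped ENNReal NNReal

namespace Pool.Agent.Lib.MP_6cd19d_an.HP

open Pool.Agent.Lib.MP_6cd19d_an.ND

variable {n : ℕ}


private theorem f1_cont {m : ℕ} {g : ℝ → ℝ} (hg : ContinuousOn g (Ici 0)) :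
    Continuous fun q : E m × E m => g (‖q.1 - q.2‖ ^ 2) := by
  refine hg.comp_continuous (by fun_prop) fun q => ?_
  simp only [mem_Ici]
  positivity

private theorem f1_meas {m : ℕ} {ν : Measure (E m)} [IsProbabilityMeasure ν] {g : ℝ → ℝ}
    (hg : ContinuousOn g (Ici 0)) :
    StronglyMeasurable fun x : E m => ∫ y, g (‖x - y‖ ^ 2) ∂ν :=
  ((f1_cont hg).stronglyMeasurable).integral_prod_right (ν := ν)

private theorem f1_ae {m : ℕ} {ν : Measure (E m)} {S : Set (E m)} (hν : ν Sᶜ = 0) :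
    ∀ᵐ x ∂ν, x ∈ S := by
  rw [ae_iff]
  exact hν

private theorem f1_int {m : ℕ} {ν : Measure (E m)} [IsProbabilityMeasure ν] {S : Set (E m)}
    {R : ℝ} (hS : ∀ x ∈ S, ∀ y ∈ S, ‖x - y‖ ^ 2 ≤ R) (hν : ν Sᶜ = 0) {g : ℝ → ℝ}
    (hg : ContinuousOn g (Ici 0)) (hg0 : ∀ ρ, 0 ≤ ρ → ρ ≤ R → 0 ≤ g ρ)
    (hg1 : ∀ ρ, 0 ≤ ρ → g ρ ≤ g 0) {x : E m} (hx : x ∈ S) :
    Integrable (fun y => g (‖x - y‖ ^ 2)) ν := by
  have hc : Continuous fun y : E m => g (‖x - y‖ ^ 2) := by
    refine hg.comp_continuous (by fun_prop) fun q => ?_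
    simp only [mem_Ici]
    positivity
  refine Integrable.of_bound hc.aestronglyMeasurable (g 0) ?_
  filter_upwards [f1_ae hν] with y hy
  rw [Real.norm_eq_abs, abs_of_nonneg (hg0 _ (by positivity) (hS x hx y hy))]
  exact hg1 _ (by positivity)

private theorem f1_conv {m : ℕ} {ν : Measure (E m)} [IsProbabilityMeasure ν] {S : Set (E m)}
    {R : ℝ} (hS : ∀ x ∈ S, ∀ y ∈ S, ‖x - y‖ ^ 2 ≤ R) (hν : ν Sᶜ = 0) {g : ℝ → ℝ}
    (hg : ContinuousOn g (Ici 0)) (hg0 : ∀ ρ, 0 ≤ ρ → ρ ≤ R → 0 ≤ g ρ)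
    (hg1 : ∀ ρ, 0 ≤ ρ → g ρ ≤ g 0) :
    ENNReal.ofReal (∫ x, ∫ y, g (‖x - y‖ ^ 2) ∂ν ∂ν) =
      ∫⁻ x, ∫⁻ y, ENNReal.ofReal (g (‖x - y‖ ^ 2)) ∂ν ∂ν := by
  have hnn : ∀ x ∈ S, 0 ≤ᵐ[ν] fun y => g (‖x - y‖ ^ 2) := by
    intro x hx
    filter_upwards [f1_ae hν] with y hy
    exact hg0 _ (by positivity) (hS x hx y hy)
  have h1 : Integrable (fun x => ∫ y, g (‖x - y‖ ^ 2) ∂ν) ν := by
    refine Integrable.of_bound (f1_meas hg).aestronglyMeasurable (g 0) ?_
    filter_upwards [f1_ae hν] with x hx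
    rw [Real.norm_eq_abs, abs_of_nonneg (integral_nonneg_of_ae (hnn x hx))]
    calc ∫ y, g (‖x - y‖ ^ 2) ∂ν ≤ ∫ y, g 0 ∂ν :=
          integral_mono (f1_int hS hν hg hg0 hg1 hx) (integrable_const _)
            fun y => hg1 _ (by positivity)
      _ = g 0 := by simp
  rw [ofReal_integral_eq_lintegral_ofReal h1 ?_]
  · refine lintegral_congr_ae ?_
    filter_upwards [f1_ae hν] with x hx
    exact ofReal_integral_eq_lintegral_ofReal (f1_int hS hν hg hg0 hg1 hx) (hnn x hx)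
  · filter_upwards [f1_ae hν] with x hx
    exact integral_nonneg_of_ae (hnn x hx)

private theorem f1_gcont {p e R : ℝ} {m : ℕ} (he : 0 < e) (hR : 0 < R)
    (hp2 : p ≤ (m : ℝ) - 2) : ContinuousOn (gp p e R) (Ici 0) := by
  refine (goodG_gp (n := m) he hR hp2).smooth.continuousOn.mono ?_
  intro t ht
  have he2 : 0 < e ^ 2 := by positivity
  simp only [mem_Ici, mem_Ioi] at ht ⊢
  linarith

private theorem f1_geom {m : ℕ} {R : ℝ} (hR : 4 ≤ R) :
    ∀ x ∈ Metric.closedBall (0 : E m) 1, ∀ y ∈ Metric.closedBall (0 : E m) 1,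
      ‖x - y‖ ^ 2 ≤ R := by
  intro x hx y hy
  rw [mem_closedBall_zero_iff] at hx hy
  refine le_trans ?_ hR
  have h1 : ‖x - y‖ ≤ 2 := by
    refine (norm_sub_le x y).trans ?_
    linarith
  calc ‖x - y‖ ^ 2 ≤ 2 ^ 2 := by gcongr
    _ = 4 := by norm_num

private theorem f1_sph {m : ℕ} {σ : Measure (E (m + 1))} (hσ : SphM σ) :
    σ (Metric.closedBall (0 : E (m + 1)) 1)ᶜ = 0 :=
  measure_mono_null (compl_subset_compl.2 Metric.sphere_subset_closedBall) hσ.2.1

private theorem f1_gp (hn : 2 ≤ n) {σ : Measure (E (n + 1))} (hσ : SphM σ) {p e : ℝ}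
    (hp : -2 < p) (hp2 : p ≤ (n : ℝ) - 1) (he : 0 < e)
    {ν : Measure (E (n + 1))} (hν : PK (Metric.closedBall (0 : E (n + 1)) 1) ν) {R : ℝ}
    (hR4 : 4 ≤ R) :
    ∫ x, ∫ y, gp p e R (‖x - y‖ ^ 2) ∂σ ∂σ ≤
      ∫ x, ∫ y, gp p e R (‖x - y‖ ^ 2) ∂ν ∂ν := by
  have hS := f1_geom (m := n + 1) hR4
  have hR : 0 < R := by linarith
  have hBS := f1_sph hσ
  have hμS := hν.2
  have hP1 : IsProbabilityMeasure ν := ⟨hν.1⟩
  have hP2 : IsProbabilityMeasure σ := ⟨hσ.1⟩
  have hp3 : p ≤ ((n + 1 : ℕ) : ℝ) - 2 := by push_cast; linarith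
  have hgood : GoodG (n + 1) (gp p e R) (e ^ 2) := goodG_gp he hR hp3
  have hgc : ContinuousOn (gp p e R) (Ici 0) := f1_gcont he hR hp3
  have he2 : 0 < e ^ 2 := by positivity
  -- positive definiteness
  have hmix := mixture_pd (α := ν) (β := σ)
    (S := Metric.closedBall (0 : E (n + 1)) 1)
    Metric.isClosed_closedBall.measurableSet hμS hBS (R2 := R) hS (k := gp p e R)
    (w := fun u => (2 * Real.Gamma (p / 2 + 1))⁻¹ * u ^ (p / 2 - 1) * Real.exp (-u * e ^ 2))
    (k0 := gp p e R 0)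
    (by
      refine ((measurable_const.mul (measurable_id.pow_const _))).mul ?_
      exact (by fun_prop : Continuous fun u : ℝ => Real.exp (-u * e ^ 2)).measurable)
    (fun u hu => by
      have hG : 0 < Real.Gamma (p / 2 + 1) := Real.Gamma_pos_of_pos (by linarith)
      have hu' : 0 ≤ u ^ (p / 2 - 1) := Real.rpow_nonneg hu.le _
      positivity)
    (gp_mixture hp he hR.le).1
    (fun ρ hρ hρR => by
      have h1 := (gp_mixture hp he hρ).2
      rw [← h1]
      have hii : ∀ a b : ℝ, 0 ≤ a → 0 ≤ b →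
          IntervalIntegrable (fun t : ℝ => (t + e ^ 2) ^ (-p / 2 - 1)) volume a b := by
        intro a b ha hb
        refine ContinuousOn.intervalIntegrable ?_
        refine ContinuousOn.rpow_const (by fun_prop) fun t ht => Or.inl ?_
        rw [mem_uIcc] at ht
        rcases ht with ht | ht <;> linarith [ht.1]
      have h2 := intervalIntegral.integral_add_adjacent_intervals (hii 0 ρ le_rfl hρ)
        (hii ρ R hρ hR.le)
      unfold gp
      rw [← h2]
      ring)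
  obtain ⟨x1, hx1⟩ : ∃ x : E (n + 1), ‖x‖ = 1 := by
    refine ⟨EuclideanSpace.single (⟨0, by omega⟩ : Fin (n + 1)) 1, ?_⟩
    rw [PiLp.norm_single, Real.norm_eq_abs, abs_of_nonneg zero_le_one]
  obtain ⟨V, hV⟩ : ∃ V : E (n + 1) → ℝ, V = fun x => ∫ y, gp p e R (‖x - y‖ ^ 2) ∂σ := ⟨_, rfl⟩
  have hanti : ∀ x x' : E (n + 1), ‖x‖ ≤ ‖x'‖ → V x' ≤ V x := by
    intro x x' h
    rw [hV]
    exact rot_antitone (n := n + 1) (by omega) hBS hσ.2.2 hgood h
  have hVint : ∀ (τ : Measure (E (n + 1))) [IsProbabilityMeasure τ],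
      τ (Metric.closedBall (0 : E (n + 1)) 1)ᶜ = 0 → Integrable V τ := by
    intro τ _ hτ
    have hm : StronglyMeasurable V := by
      rw [hV]
      exact f1_meas (ν := σ) hgc
    refine Integrable.of_bound hm.aestronglyMeasurable (|V 0| + |V x1|) ?_
    filter_upwards [f1_ae hτ] with x hx
    rw [mem_closedBall_zero_iff] at hx
    have h1 := hanti 0 x (by simp)
    have h2 := hanti x x1 (by rw [hx1]; exact hx)
    rw [Real.norm_eq_abs, abs_le]
    have h3 := abs_nonneg (V 0)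
    have h4 := le_abs_self (V 0)
    have h5 := neg_abs_le (V x1)
    have h6 := abs_nonneg (V x1)
    constructor <;> linarith
  have hA : V x1 ≤ ∫ x, V x ∂ν := by
    have h1 : ∫ x, V x1 ∂ν ≤ ∫ x, V x ∂ν := by
      refine integral_mono_ae (integrable_const _) (hVint ν hμS) ?_
      filter_upwards [f1_ae hμS] with x hx
      rw [mem_closedBall_zero_iff] at hx
      exact hanti x x1 (by rw [hx1]; exact hx)
    simpa using h1
  have hB : ∫ x, V x ∂σ ≤ V x1 := by
    have h1 : ∫ x, V x ∂σ ≤ ∫ x, V x1 ∂σ := by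
      refine integral_mono_ae (hVint σ hBS) (integrable_const _) ?_
      filter_upwards [f1_ae hσ.2.1] with x hx
      rw [mem_sphere_zero_iff_norm] at hx
      exact hanti x1 x (by rw [hx1, hx])
    simpa using h1
  rw [hV] at hA hB
  simp only at hA hB
  linarith

private theorem f1_gp0 (hn : 2 ≤ n) {σ : Measure (E (n + 1))} (hσ : SphM σ) {p : ℝ}
    (hp : -2 < p) (hp2 : p ≤ (n : ℝ) - 1)
    {ν : Measure (E (n + 1))} (hν : PK (Metric.closedBall (0 : E (n + 1)) 1) ν) {R : ℝ}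
    (hR4 : 4 ≤ R) :
    ∫⁻ x, ∫⁻ y, gp0 p R (‖x - y‖ ^ 2) ∂σ ∂σ ≤
      ∫⁻ x, ∫⁻ y, gp0 p R (‖x - y‖ ^ 2) ∂ν ∂ν := by
  have hS := f1_geom (m := n + 1) hR4
  have hR : 0 < R := by linarith
  have hBS := f1_sph hσ
  have hμS := hν.2
  have hP1 : IsProbabilityMeasure ν := ⟨hν.1⟩
  have hP2 : IsProbabilityMeasure σ := ⟨hσ.1⟩
  have hp3 : p ≤ ((n + 1 : ℕ) : ℝ) - 2 := by push_cast; linarith
  have hstep : ∀ e : ℝ, 0 < e →
      ∫⁻ x, ∫⁻ y, ENNReal.ofReal (gp p e R (‖x - y‖ ^ 2)) ∂σ ∂σ ≤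
        ∫⁻ x, ∫⁻ y, gp0 p R (‖x - y‖ ^ 2) ∂ν ∂ν := by
    intro e he
    have hgc : ContinuousOn (gp p e R) (Ici 0) := f1_gcont he hR hp3
    have hg0 : ∀ ρ, 0 ≤ ρ → ρ ≤ R → 0 ≤ gp p e R ρ := fun ρ h1 h2 => gp_nonneg he h1 h2
    have hg1 : ∀ ρ, 0 ≤ ρ → gp p e R ρ ≤ gp p e R 0 := fun ρ h1 => gp_le_zero he h1
    rw [← f1_conv hS hBS hgc hg0 hg1]
    refine (ENNReal.ofReal_le_ofReal (f1_gp hn hσ hp hp2 he hν hR4)).trans ?_
    rw [f1_conv hS hμS hgc hg0 hg1]
    refine lintegral_mono_ae ?_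
    filter_upwards [f1_ae hμS] with x hx
    refine lintegral_mono_ae ?_
    filter_upwards [f1_ae hμS] with y hy
    exact gp_le_gp0 hp he (by positivity) (hS x hx y hy)
  -- the sequence
  have hek : ∀ k : ℕ, (0 : ℝ) < 1 / ((k : ℝ) + 1) := fun k => by positivity
  have hlim : Tendsto (fun k : ℕ => (1 : ℝ) / ((k : ℝ) + 1)) atTop (𝓝[>] 0) := by
    rw [tendsto_nhdsWithin_iff]
    exact ⟨tendsto_one_div_add_atTop_nhds_zero_nat, Eventually.of_forall fun k => hek k⟩
  have hmeas : ∀ k : ℕ, Measurable fun q : E (n + 1) × E (n + 1) =>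
      ENNReal.ofReal (gp p (1 / ((k : ℝ) + 1)) R (‖q.1 - q.2‖ ^ 2)) := fun k =>
    (f1_cont (f1_gcont (hek k) hR hp3)).measurable.ennreal_ofReal
  have hmeas' : ∀ (k : ℕ) (x : E (n + 1)), Measurable fun y : E (n + 1) =>
      ENNReal.ofReal (gp p (1 / ((k : ℝ) + 1)) R (‖x - y‖ ^ 2)) := fun k x => by
    refine Measurable.ennreal_ofReal (Continuous.measurable ?_)
    refine (f1_gcont (hek k) hR hp3).comp_continuous (by fun_prop) fun q => ?_
    simp only [mem_Ici]
    positivity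
  calc ∫⁻ x, ∫⁻ y, gp0 p R (‖x - y‖ ^ 2) ∂σ ∂σ
      ≤ ∫⁻ x, liminf (fun k : ℕ => ∫⁻ y, ENNReal.ofReal
          (gp p (1 / ((k : ℝ) + 1)) R (‖x - y‖ ^ 2)) ∂σ) atTop ∂σ := by
        refine lintegral_mono_ae ?_
        filter_upwards [f1_ae hBS] with x hx
        refine le_trans ?_ (lintegral_liminf_le fun k => hmeas' k x)
        refine lintegral_mono_ae ?_
        filter_upwards [f1_ae hBS] with y hy
        exact ((gp_tendsto hp (by positivity) (hS x hx y hy)).comp hlim).liminf_eq.ge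
    _ ≤ liminf (fun k : ℕ => ∫⁻ x, ∫⁻ y, ENNReal.ofReal
          (gp p (1 / ((k : ℝ) + 1)) R (‖x - y‖ ^ 2)) ∂σ ∂σ) atTop :=
        lintegral_liminf_le fun k => (hmeas k).lintegral_prod_right'
    _ ≤ ∫⁻ x, ∫⁻ y, gp0 p R (‖x - y‖ ^ 2) ∂ν ∂ν := by
        refine liminf_le_of_le (by isBoundedDefault) ?_
        intro b hb
        obtain ⟨k, hk⟩ := hb.exists
        exact hk.trans (hstep _ (hek k))

private theorem f1_lgE {m : ℕ} {D : ℝ} (hD : 2 ≤ D) {μ : Measure (E m)}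
    (hμ : μ (Metric.closedBall (0 : E m) 1)ᶜ = 0) :
    lgE D μ = ∫⁻ x, ∫⁻ y, gp0 0 (D ^ 2) (‖x - y‖ ^ 2) ∂μ ∂μ := by
  have hD4 : 4 ≤ D ^ 2 := by nlinarith
  have hS := f1_geom (m := m) hD4
  unfold lgE
  refine lintegral_congr_ae ?_
  filter_upwards [f1_ae hμ] with x hx
  refine lintegral_congr_ae ?_
  filter_upwards [f1_ae hμ] with y hy
  by_cases hxy : x = y
  · subst hxy
    rw [if_pos rfl]
    have h0 : ‖x - x‖ ^ 2 = (0 : ℝ) := by simp
    rw [h0, gp0_top le_rfl (by linarith)]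
  · rw [if_neg hxy]
    have hn0 : 0 < ‖x - y‖ := norm_pos_iff.2 (sub_ne_zero.2 hxy)
    rw [gp0_zero (by positivity) (hS x hx y hy), dist_eq_norm, ← div_pow, Real.log_pow]
    congr 1
    push_cast
    ring

theorem ball_ge_pos (hn : 2 ≤ n) {σ : Measure (E (n + 1))} (hσ : SphM σ) {p : ℝ} (hp : 0 < p)
    (hp2 : p ≤ (n : ℝ) - 1) {ν : Measure (E (n + 1))} (hν : PK (Metric.closedBall (0 : E (n + 1)) 1) ν) :
    en p σ ≤ en p ν := by
  have h1 := f1_gp0 hn hσ (by linarith : -2 < p) hp2 hν (R := 4) le_rfl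
  have hσ' : PK (Metric.closedBall (0 : E (n + 1)) 1) σ := ⟨hσ.1, f1_sph hσ⟩
  have hS : ∀ x ∈ Metric.closedBall (0 : E (n + 1)) 1, ∀ y ∈ Metric.closedBall (0 : E (n + 1)) 1,
      (1 : ℝ) * ‖x - y‖ ^ 2 ≤ 4 := by
    intro x hx y hy
    rw [one_mul]
    exact f1_geom (m := n + 1) le_rfl x hx y hy
  have e1 := energy_add_eq hp one_pos (by norm_num : (0 : ℝ) < 4) hσ' hS
  have e2 := energy_add_eq hp one_pos (by norm_num : (0 : ℝ) < 4) hν hS
  simp only [one_mul] at e1 e2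
  have h2 : ENNReal.ofReal ((1 : ℝ) ^ (-p / 2) / p) * en p σ ≤
      ENNReal.ofReal ((1 : ℝ) ^ (-p / 2) / p) * en p ν := by
    rw [← e1, ← e2]
    gcongr
  have hc : 0 < (1 : ℝ) ^ (-p / 2) / p := by positivity
  exact (ENNReal.mul_le_mul_iff_right (ENNReal.ofReal_pos.2 hc).ne' ENNReal.ofReal_ne_top).1 h2

theorem ball_ge_log (hn : 2 ≤ n) {σ : Measure (E (n + 1))} (hσ : SphM σ) {D : ℝ} (hD : 2 ≤ D)
    {ν : Measure (E (n + 1))} (hν : PK (Metric.closedBall (0 : E (n + 1)) 1) ν) :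
    lgE D σ ≤ lgE D ν := by
  have hn2 : (2 : ℝ) ≤ n := by exact_mod_cast hn
  have hD4 : 4 ≤ D ^ 2 := by nlinarith
  rw [f1_lgE hD (f1_sph hσ), f1_lgE hD hν.2]
  exact f1_gp0 hn hσ (by norm_num : (-2 : ℝ) < 0) (by linarith) hν hD4

end Pool.Agent.Lib.MP_6cd19d_an.HP
end

section

/-!
# The capacities

`cap_pos`: `0 < p < q ≤ n - 1`.  If `infEn q K = ⊤` then `capf q K = 0`.  Otherwise take the infimum over `μ` in `main_pos`
(the map `x ↦ (x/e)^(p/q)` is increasing and continuous on `[0,∞]`): `infEn p K ≤ e_p (infEn q K/e_q)^(p/q)`, `e_s = en s σ`.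
Hence `capf p K = (infEn p K)^(-1/p) ≥ e_p^(-1/p) e_q^(1/q) capf q K`.  For the ball `B` of `E (n+1)`:
`infEn q B ≤ e_q` (`σ` is a measure on `B`), `infEn p B ≥ e_p` (`ball_ge_pos`), so
`capf p B ≤ e_p^(-1/p)`, `capf q B ≥ e_q^(-1/q)`.  So `capf q K * capf p B ≤ capf p K * capf q B`.

`cap_zero`: `p = 0`.  `capf 0 K = (diam K + 1) exp(-logEn K)`, where `logEn K = inf lgE (diam K + 1)`.  For a measure `μ` on `K`
with `en q μ < ⊤` and `D` large, `D ≥ diam K + 1`: `lgE D μ = lgE (diam K+1) μ + log (D/(diam K+1))` (the same for `σ`), so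
`main_log` gives `lgE (diam K+1) μ - log(diam K + 1) ≤ - log R + ℓ`, `ℓ = lgE 2 σ - log 2`, `R = (e_q/en q μ)^(1/q)`.
So `capf 0 K ≥ R exp(-ℓ)`; the supremum over `μ`: `capf 0 K ≥ e_q^(1/q) capf q K exp(-ℓ)`.  For the ball
`capf 0 B ≤ exp(-ℓ)` by `ball_ge_log`, `capf q B ≥ e_q^(-1/q)`.
-/

set_option autoImplicit false

open MeasureTheory ProbabilityTheory Set Filter Topology
open scoped ENNReal NNReal

namespace Pool.Agent.Lib.MP_6cd19d_an.HP

open Pool.Agent.Lib.MP_6cd19d_an.ND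

variable {n : ℕ}

private lemma pk_ball {σ : Measure (E (n + 1))} (hσ : SphM σ) :
    PK (Metric.closedBall (0 : E (n + 1)) 1) σ := by
  refine ⟨hσ.1, measure_mono_null ?_ hσ.2.1⟩
  exact compl_subset_compl.2 Metric.sphere_subset_closedBall

private lemma lgE_shift {m : ℕ} {μ : Measure (E m)} {K : Set (E m)} (hK : PK K μ) {D0 D : ℝ}
    (h0 : 0 < D0) (h : D0 ≤ D) (hd : ∀ x ∈ K, ∀ y ∈ K, dist x y ≤ D0) :
    lgE D μ = lgE D0 μ + ENNReal.ofReal (Real.log (D / D0)) := by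
  have h1 : μ univ = 1 := hK.1
  have hae : ∀ᵐ x ∂μ, x ∈ K := by
    rw [ae_iff]
    exact hK.2
  unfold lgE
  calc ∫⁻ x, ∫⁻ y, (if x = y then (⊤ : ℝ≥0∞) else ENNReal.ofReal (Real.log (D / dist x y))) ∂μ ∂μ
      = ∫⁻ x, (∫⁻ y, (if x = y then (⊤ : ℝ≥0∞) else
          ENNReal.ofReal (Real.log (D0 / dist x y))) ∂μ + ENNReal.ofReal (Real.log (D / D0))) ∂μ := by
        apply lintegral_congr_ae
        filter_upwards [hae] with x hx
        have e : ∫⁻ y, (if x = y then (⊤ : ℝ≥0∞) else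
            ENNReal.ofReal (Real.log (D / dist x y))) ∂μ =
            ∫⁻ y, ((if x = y then (⊤ : ℝ≥0∞) else
              ENNReal.ofReal (Real.log (D0 / dist x y))) +
                ENNReal.ofReal (Real.log (D / D0))) ∂μ := by
          apply lintegral_congr_ae
          filter_upwards [hae] with y hy
          by_cases hxy : x = y
          · simp [hxy]
          · have hd0 : 0 < dist x y := dist_pos.2 hxy
            have hD : 0 < D := lt_of_lt_of_le h0 h
            rw [if_neg hxy, if_neg hxy, ← ENNReal.ofReal_add]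
            · congr 1
              rw [Real.log_div hD.ne' hd0.ne', Real.log_div h0.ne' hd0.ne',
                Real.log_div hD.ne' h0.ne']
              ring
            · exact Real.log_nonneg ((one_le_div hd0).2 (hd x hx y hy))
            · exact Real.log_nonneg ((one_le_div h0).2 h)
        rw [e, lintegral_add_right _ measurable_const, lintegral_const, h1, mul_one]
    _ = _ := by rw [lintegral_add_right _ measurable_const, lintegral_const, h1, mul_one]

private lemma rp_neg (x : ℝ≥0∞) (p : ℝ) : x ^ (-1 / p) = (x ^ (1 / p))⁻¹ := by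
  have e : (-1 / p) = -(1 / p) := by ring
  rw [e, ENNReal.rpow_neg]

theorem cap_pos (hn : 2 ≤ n) {p q : ℝ} (hp : 0 < p) (hpq : p < q) (hq : q ≤ (n : ℝ) - 1) {K : Set (E n)}
    (hK : IsCompact K) :
    capf q K * capf p (Metric.closedBall (0 : E (n + 1)) 1) ≤
      capf p K * capf q (Metric.closedBall (0 : E (n + 1)) 1) := by
  have hq0 : 0 < q := lt_trans hp hpq
  have hqn : q < (n : ℝ) := by linarith
  have hpn : p < (n : ℝ) := by linarith
  obtain ⟨σ, hσ⟩ := exists_sphM (n := n)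
  obtain ⟨ep0, ept⟩ := en_sphere_fin (by omega) hσ hp hpn
  obtain ⟨eq0, eqt⟩ := en_sphere_fin (by omega) hσ hq0 hqn
  set B := Metric.closedBall (0 : E (n + 1)) 1 with hB
  rw [capf_pos_def hp, capf_pos_def hp, capf_pos_def hq0, capf_pos_def hq0, ← ENNReal.toReal_mul,
    ← ENNReal.toReal_mul]
  have hKp0 : infEn p K ≠ 0 := infEn_pos hp hK
  have hKq0 : infEn q K ≠ 0 := infEn_pos hq0 hK
  have hBq0 : infEn q B ≠ 0 := infEn_pos hq0 (isCompact_closedBall _ _)
  have hnt : ∀ (x : ℝ≥0∞) (s : ℝ), 0 < s → x ≠ 0 → x ^ (-1 / s) ≠ ⊤ := by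
    intro x s hs hx
    rw [rp_neg]
    rw [ENNReal.inv_ne_top]
    intro h
    rcases ENNReal.rpow_eq_zero_iff.1 h with ⟨h, -⟩ | ⟨-, h⟩
    · exact hx h
    · have : 0 < 1 / s := by positivity
      linarith
  apply ENNReal.toReal_mono (ENNReal.mul_ne_top (hnt _ _ hp hKp0) (hnt _ _ hq0 hBq0))
  by_cases hMt : infEn q K = ⊤
  · rw [hMt, ENNReal.top_rpow_of_neg (div_neg_of_neg_of_pos (by norm_num) hq0), zero_mul]
    exact zero_le
  -- the comparison of the energies of `K`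
  have hcmp : infEn p K ≤ en p σ * (infEn q K / en q σ) ^ (p / q) := by
    have h1 : (infEn p K / en p σ) ^ (q / p) * en q σ ≤ infEn q K := by
      refine le_iInf₂ fun μ hμ => ?_
      have h2 : infEn p K ≤ en p σ * (en q μ / en q σ) ^ (p / q) :=
        (iInf₂_le μ hμ).trans (main_pos hn hσ hp hpq hqn hK hμ)
      have h3 : infEn p K / en p σ ≤ (en q μ / en q σ) ^ (p / q) := by
        rw [ENNReal.div_le_iff ep0 ept.ne, mul_comm]
        exact h2
      have h4 : (infEn p K / en p σ) ^ (q / p) ≤ en q μ / en q σ := by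
        calc (infEn p K / en p σ) ^ (q / p) ≤ ((en q μ / en q σ) ^ (p / q)) ^ (q / p) :=
              ENNReal.rpow_le_rpow h3 (by positivity)
          _ = en q μ / en q σ := by
              rw [← ENNReal.rpow_mul]
              have : p / q * (q / p) = 1 := by field_simp
              rw [this, ENNReal.rpow_one]
      exact (ENNReal.le_div_iff_mul_le (Or.inl eq0) (Or.inl eqt.ne)).1 h4
    have h5 : (infEn p K / en p σ) ^ (q / p) ≤ infEn q K / en q σ :=
      (ENNReal.le_div_iff_mul_le (Or.inl eq0) (Or.inl eqt.ne)).2 h1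
    have h6 : infEn p K / en p σ ≤ (infEn q K / en q σ) ^ (p / q) := by
      calc infEn p K / en p σ = ((infEn p K / en p σ) ^ (q / p)) ^ (p / q) := by
            rw [← ENNReal.rpow_mul]
            have : q / p * (p / q) = 1 := by field_simp
            rw [this, ENNReal.rpow_one]
        _ ≤ _ := ENNReal.rpow_le_rpow h5 (by positivity)
    rw [ENNReal.div_le_iff ep0 ept.ne, mul_comm] at h6
    exact h6
  have hp1 : 0 < 1 / p := by positivity
  have hq1 : 0 < 1 / q := by positivity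
  set x := infEn q K ^ (1 / q) with hx
  set u := en p σ ^ (1 / p) with hu
  set v := en q σ ^ (1 / q) with hv
  have hu0 : u ≠ 0 := (ENNReal.rpow_pos (pos_iff_ne_zero.2 ep0) ept.ne).ne'
  have hut : u ≠ ⊤ := ENNReal.rpow_ne_top_of_nonneg hp1.le ept.ne
  have hv0 : v ≠ 0 := (ENNReal.rpow_pos (pos_iff_ne_zero.2 eq0) eqt.ne).ne'
  have hvt : v ≠ ⊤ := ENNReal.rpow_ne_top_of_nonneg hq1.le eqt.ne
  have hx0 : x ≠ 0 := (ENNReal.rpow_pos (pos_iff_ne_zero.2 hKq0) hMt).ne'
  have hxt : x ≠ ⊤ := ENNReal.rpow_ne_top_of_nonneg hq1.le hMt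
  have i1 : infEn p K ^ (1 / p) ≤ u * (x / v) := by
    calc infEn p K ^ (1 / p) ≤ (en p σ * (infEn q K / en q σ) ^ (p / q)) ^ (1 / p) :=
          ENNReal.rpow_le_rpow hcmp hp1.le
      _ = u * (x / v) := by
          rw [ENNReal.mul_rpow_of_nonneg _ _ hp1.le, ← ENNReal.rpow_mul]
          have : p / q * (1 / p) = 1 / q := by field_simp
          rw [this, ENNReal.div_rpow_of_nonneg _ _ hq1.le]
  have i2 : u ≤ infEn p B ^ (1 / p) := by
    refine ENNReal.rpow_le_rpow ?_ hp1.le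
    refine le_iInf₂ fun ν hν => ?_
    exact ball_ge_pos hn hσ hp (by linarith) hν
  have i3 : infEn q B ^ (1 / q) ≤ v := by
    refine ENNReal.rpow_le_rpow ?_ hq1.le
    exact iInf₂_le σ (pk_ball hσ)
  rw [rp_neg, rp_neg, rp_neg, rp_neg]
  calc x⁻¹ * (infEn p B ^ (1 / p))⁻¹ ≤ x⁻¹ * u⁻¹ := by gcongr
    _ = (u * (x / v))⁻¹ * v⁻¹ := by
        rw [← ENNReal.mul_inv (Or.inl hx0) (Or.inl hxt), ← ENNReal.mul_inv (Or.inr hvt) (Or.inr hv0),
          mul_assoc, ENNReal.div_mul_cancel hv0 hvt, mul_comm]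
    _ ≤ (infEn p K ^ (1 / p))⁻¹ * (infEn q B ^ (1 / q))⁻¹ := by gcongr

theorem cap_zero (hn : 2 ≤ n) {q : ℝ} (hq0 : 0 < q) (hq : q ≤ (n : ℝ) - 1) {K : Set (E n)}
    (hK : IsCompact K) :
    capf q K * capf 0 (Metric.closedBall (0 : E (n + 1)) 1) ≤
      capf 0 K * capf q (Metric.closedBall (0 : E (n + 1)) 1) := by
  have hqn : q < (n : ℝ) := by linarith
  obtain ⟨σ, hσ⟩ := exists_sphM (n := n)
  obtain ⟨eq0, eqt⟩ := en_sphere_fin (by omega) hσ hq0 hqn
  set B := Metric.closedBall (0 : E (n + 1)) 1 with hB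
  have hdK : 0 ≤ Metric.diam K := Metric.diam_nonneg
  have hBσ := pk_ball hσ
  have hq1 : 0 < 1 / q := by positivity
  have hnn : 0 ≤ capf 0 K := by
    rw [capf_zero_def]
    split_ifs
    · exact le_refl _
    · positivity
  have hnnB : 0 ≤ capf q B := by
    rw [capf_pos_def hq0]
    exact ENNReal.toReal_nonneg
  by_cases hMt : infEn q K = ⊤
  · have e : capf q K = 0 := by
      rw [capf_pos_def hq0, hMt, ENNReal.top_rpow_of_neg (div_neg_of_neg_of_pos (by norm_num) hq0)]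
      rfl
    rw [e, zero_mul]
    exact mul_nonneg hnn hnnB
  have hM0 : infEn q K ≠ 0 := infEn_pos hq0 hK
  set eq : ℝ := (en q σ).toReal with heq
  have heqpos : 0 < eq := ENNReal.toReal_pos eq0 eqt.ne
  have hdistB : ∀ x ∈ B, ∀ y ∈ B, dist x y ≤ 2 := by
    intro x hx y hy
    have h1 : dist x 0 ≤ 1 := Metric.mem_closedBall.1 hx
    have h2 : dist 0 y ≤ 1 := by
      rw [dist_comm]
      exact Metric.mem_closedBall.1 hy
    have := dist_triangle x 0 y
    linarith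
  -- the estimate for one measure
  have hone : ∀ μ : Measure (E n), PK K μ → en q μ < ⊤ →
      lgE 2 σ < ⊤ ∧ logEn K ≠ ⊤ ∧
        2 * (eq / (en q μ).toReal) ^ (1 / q) * Real.exp (-(lgE 2 σ).toReal) ≤ capf 0 K := by
    intro μ hμ hfin
    have hμ0 : en q μ ≠ 0 := by
      intro h
      apply hM0
      exact le_antisymm ((iInf₂_le μ hμ).trans h.le) zero_le
    have hμpos : 0 < (en q μ).toReal := ENNReal.toReal_pos hμ0 hfin.ne
    set R : ℝ := (eq / (en q μ).toReal) ^ (1 / q) with hR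
    have hRpos : 0 < R := Real.rpow_pos_of_pos (by positivity) _
    set D0 : ℝ := Metric.diam K + 1 with hD0
    have hD0pos : 0 < D0 := by linarith
    set D : ℝ := max (2 * R) D0 with hD
    have hD1 : 2 * R ≤ D := le_max_left _ _
    have hD2 : D0 ≤ D := le_max_right _ _
    have hDpos : 0 < D := lt_of_lt_of_le hD0pos hD2
    obtain ⟨h1, h2⟩ := main_log hn hσ hq0 hqn hK hμ hfin (D := D) (R := R) hR hD1 (by linarith)
    have hdiam : ∀ x ∈ K, ∀ y ∈ K, dist x y ≤ D0 := by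
      intro x hx y hy
      have := Metric.dist_le_diam_of_mem hK.isBounded hx hy
      linarith
    have hDR : 2 ≤ D / R := by
      rw [le_div_iff₀ hRpos]
      exact hD1
    have h3 := lgE_shift hμ hD0pos hD2 hdiam
    have h4 := lgE_shift hBσ (by norm_num : (0 : ℝ) < 2) hDR hdistB
    rw [h3, h4] at h1
    rw [h4] at h2
    have h5 : lgE 2 σ < ⊤ := lt_of_le_of_lt le_self_add h2
    have h6 : lgE D0 μ < ⊤ := lt_of_le_of_lt le_self_add (lt_of_le_of_lt h1 h2)
    have hlogK : logEn K ≤ lgE D0 μ := iInf₂_le μ hμ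
    have hlogKt : logEn K ≠ ⊤ := (lt_of_le_of_lt hlogK h6).ne
    refine ⟨h5, hlogKt, ?_⟩
    have hl1 : 0 ≤ Real.log (D / D0) := Real.log_nonneg ((one_le_div hD0pos).2 hD2)
    have hl2 : 0 ≤ Real.log (D / R / 2) := Real.log_nonneg ((one_le_div (by norm_num)).2 hDR)
    have h7 : (lgE D0 μ).toReal + Real.log (D / D0) ≤ (lgE 2 σ).toReal + Real.log (D / R / 2) := by
      have := ENNReal.toReal_mono h2.ne h1
      rw [ENNReal.toReal_add h6.ne ENNReal.ofReal_ne_top,
        ENNReal.toReal_add h5.ne ENNReal.ofReal_ne_top, ENNReal.toReal_ofReal hl1,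
        ENNReal.toReal_ofReal hl2] at this
      exact this
    have h8 : (logEn K).toReal ≤ (lgE D0 μ).toReal := ENNReal.toReal_mono h6.ne hlogK
    have h9 : Real.log (D / R / 2) - Real.log (D / D0) = Real.log D0 - Real.log (2 * R) := by
      rw [Real.log_div (by positivity) (by norm_num), Real.log_div hDpos.ne' hRpos.ne',
        Real.log_div hDpos.ne' hD0pos.ne', Real.log_mul (by norm_num) hRpos.ne']
      ring
    have h10 : (logEn K).toReal ≤ (lgE 2 σ).toReal + Real.log D0 - Real.log (2 * R) := by linarith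
    rw [capf_zero_def, if_neg hlogKt]
    calc 2 * R * Real.exp (-(lgE 2 σ).toReal)
        = D0 * Real.exp (-((lgE 2 σ).toReal + Real.log D0 - Real.log (2 * R))) := by
          have e : -((lgE 2 σ).toReal + Real.log D0 - Real.log (2 * R)) =
              Real.log (2 * R) + -(lgE 2 σ).toReal - Real.log D0 := by ring
          rw [e, Real.exp_sub, Real.exp_add, Real.exp_log (by positivity), Real.exp_log hD0pos]
          field_simp
      _ ≤ D0 * Real.exp (-(logEn K).toReal) := by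
          apply mul_le_mul_of_nonneg_left _ hD0pos.le
          exact Real.exp_le_exp.2 (by linarith)
  -- there is a measure of finite energy
  obtain ⟨μ0, hμ0, hfin0⟩ : ∃ μ : Measure (E n), PK K μ ∧ en q μ < ⊤ := by
    have h : infEn q K < ⊤ := lt_top_iff_ne_top.2 hMt
    unfold infEn at h
    simp only [iInf_lt_iff] at h
    obtain ⟨μ, hμ, h⟩ := h
    exact ⟨μ, hμ, h⟩
  obtain ⟨hσt, hlogKt, hcap0⟩ := hone μ0 hμ0 hfin0
  set l2 : ℝ := (lgE 2 σ).toReal with hl2
  have hen0 : ∀ μ : Measure (E n), PK K μ → en q μ < ⊤ → 0 < (en q μ).toReal := by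
    intro μ hμ hfin
    refine ENNReal.toReal_pos ?_ hfin.ne
    intro h
    apply hM0
    exact le_antisymm ((iInf₂_le μ hμ).trans h.le) zero_le
  have hcappos : 0 < capf 0 K := by
    have h1 := hen0 μ0 hμ0 hfin0
    refine lt_of_lt_of_le ?_ hcap0
    positivity
  set M : ℝ := (infEn q K).toReal with hM
  have hMpos : 0 < M := ENNReal.toReal_pos hM0 hMt
  -- the estimate for the infimum
  set c : ℝ := capf 0 K * Real.exp l2 / 2 with hc
  have hcpos : 0 < c := by positivity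
  have hinf : eq / c ^ q ≤ M := by
    have h1 : ENNReal.ofReal (eq / c ^ q) ≤ infEn q K := by
      refine le_iInf₂ fun μ hμ => ?_
      by_cases hfin : en q μ = ⊤
      · rw [hfin]; exact le_top
      have hfin' : en q μ < ⊤ := lt_top_iff_ne_top.2 hfin
      have h2 := (hone μ hμ hfin').2.2
      have h3 := hen0 μ hμ hfin'
      have h4 : (eq / (en q μ).toReal) ^ (1 / q) ≤ c := by
        have e : Real.exp (-l2) * Real.exp l2 = 1 := by
          rw [← Real.exp_add]; simp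
        have h5 : 2 * (eq / (en q μ).toReal) ^ (1 / q) * Real.exp (-l2) * Real.exp l2 ≤
            capf 0 K * Real.exp l2 := mul_le_mul_of_nonneg_right h2 (Real.exp_pos _).le
        rw [mul_assoc, e, mul_one] at h5
        rw [hc]
        linarith
      have h5 : eq / (en q μ).toReal ≤ c ^ q := by
        have h6 := Real.rpow_le_rpow (by positivity) h4 hq0.le
        rw [← Real.rpow_mul (by positivity)] at h6
        have : 1 / q * q = 1 := by field_simp
        rw [this, Real.rpow_one] at h6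
        exact h6
      have hcq : 0 < c ^ q := Real.rpow_pos_of_pos hcpos _
      rw [ENNReal.ofReal_le_iff_le_toReal hfin]
      rw [div_le_iff₀ hcq]
      rw [div_le_iff₀ h3] at h5
      linarith
    exact (ENNReal.ofReal_le_iff_le_toReal hMt).1 h1
  have hinf2 : (eq / M) ^ (1 / q) ≤ c := by
    have hcq : 0 < c ^ q := Real.rpow_pos_of_pos hcpos _
    have h1 : eq / M ≤ c ^ q := by
      rw [div_le_iff₀ hMpos]
      rw [div_le_iff₀ hcq] at hinf
      linarith
    calc (eq / M) ^ (1 / q) ≤ (c ^ q) ^ (1 / q) := Real.rpow_le_rpow (by positivity) h1 hq1.le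
      _ = c := by
          rw [← Real.rpow_mul hcpos.le]
          have : q * (1 / q) = 1 := by field_simp
          rw [this, Real.rpow_one]
  -- the ball
  have hdB : 1 ≤ Metric.diam B := by
    have hb : bv (0 : Fin (n + 1)) ∈ B := by
      rw [hB, Metric.mem_closedBall, dist_zero_right, bv]
      simp
    have h0 : (0 : E (n + 1)) ∈ B := by rw [hB]; simp
    have := Metric.dist_le_diam_of_mem (Metric.isBounded_closedBall (x := (0 : E (n + 1))) (r := 1)) hb h0
    rw [dist_zero_right, bv] at this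
    have e : ‖(EuclideanSpace.single (0 : Fin (n + 1)) (1 : ℝ) : E (n + 1))‖ = 1 := by simp
    rw [e] at this
    exact this
  have hcapB : capf 0 B ≤ 2 * Real.exp (-l2) := by
    rw [capf_zero_def]
    split_ifs with hif
    · positivity
    · have h1 : lgE (Metric.diam B + 1) σ ≤ logEn B := by
        refine le_iInf₂ fun ν hν => ?_
        exact ball_ge_log hn hσ (by linarith) hν
      have h2 := lgE_shift hBσ (by norm_num : (0 : ℝ) < 2)
        (by linarith : (2 : ℝ) ≤ Metric.diam B + 1) hdistB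
      rw [h2] at h1
      have h3 := ENNReal.toReal_mono hif h1
      have hl : 0 ≤ Real.log ((Metric.diam B + 1) / 2) :=
        Real.log_nonneg ((one_le_div (by norm_num)).2 (by linarith))
      rw [ENNReal.toReal_add hσt.ne ENNReal.ofReal_ne_top, ENNReal.toReal_ofReal hl] at h3
      calc (Metric.diam B + 1) * Real.exp (-(logEn B).toReal)
          ≤ (Metric.diam B + 1) * Real.exp (-(l2 + Real.log ((Metric.diam B + 1) / 2))) := by
            apply mul_le_mul_of_nonneg_left _ (by linarith)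
            exact Real.exp_le_exp.2 (by linarith)
        _ = 2 * Real.exp (-l2) := by
            rw [neg_add, Real.exp_add, Real.exp_neg (Real.log _), Real.exp_log (by linarith)]
            have : Metric.diam B + 1 ≠ 0 := by linarith
            field_simp
  have hcapqB : eq ^ (-1 / q) ≤ capf q B := by
    rw [capf_pos_def hq0, heq, ENNReal.toReal_rpow]
    apply ENNReal.toReal_mono
    · rw [rp_neg, ENNReal.inv_ne_top]
      intro h
      rcases ENNReal.rpow_eq_zero_iff.1 h with ⟨h, -⟩ | ⟨-, h⟩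
      · exact infEn_pos hq0 (isCompact_closedBall _ _) h
      · linarith
    · rw [rp_neg, rp_neg]
      apply ENNReal.inv_le_inv.2
      refine ENNReal.rpow_le_rpow ?_ hq1.le
      exact iInf₂_le σ hBσ
  have hcapqK : capf q K = M ^ (-1 / q) := by
    rw [capf_pos_def hq0, ← ENNReal.toReal_rpow]
  rw [hcapqK]
  have hMe : (eq / M) ^ (1 / q) = eq ^ (1 / q) * M ^ (-1 / q) := by
    have e : (-1 / q) = -(1 / q) := by ring
    rw [Real.div_rpow heqpos.le hMpos.le, e, Real.rpow_neg hMpos.le]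
    rfl
  have hee : eq ^ (1 / q) * eq ^ (-1 / q) = 1 := by
    rw [← Real.rpow_add heqpos]
    have : 1 / q + -1 / q = 0 := by ring
    rw [this, Real.rpow_zero]
  have hMq : 0 < M ^ (-1 / q) := Real.rpow_pos_of_pos hMpos _
  have heqq : 0 < eq ^ (-1 / q) := Real.rpow_pos_of_pos heqpos _
  have hex : Real.exp (-l2) * Real.exp l2 = 1 := by
    rw [← Real.exp_add]; simp
  rw [hMe] at hinf2
  have h1 : M ^ (-1 / q) ≤ c * eq ^ (-1 / q) := by
    calc M ^ (-1 / q) = (eq ^ (1 / q) * M ^ (-1 / q)) * eq ^ (-1 / q) := by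
          rw [mul_right_comm, hee, one_mul]
      _ ≤ c * eq ^ (-1 / q) := mul_le_mul_of_nonneg_right hinf2 heqq.le
  calc M ^ (-1 / q) * capf 0 B ≤ M ^ (-1 / q) * (2 * Real.exp (-l2)) :=
        mul_le_mul_of_nonneg_left hcapB hMq.le
    _ ≤ (c * eq ^ (-1 / q)) * (2 * Real.exp (-l2)) :=
        mul_le_mul_of_nonneg_right h1 (by positivity)
    _ = capf 0 K * eq ^ (-1 / q) * (Real.exp (-l2) * Real.exp l2) := by
        rw [hc]; ring
    _ = capf 0 K * eq ^ (-1 / q) := by rw [hex, mul_one]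
    _ ≤ capf 0 K * capf q B := mul_le_mul_of_nonneg_left hcapqB hnn

end Pool.Agent.Lib.MP_6cd19d_an.HP
end
end
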