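import Pool.Agent.Lib.MP_6cd19d_an.HP.Defs
import Pool.Agent.Lib.MP_6cd19d_an.HP.F2
import Pool.Agent.Lib.MP_6cd19d_an.Fin.High

section

/-!
# Flat sets

If `K ⊆ E (n+1)` lies in the hyperplane `⟪a, x⟫ = c`, `a ≠ 0`, there is an isometry `f : E n → E (n+1)` whose range is the
hyperplane (translate by a point of the hyperplane; the orthogonal complement of `a` has dimension `n`, take a linear isometry
from `E n` onto it, `LinearIsometryEquiv.ofInnerProductSpace` or `stdOrthonormalBasis`).  `K' = f ⁻¹' K` is compact and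
`f '' K' = K`; measures on `K'` and on `K` correspond by `map f` (`f` is a measurable embedding) and the energies and the
diameter are the same.
-/

set_option autoImplicit false

open MeasureTheory ProbabilityTheory Set Filter Topology
open scoped ENNReal NNReal

namespace Pool.Agent.Lib.MP_6cd19d_an.HP

open Pool.Agent.Lib.MP_6cd19d_an.ND

variable {n : ℕ}

private theorem flat_iso {a : E (n + 1)} (ha : a ≠ 0) (c : ℝ) :
    ∃ f : E n → E (n + 1), Isometry f ∧ ∀ x, inner ℝ a x = c → x ∈ range f := by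
  have : Fact (Module.finrank ℝ (E (n + 1)) = n + 1) := ⟨finrank_euclideanSpace_fin⟩
  set b := OrthonormalBasis.fromOrthogonalSpanSingleton (𝕜 := ℝ) n ha with hb
  set x0 : E (n + 1) := (c / ‖a‖ ^ 2) • a with hx0
  have hna : ‖a‖ ^ 2 ≠ 0 := by
    have := norm_pos_iff.2 ha
    positivity
  have hx0c : inner ℝ a x0 = c := by
    rw [hx0, inner_smul_right, real_inner_self_eq_norm_sq]
    field_simp
  refine ⟨fun y => x0 + (b.repr.symm y : E (n + 1)), ?_, ?_⟩
  · refine Isometry.of_dist_eq (fun y z => ?_)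
    rw [dist_add_left]
    have h := b.repr.symm.isometry.dist_eq y z
    rw [← h]
    rfl
  · intro x hx
    have hmem : x - x0 ∈ (Submodule.span ℝ {a})ᗮ := by
      rw [Submodule.mem_orthogonal_singleton_iff_inner_right, inner_sub_right, hx, hx0c, sub_self]
    refine ⟨b.repr ⟨x - x0, hmem⟩, ?_⟩
    simp

private theorem lint_map {f : E n → E (n + 1)} (hf : Isometry f) (ν : Measure (E n))
    (g : E (n + 1) → E (n + 1) → ℝ≥0∞) :
    ∫⁻ x, ∫⁻ y, g x y ∂(ν.map f) ∂(ν.map f) = ∫⁻ x, ∫⁻ y, g (f x) (f y) ∂ν ∂ν := by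
  have he : MeasurableEmbedding f := hf.isClosedEmbedding.measurableEmbedding
  rw [he.lintegral_map]
  refine lintegral_congr (fun x => ?_)
  rw [he.lintegral_map]

private theorem push_PK {f : E n → E (n + 1)} (hf : Isometry f) {K : Set (E (n + 1))}
    {ν : Measure (E n)} (h : ν univ = 1 ∧ ν (f ⁻¹' K)ᶜ = 0) :
    (ν.map f) univ = 1 ∧ (ν.map f) Kᶜ = 0 := by
  have he : MeasurableEmbedding f := hf.isClosedEmbedding.measurableEmbedding
  rw [he.map_apply, he.map_apply, preimage_univ, preimage_compl]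
  exact h

private theorem pull_PK {f : E n → E (n + 1)} (hf : Isometry f) {K : Set (E (n + 1))}
    (hK : K ⊆ range f) {μ : Measure (E (n + 1))} (h : μ univ = 1 ∧ μ Kᶜ = 0) :
    ∃ ν : Measure (E n), (ν univ = 1 ∧ ν (f ⁻¹' K)ᶜ = 0) ∧ ν.map f = μ := by
  have he : MeasurableEmbedding f := hf.isClosedEmbedding.measurableEmbedding
  have hmap : (μ.comap f).map f = μ := by
    rw [he.map_comap, Measure.restrict_eq_self_of_ae_mem]
    rw [ae_iff]
    refine measure_mono_null ?_ h.2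
    intro x hx hxK
    exact hx (hK hxK)
  refine ⟨μ.comap f, ⟨?_, ?_⟩, hmap⟩
  · have h1 := he.map_apply (μ.comap f) univ
    rw [hmap, preimage_univ, h.1] at h1
    exact h1.symm
  · have h1 := he.map_apply (μ.comap f) Kᶜ
    rw [hmap, h.2, preimage_compl] at h1
    exact h1.symm

private theorem key_inf {f : E n → E (n + 1)} (hf : Isometry f) {K : Set (E (n + 1))}
    (hK : K ⊆ range f) (g : E (n + 1) → E (n + 1) → ℝ≥0∞) :
    (⨅ (μ : Measure (E n)) (_ : μ univ = 1 ∧ μ (f ⁻¹' K)ᶜ = 0),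
      ∫⁻ x, ∫⁻ y, g (f x) (f y) ∂μ ∂μ) =
    ⨅ (μ : Measure (E (n + 1))) (_ : μ univ = 1 ∧ μ Kᶜ = 0), ∫⁻ x, ∫⁻ y, g x y ∂μ ∂μ := by
  refine le_antisymm ?_ ?_
  · refine le_iInf₂ (fun μ hμ => ?_)
    obtain ⟨ν, hν, hmap⟩ := pull_PK hf hK hμ
    refine (iInf₂_le ν hν).trans (le_of_eq ?_)
    rw [← lint_map hf, hmap]
  · refine le_iInf₂ (fun ν hν => ?_)
    refine (iInf₂_le (ν.map f) (push_PK hf hν)).trans (le_of_eq ?_)
    rw [lint_map hf]

private theorem key_sup {f : E n → E (n + 1)} (hf : Isometry f) {K : Set (E (n + 1))}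
    (hK : K ⊆ range f) (g : E (n + 1) → E (n + 1) → ℝ≥0∞) :
    (⨆ (μ : Measure (E n)) (_ : μ univ = 1 ∧ μ (f ⁻¹' K)ᶜ = 0),
      ∫⁻ x, ∫⁻ y, g (f x) (f y) ∂μ ∂μ) =
    ⨆ (μ : Measure (E (n + 1))) (_ : μ univ = 1 ∧ μ Kᶜ = 0), ∫⁻ x, ∫⁻ y, g x y ∂μ ∂μ := by
  refine le_antisymm ?_ ?_
  · refine iSup₂_le (fun ν hν => ?_)
    refine (le_of_eq ?_).trans (le_iSup₂ (ν.map f) (push_PK hf hν))
    rw [lint_map hf]
  · refine iSup₂_le (fun μ hμ => ?_)
    obtain ⟨ν, hν, hmap⟩ := pull_PK hf hK hμ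
    refine (le_of_eq ?_).trans (le_iSup₂ ν hν)
    rw [← lint_map hf, hmap]

theorem flat_cap {K : Set (E (n + 1))} (hK : IsCompact K) {a : E (n + 1)} (ha : a ≠ 0) {c : ℝ}
    (h : ∀ x ∈ K, inner ℝ a x = c) :
    ∃ K' : Set (E n), IsCompact K' ∧ ∀ s : ℝ, capf s K' = capf s K := by
  obtain ⟨f, hf, hr⟩ := flat_iso ha c
  have hKr : K ⊆ range f := fun x hx => hr x (h x hx)
  have hdiam : Metric.diam (f ⁻¹' K) = Metric.diam K := by
    rw [← hf.diam_image, image_preimage_eq_of_subset hKr]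
  refine ⟨f ⁻¹' K, hf.isClosedEmbedding.isCompact_preimage hK, fun s => ?_⟩
  have h1 := key_inf hf hKr (fun x y => (edist x y) ^ (-s))
  have h2 := key_sup hf hKr (fun x y => (edist x y) ^ (-s))
  have h3 := key_inf hf hKr (fun x y => (if x = y then (⊤ : ℝ≥0∞) else
      ENNReal.ofReal (Real.log ((Metric.diam K + 1) / dist x y))))
  simp only [hf.edist_eq] at h1 h2
  simp only [hf.dist_eq, hf.injective.eq_iff] at h3
  unfold capf
  rw [hdiam, h1, h2, h3]

end Pool.Agent.Lib.MP_6cd19d_an.HP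
end

section

/-!
# Assembly: all exponents

`ratio_up`: compact sets of `E n` against the unit ball of `E (n+1)`; `ratio_flat`: compact sets of `E (n+1)` in a
hyperplane, all `0 ≤ p < q < n + 1`.
-/

set_option autoImplicit false

open MeasureTheory Set Filter Topology
open scoped ENNReal NNReal

namespace Pool.Agent.Lib.MP_6cd19d_an.HP

open Pool.Agent.Lib.MP_6cd19d_an.ND Pool.Agent.Lib.MP_6cd19d_an.A

variable {n : ℕ}

theorem ratio_up (hn : 2 ≤ n) {p q : ℝ} (hp : 0 ≤ p) (hpq : p < q) (hq : q ≤ (n : ℝ) - 1)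
    {K : Set (E n)} (hK : IsCompact K) (hpos : 0 < capf p K) :
    capf q K / capf p K ≤ capf q (Metric.closedBall (0 : E (n + 1)) 1) /
      capf p (Metric.closedBall (0 : E (n + 1)) 1) := by
  have hlt : p < ((n + 1 : ℕ) : ℝ) := by
    push_cast
    linarith
  have hB := Fin.ball_pos (n := n + 1) (by omega) hlt
  rw [div_le_div_iff₀ hpos hB, mul_comm (capf q (Metric.closedBall (0 : E (n + 1)) 1))]
  rcases hp.eq_or_lt with h | h
  · subst h
    exact cap_zero hn hpq hq hK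
  · exact cap_pos hn h hpq hq hK

theorem ratio_flat (hn : 2 ≤ n) {p q : ℝ} (hp : 0 ≤ p) (hpq : p < q) (hq : q < (n : ℝ) + 1)
    {K : Set (E (n + 1))} (hK : IsCompact K) {a : E (n + 1)} (ha : a ≠ 0) {c : ℝ}
    (h : ∀ x ∈ K, inner ℝ a x = c) (hpos : 0 < capf p K) :
    capf q K / capf p K ≤ capf q (Metric.closedBall (0 : E (n + 1)) 1) /
      capf p (Metric.closedBall (0 : E (n + 1)) 1) := by
  rcases le_or_gt q ((n : ℝ) - 1) with h1 | h1
  · obtain ⟨K', hK', hcap⟩ := flat_cap hK ha h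
    rw [← hcap p] at hpos
    rw [← hcap p, ← hcap q]
    exact ratio_up hn hp hpq h1 hK' hpos
  · have hlt : p < ((n + 1 : ℕ) : ℝ) := by
      push_cast
      linarith
    have hB := Fin.ball_pos (n := n + 1) (by omega) hlt
    rw [div_le_div_iff₀ hpos hB, mul_comm (capf q (Metric.closedBall (0 : E (n + 1)) 1))]
    refine Fin.ratio_all (n := n + 1) (by omega) hpq ?_ ?_ hK
    · push_cast
      linarith
    · push_cast
      linarith

end Pool.Agent.Lib.MP_6cd19d_an.HP
end
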